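import Pool.Agent.Lib.MP_288534_co.Stm

set_option autoImplicit false

namespace Pool.Agent.SM

private lemma A2_sg (s : Bool) : (sg s : ℝ) = 1 ∨ (sg s : ℝ) = -1 := by
  cases s <;> simp [sg]

private lemma A2_coord {n : ℕ} (x : Es n) (i : Dx n) : |x i| ≤ ‖x‖ := by
  have := PiLp.norm_apply_le x i
  simpa [Real.norm_eq_abs] using this

private lemma A2_sum {n : ℕ} (L : Es n ≃ₗᵢ[ℝ] Es n) (x : Es n) (k : Dx n) :
    L x k = ∑ i, x i * L (EuclideanSpace.single i (1 : ℝ)) k := by
  have h1 : x = ∑ i, x i • EuclideanSpace.single i (1 : ℝ) := by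
    ext j
    rw [WithLp.ofLp_sum, Finset.sum_apply]
    simp only [PiLp.smul_apply, PiLp.single_apply, smul_eq_mul]
    simp
  conv_lhs => rw [h1, map_sum]
  rw [WithLp.ofLp_sum, Finset.sum_apply]
  refine Finset.sum_congr rfl fun i _ => ?_
  rw [map_smul]
  simp

theorem pf_A2 (hA1 : S_A1) : S_A2 := by
  intro n h c q s v hv hvm ⟨ε, hε, hcone⟩
  obtain ⟨y, hy, hyv⟩ := hvm
  set L : Es n ≃ₗᵢ[ℝ] Es n := h.toRealLinearIsometryEquiv with hL
  have hLx : ∀ x, h x = L x + h 0 := by
    intro x
    rw [hL, IsometryEquiv.toRealLinearIsometryEquiv_apply]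
    abel
  let e : Dx n → Es n := fun i => EuclideanSpace.single i (1 : ℝ)
  have hnorm : ∀ i, ‖L (e i)‖ = 1 := by
    intro i
    rw [L.norm_map]
    simp [e]
  have hcoord : ∀ i k, |L (e i) k| ≤ 1 := fun i k => by
    rw [← hnorm i]; exact A2_coord _ _
  have hadd : ∀ (i : Dx n) (t : ℝ) (k : Dx n), h (y + t • e i) k = v k + t * L (e i) k := by
    intro i t k
    rw [hLx, map_add, map_smul, ← hyv, hLx y]
    simp only [PiLp.add_apply, PiLp.smul_apply, smul_eq_mul]
    ring
  have hmem : ∀ (i : Dx n) (t : ℝ), |y i + t - c i| ≤ 1 / 2 → (y + t • e i) ∈ cube c := by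
    intro i t ht j
    by_cases hij : j = i
    · subst hij
      simpa [e] using ht
    · have : (y + t • e i) j = y j := by simp [e, hij]
      rw [this]; exact hy j
  have hle : ∀ (i : Dx n) (t : ℝ), |y i + t - c i| ≤ 1 / 2 → |t| < ε → ∀ k,
      (sg s : ℝ) * (t * L (e i) k) ≤ 0 := by
    intro i t ht htε k
    have h1 := hcone (h (y + t • e i)) ⟨_, hmem i t ht, rfl⟩ (fun j => by
      rw [hadd i t j, add_sub_cancel_left, abs_mul]
      calc |t| * |L (e i) j| ≤ |t| * 1 := by
            exact mul_le_mul_of_nonneg_left (hcoord i j) (abs_nonneg _)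
        _ < ε := by rw [mul_one]; exact htε) k
    rwa [hadd i t k, add_sub_cancel_left] at h1
  -- the point `y` is a corner of the cube
  have hcorner : ∀ i, ∃ τ : ℤ, (τ = 1 ∨ τ = -1) ∧ y i = c i + (τ : ℝ) / 2 := by
    intro i
    have hyi := hy i
    by_cases hlt : |y i - c i| < 1 / 2
    · exfalso
      set η : ℝ := min (1 / 2 - |y i - c i|) (ε / 2) with hη
      have hη0 : 0 < η := lt_min (by linarith) (by linarith)
      have hη1 : η ≤ 1 / 2 - |y i - c i| := min_le_left _ _
      have hη2 : η < ε := lt_of_le_of_lt (min_le_right _ _) (by linarith)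
      have hz : ∀ k, L (e i) k = 0 := by
        intro k
        have h1 := hle i η (by
          calc |y i + η - c i| = |(y i - c i) + η| := by ring_nf
            _ ≤ |y i - c i| + |η| := abs_add_le _ _
            _ ≤ 1 / 2 := by rw [abs_of_pos hη0]; linarith) (by rw [abs_of_pos hη0]; exact hη2) k
        have h2 := hle i (-η) (by
          calc |y i + (-η) - c i| = |(y i - c i) + (-η)| := by ring_nf
            _ ≤ |y i - c i| + |-η| := abs_add_le _ _
            _ ≤ 1 / 2 := by rw [abs_neg, abs_of_pos hη0]; linarith)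
            (by rw [abs_neg, abs_of_pos hη0]; exact hη2) k
        have h3 : (sg s : ℝ) * (η * L (e i) k) = 0 := by
          have h4 : (sg s : ℝ) * (-η * L (e i) k) = -((sg s : ℝ) * (η * L (e i) k)) := by ring
          rw [h4] at h2
          linarith
        rcases A2_sg s with hs | hs
        · rw [hs] at h3
          have : η * L (e i) k = 0 := by linarith
          exact (mul_eq_zero.1 this).resolve_left hη0.ne'
        · rw [hs] at h3
          have : η * L (e i) k = 0 := by linarith
          exact (mul_eq_zero.1 this).resolve_left hη0.ne'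
      have h0 : L (e i) = 0 := by
        ext k; exact hz k
      have := hnorm i
      rw [h0, norm_zero] at this
      exact zero_ne_one this
    · have heq : |y i - c i| = 1 / 2 := le_antisymm hyi (not_lt.1 hlt)
      rcases abs_eq (by norm_num : (0:ℝ) ≤ 1 / 2) |>.1 heq with h1 | h1
      · exact ⟨1, Or.inl rfl, by push_cast; linarith⟩
      · exact ⟨-1, Or.inr rfl, by push_cast; linarith⟩
  choose τ hτ hyτ using hcorner
  have hττ : ∀ i, (τ i : ℝ) * τ i = 1 := by
    intro i
    rcases hτ i with h1 | h1 <;> rw [h1] <;> norm_num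
  -- the vectors `w i`
  let w : Fin (n + 3) → Fin (n + 3) → ℝ := fun i k => - (τ i : ℝ) * L (e i) k
  have hinner : ∀ i j, ∑ k, L (e i) k * L (e j) k = if i = j then 1 else 0 := by
    intro i j
    have h1 : inner ℝ (L (e j)) (L (e i)) = inner ℝ (e j) (e i) := L.inner_map_map _ _
    rw [EuclideanSpace.inner_eq_star_dotProduct] at h1
    have h2 : inner ℝ (e j) (e i) = if i = j then (1:ℝ) else 0 := by
      simp only [e, EuclideanSpace.inner_single_left, PiLp.single_apply]
      by_cases hij : i = j
      · simp [hij]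
      · have : ¬ j = i := fun h => hij h.symm
        simp [hij, this]
    rw [h2] at h1
    rw [← h1]
    simp [dotProduct]
  have hw0 : ∀ i j, i ≠ j → ∑ k, w i k * w j k = 0 := by
    intro i j hij
    have : ∀ k, w i k * w j k = ((τ i : ℝ) * τ j) * (L (e i) k * L (e j) k) := by
      intro k; simp only [w]; ring
    simp only [this]
    rw [← Finset.mul_sum, hinner, if_neg hij, mul_zero]
  have hw1 : ∀ i, ∑ k, w i k ^ 2 = 1 := by
    intro i
    have : ∀ k, w i k ^ 2 = L (e i) k * L (e i) k := by
      intro k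
      simp only [w]
      have := hττ i
      linear_combination (L (e i) k) ^ 2 * this
    simp only [this]
    rw [hinner, if_pos rfl]
  have hw2 : ∀ i k, 0 ≤ (-(sg s : ℝ)) * w i k := by
    intro i k
    set η : ℝ := min 1 (ε / 2) with hη
    have hη0 : 0 < η := lt_min one_pos (by linarith)
    have hη1 : η ≤ 1 := min_le_left _ _
    have hη2 : η < ε := lt_of_le_of_lt (min_le_right _ _) (by linarith)
    have h1 := hle i (-(τ i : ℝ) * η) (by
      rw [hyτ i]
      rcases hτ i with h1 | h1 <;> rw [h1] <;> rw [abs_le] <;> constructor <;> push_cast <;> linarith)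
      (by
        rcases hτ i with h1 | h1 <;> rw [h1] <;> rw [abs_lt] <;> constructor <;> push_cast <;> linarith) k
    simp only [w]
    have h2 : (sg s : ℝ) * (-(τ i : ℝ) * η * L (e i) k)
        = η * ((sg s : ℝ) * (-(τ i : ℝ) * L (e i) k)) := by ring
    rw [h2] at h1
    have h3 : (sg s : ℝ) * (-(τ i : ℝ) * L (e i) k) ≤ 0 := by
      by_contra hpos
      push Not at hpos
      have := mul_pos hη0 hpos
      linarith
    linarith
  obtain ⟨π, hπ⟩ := hA1 (n + 3) w (-(sg s : ℝ)) (by
    rcases A2_sg s with hs | hs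
    · right; rw [hs]
    · left; rw [hs]; norm_num) hw0 hw1 hw2
  have hLe : ∀ i k, L (e i) k = if k = π i then (τ i : ℝ) * sg s else 0 := by
    intro i k
    have h1 := hπ i k
    have h2 : L (e i) k = -(τ i : ℝ) * w i k := by
      simp only [w]
      linear_combination (-(L (e i) k)) * hττ i
    rw [h2, h1]
    split_ifs
    · ring
    · ring
  have hLk : ∀ (x : Es n) (k : Dx n), L x k = ((τ (π.symm k) : ℝ) * sg s) * x (π.symm k) := by
    intro x k
    rw [A2_sum]
    rw [Finset.sum_eq_single (π.symm k)]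
    · have := hLe (π.symm k) k
      rw [Equiv.apply_symm_apply, if_pos rfl] at this
      change x (π.symm k) * L (e (π.symm k)) k = _
      rw [this]; ring
    · intro i _ hi
      have h1 := hLe i k
      have h2 : ¬ k = π i := by
        intro h; apply hi; rw [h, Equiv.symm_apply_apply]
      rw [if_neg h2] at h1
      change x i * L (e i) k = 0
      rw [h1, mul_zero]
    · intro h; exact absurd (Finset.mem_univ _) h
  have hss : (sg s : ℝ) * sg s = 1 := by
    rcases A2_sg s with hs | hs <;> rw [hs] <;> norm_num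
  have h0 : ∀ k, h 0 k = (q k : ℝ) - ((τ (π.symm k) : ℝ) * sg s) * c (π.symm k) := by
    intro k
    have h1 : h y k = L y k + h 0 k := by rw [hLx y]; simp
    rw [hyv, hv k, hLk y k, hyτ] at h1
    have h2 := hττ (π.symm k)
    linear_combination (-(sg s : ℝ) / 2) * h2 - h1
  refine ⟨⟨π.symm, fun k => τ (π.symm k) * sg s, ?_, fun k => q k - (τ (π.symm k) * sg s) * c (π.symm k)⟩, ?_, ?_⟩
  · intro k
    have h1 : sg s = 1 ∨ sg s = -1 := by cases s <;> simp [sg]
    rcases hτ (π.symm k) with h2 | h2 <;> rcases h1 with h3 | h3 <;> rw [h2, h3] <;> simp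
  · intro x k
    have h1 : h x k = L x k + h 0 k := by rw [hLx x]; simp
    rw [h1, hLk, h0]
    push_cast
    ring
  · funext k
    simp [CIso.act]

end Pool.Agent.SM
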