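import Pool.Agent.Lib.MP_288534_co.Stm

/-!
# MP_288534_co : piece [SM A3], the local cone
-/

set_option autoImplicit false

open scoped Topology

namespace Pool.Agent.SM

private theorem A3_coord {n : ℕ} (i : Dx n) : Continuous (fun y : Es n => y i) :=
  (EuclideanSpace.proj i : Es n →L[ℝ] ℝ).continuous

/-- near the corner `v` of `q`, the points outside the orthant of `q` lie in the cubes of the
other cells having `v` as a corner -/
private theorem A3_sub {n : ℕ} {A : Set (Zc n)} {q : Zc n} {s : Bool} {v : Es n}
    (hv : ∀ i, v i = q i + (sg s : ℝ) / 2)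
    (hA : ∀ δ : Zc n, (∀ i, δ i = 0 ∨ δ i = 1) → δ ≠ 0 → (fun i => q i + sg s * δ i) ∈ A)
    {i0 : Dx n} {z : Es n} (hz : ∀ i, |z i - v i| < 1 / 2)
    (hz0 : 0 < (sg s : ℝ) * (z i0 - v i0)) : z ∈ real A := by
  classical
  refine ⟨fun i => q i + sg s * (if 0 < (sg s : ℝ) * (z i - v i) then 1 else 0),
    hA (fun i => if 0 < (sg s : ℝ) * (z i - v i) then 1 else 0) (fun i => ?_) ?_, fun i => ?_⟩
  · by_cases h : 0 < (sg s : ℝ) * (z i - v i)
    · exact Or.inr (if_pos h)
    · exact Or.inl (if_neg h)
  · intro h
    have := congrFun h i0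
    simp only [if_pos hz0, Pi.zero_apply] at this
    exact one_ne_zero this
  · have h1 := hz i
    have h2 := hv i
    rw [abs_lt] at h1
    rw [abs_le]
    cases s
    · simp only [sg, Bool.false_eq_true, if_false, Int.cast_neg, Int.cast_one] at *
      by_cases h : 0 < (-1 : ℝ) * (z i - v i)
      · simp only [if_pos h, mul_one]
        push_cast
        constructor <;> linarith [h1.1, h1.2]
      · simp only [if_neg h, mul_zero, add_zero]
        constructor <;> linarith [h1.1, h1.2]
    · simp only [sg, if_true, Int.cast_one] at *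
      by_cases h : 0 < (1 : ℝ) * (z i - v i)
      · simp only [if_pos h, mul_one]
        push_cast
        constructor <;> linarith [h1.1, h1.2]
      · simp only [if_neg h, mul_zero, add_zero]
        constructor <;> linarith [h1.1, h1.2]

theorem pf_A3 (hR4 : S_R4) : S_A3 := by
  intro n A B q c s v h hv hA hc hdis x hx hxv i0
  by_contra hcon
  rw [not_le] at hcon
  obtain ⟨hopen, -, hsub, -, -, hcl⟩ := hR4 n c
  let U : Set (Es n) := {y | (∀ i, |y i - v i| < 1 / 2) ∧ 0 < (sg s : ℝ) * (y i0 - v i0)}
  have hUo : IsOpen U := by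
    have h1 : IsOpen {y : Es n | ∀ i, |y i - v i| < 1 / 2} := by
      have : {y : Es n | ∀ i, |y i - v i| < 1 / 2} = ⋂ i, {y : Es n | |y i - v i| < 1 / 2} := by
        ext y; simp
      rw [this]
      exact isOpen_iInter_of_finite fun i =>
        isOpen_lt (((A3_coord i).sub continuous_const).abs) continuous_const
    have h2 : IsOpen {y : Es n | 0 < (sg s : ℝ) * (y i0 - v i0)} :=
      isOpen_lt continuous_const (continuous_const.mul ((A3_coord i0).sub continuous_const))
    exact h1.inter h2
  have hxcl : x ∈ closure (h '' ocube c) := by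
    have h3 : h '' closure (ocube c) = closure (h '' ocube c) :=
      h.toHomeomorph.image_closure (ocube c)
    rw [← h3, hcl]
    exact hx
  obtain ⟨y, hyU, hy⟩ := mem_closure_iff.1 hxcl U hUo ⟨hxv, hcon⟩
  have ho : IsOpen (h '' ocube c) := h.toHomeomorph.isOpenMap _ hopen
  have hsub' : ocube c ⊆ real B := fun z hz => ⟨c, hc, hsub hz⟩
  have hy1 : y ∈ interior (h '' real B) :=
    interior_maximal (Set.image_mono hsub') ho hy
  have hy2 : y ∈ interior (real A) :=
    interior_maximal (fun z hz => A3_sub hv hA hz.1 hz.2) hUo hyU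
  exact (Set.disjoint_left.1 hdis hy2) hy1

end Pool.Agent.SM
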