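import Pool.Agent.Lib.MP_288534_co.Stm

set_option autoImplicit false

open Filter Topology

namespace Pool.Agent.SM

private lemma A4_coord (s : Bool) (k : ℕ) (a : ℝ) :
    |(a + (sg s : ℝ) / 2 - (sg s : ℝ) / (k + 2)) - a| < 1 / 2 := by
  have hk : (0 : ℝ) < (k : ℝ) + 2 := by positivity
  have h1 : (0 : ℝ) < 1 / ((k : ℝ) + 2) := by positivity
  have h2 : 1 / ((k : ℝ) + 2) ≤ 1 / 2 := by
    apply one_div_le_one_div_of_le (by norm_num)
    have : (0 : ℝ) ≤ k := Nat.cast_nonneg k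
    linarith
  have h3 : (a + (sg s : ℝ) / 2 - (sg s : ℝ) / (k + 2)) - a
      = (sg s : ℝ) * (1 / 2 - 1 / ((k : ℝ) + 2)) := by ring
  rw [h3, abs_mul]
  have h4 : |(sg s : ℝ)| = 1 := by
    unfold sg; cases s <;> simp
  rw [h4, one_mul, abs_lt]
  constructor <;> linarith

theorem pf_A4 (hR2 : S_R2) (hR3 : S_R3) (hR4 : S_R4) (hA5 : S_A5) : S_A4 := by
  intro n A W q s v hA hne hT hq hv
  let x : ℕ → Es n := fun k => WithLp.toLp 2 (fun i => (q i : ℝ) + (sg s : ℝ) / 2 - (sg s : ℝ) / (k + 2))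
  have hx : ∀ k, x k ∈ ocube q := fun k i => A4_coord s k _
  have hlim : Tendsto x atTop (𝓝 v) := by
    have h1 : Tendsto (fun k : ℕ => (fun i : Dx n => (q i : ℝ) + (sg s : ℝ) / 2 - (sg s : ℝ) / (k + 2)))
        atTop (𝓝 (fun i => v i)) := by
      rw [tendsto_pi_nhds]
      intro i
      rw [hv i]
      have h2 : Tendsto (fun k : ℕ => (sg s : ℝ) / ((k : ℝ) + 2)) atTop (𝓝 0) := by
        apply Tendsto.div_atTop tendsto_const_nhds
        exact tendsto_atTop_add_const_right _ _ tendsto_natCast_atTop_atTop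
      have h3 := (tendsto_const_nhds (x := (q i : ℝ) + (sg s : ℝ) / 2)).sub h2
      rw [sub_zero] at h3
      exact h3
    have h4 := ((PiLp.continuous_toLp 2 (fun _ : Dx n => ℝ)).tendsto (fun i => v i)).comp h1
    exact h4
  obtain ⟨R, hR⟩ := (hR4 n q).2.2.2.1.isBounded.subset_closedBall (0 : Es n)
  have hxR : ∀ k, x k ∈ Metric.closedBall (0 : Es n) R := fun k => hR ((hR4 n q).2.2.1 (hx k))
  have hG : ∀ k, ∃ G, G ∈ W ∧ x k ∈ G := by
    intro k
    have : x k ∈ ⋃₀ W := by rw [hT.2.1]; trivial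
    obtain ⟨G, hGW, hxG⟩ := this
    exact ⟨G, hGW, hxG⟩
  choose G hGW hxG using hG
  have hfin := hA5 n A W hA hne hT R
  haveI : Finite {G | G ∈ W ∧ (G ∩ Metric.closedBall (0 : Es n) R).Nonempty} := hfin
  obtain ⟨⟨G0, hG0⟩, hinf⟩ := Finite.exists_infinite_fiber
    (fun k : ℕ => (⟨G k, hGW k, x k, hxG k, hxR k⟩ :
      {G | G ∈ W ∧ (G ∩ Metric.closedBall (0 : Es n) R).Nonempty}))
  have hinf' : {k : ℕ | G k = G0}.Infinite := by
    have h1 := Set.infinite_coe_iff.1 hinf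
    refine h1.mono ?_
    intro k hk
    have h2 := congrArg Subtype.val (show _ = _ from hk)
    exact h2
  refine ⟨G0, hG0.1, ?_, ?_⟩
  · intro h
    obtain ⟨k, hk⟩ := hinf'.nonempty
    have h1 : x k ∈ real A := by rw [← h, ← (show G k = G0 from hk)]; exact hxG k
    obtain ⟨p, hp, hxp⟩ := h1
    exact hq (hR2 n q p (x k) (hx k) hxp ▸ hp)
  · intro h hh
    have hcl : IsClosed G0 := by
      rw [hh]
      exact h.toHomeomorph.isClosedMap _ (hR3 n A)
    have hfreq : ∃ᶠ k in atTop, x k ∈ G0 := by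
      refine (Nat.frequently_atTop_iff_infinite.2 hinf').mono ?_
      intro k hk
      rw [← hk]
      exact hxG k
    have hvG : v ∈ G0 := by
      have := mem_closure_of_frequently_of_tendsto hfreq hlim
      rwa [hcl.closure_eq] at this
    rw [hh] at hvG
    obtain ⟨y, ⟨c, hc, hy⟩, hyv⟩ := hvG
    exact ⟨c, hc, y, hy, hyv⟩

end Pool.Agent.SM
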