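import Pool.Agent.Lib.MP_288534_co.Stm

set_option autoImplicit false

namespace Pool.Agent.SM

/-- centre of a cell -/
private noncomputable def A5_ctr {n : ℕ} (p : Zc n) : Es n := WithLp.toLp 2 (fun i => (p i : ℝ))

private lemma A5_ball {n : ℕ} (p : Zc n) : Metric.ball (A5_ctr p) (1 / 2) ⊆ ocube p := by
  intro x hx i
  have h1 : |x i - A5_ctr p i| ≤ ‖x - A5_ctr p‖ := by
    have := PiLp.norm_apply_le (x - A5_ctr p) i
    simpa [Real.norm_eq_abs] using this
  have h2 : ‖x - A5_ctr p‖ < 1 / 2 := by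
    rw [← dist_eq_norm]; exact hx
  have h3 : A5_ctr p i = (p i : ℝ) := rfl
  rw [h3] at h1
  exact lt_of_le_of_lt h1 h2

theorem pf_A5 (hR4 : S_R4) (hR7 : S_R7) : S_A5 := by
  intro n A W hA hne hT R
  obtain ⟨p, hp⟩ := hne
  set m : Es n := A5_ctr p with hm
  obtain ⟨D, hD⟩ := (hR7 n A hA).isBounded.subset_closedBall m
  have hWh : ∀ G : Set (Es n), ∃ h : Es n ≃ᵢ Es n, G ∈ W → G = h '' real A := by
    intro G
    by_cases hG : G ∈ W
    · obtain ⟨h, hh⟩ := hT.1 G hG
      exact ⟨h, fun _ => hh⟩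
    · exact ⟨IsometryEquiv.refl _, fun h => absurd h hG⟩
  choose h hh using hWh
  have hballA : Metric.ball m (1 / 2) ⊆ real A := fun x hx =>
    ⟨p, hp, (hR4 n p).2.2.1 (A5_ball p hx)⟩
  have hint : ∀ G ∈ W, Metric.ball (h G m) (1 / 2) ⊆ interior G := by
    intro G hG
    apply interior_maximal _ Metric.isOpen_ball
    rw [← IsometryEquiv.image_ball]
    have h1 : G = h G '' real A := hh G hG
    calc h G '' Metric.ball m (1 / 2) ⊆ h G '' real A := Set.image_mono hballA
      _ = G := h1.symm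
  have hsep : ∀ G ∈ W, ∀ G' ∈ W, G ≠ G' → 1 ≤ dist (h G m) (h G' m) := by
    intro G hG G' hG' hne
    by_contra hlt
    push Not at hlt
    have hd := hT.2.2 G hG G' hG' hne
    rw [Set.disjoint_left] at hd
    apply hd (a := midpoint ℝ (h G m) (h G' m))
    · apply hint G hG
      rw [Metric.mem_ball, dist_midpoint_left]
      rw [Real.norm_eq_abs, abs_of_pos (by norm_num : (0:ℝ) < 2)]
      linarith
    · apply hint G' hG'
      rw [Metric.mem_ball, dist_midpoint_right]
      rw [Real.norm_eq_abs, abs_of_pos (by norm_num : (0:ℝ) < 2)]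
      linarith
  set F : Set (Set (Es n)) := {G | G ∈ W ∧ (G ∩ Metric.closedBall 0 R).Nonempty} with hF
  have hin : ∀ G ∈ F, h G m ∈ Metric.closedBall (0 : Es n) (R + D) := by
    rintro G ⟨hG, x, hxG, hx0⟩
    rw [hh G hG] at hxG
    obtain ⟨y, hy, rfl⟩ := hxG
    have h1 : dist (h G m) (h G y) ≤ D := by
      rw [(h G).dist_eq, dist_comm]
      exact hD hy
    have h2 : dist (h G y) 0 ≤ R := hx0
    rw [Metric.mem_closedBall]
    calc dist (h G m) 0 ≤ dist (h G m) (h G y) + dist (h G y) 0 := dist_triangle _ _ _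
      _ ≤ R + D := by linarith
  obtain ⟨t, -, htf, htc⟩ := (isCompact_closedBall (0 : Es n) (R + D)).finite_cover_balls
    (e := 1 / 2) (by norm_num)
  have hch : ∀ G : Set (Es n), ∃ x : Es n, G ∈ F → x ∈ t ∧ h G m ∈ Metric.ball x (1 / 2) := by
    intro G
    by_cases hG : G ∈ F
    · have := htc (hin G hG)
      simp only [Set.mem_iUnion, exists_prop] at this
      obtain ⟨x, hx, hx'⟩ := this
      exact ⟨x, fun _ => ⟨hx, hx'⟩⟩
    · exact ⟨0, fun h => absurd h hG⟩
  choose c hc using hch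
  refine Set.Finite.of_injOn (f := c) (t := t) (fun G hG => (hc G hG).1) ?_ htf
  intro G hG G' hG' hcc
  by_contra hne
  have h1 := hsep G hG.1 G' hG'.1 hne
  have h2 := (hc G hG).2
  have h3 := (hc G' hG').2
  rw [← hcc] at h3
  rw [Metric.mem_ball] at h2 h3
  have h4 := dist_triangle_right (h G m) (h G' m) (c G)
  linarith

end Pool.Agent.SM
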