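import Pool.Agent.Lib.MP_288534_co.Stm

set_option autoImplicit false

namespace Pool.Agent.SM

theorem pf_A6 (hR6 : S_R6) (hR10b : S_R10b) (hA2 : S_A2) (hA3 : S_A3) (hA4 : S_A4) : S_A6 := by
  intro n A W q s hfin hT hAW hq hδ
  have hAne : A.Nonempty := by
    refine ⟨_, hδ (fun _ => 1) (fun _ => Or.inr rfl) ?_⟩
    intro h
    have := congrFun h (ax n)
    simp at this
  set v : Es n := WithLp.toLp 2 (fun i => (q i : ℝ) + (sg s : ℝ) / 2) with hvdef
  have hv : ∀ i, v i = q i + (sg s : ℝ) / 2 := fun i => rfl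
  obtain ⟨G, hG, hne, hGc⟩ := hA4 n A W q s v hfin hAne hT hq hv
  refine ⟨G, hG, fun h hGh => ?_⟩
  obtain ⟨c, hc, hvc⟩ := hGc h hGh
  have disj : Disjoint (interior G) (interior (real A)) := hT.2.2 G hG (real A) hAW hne
  have loc := hA3 n A A q c s v h hv hδ hc (by rw [← hGh]; exact disj.symm)
  obtain ⟨g, hg, hgc⟩ := hA2 n h c q s v hv hvc ⟨1 / 2, by norm_num, fun x hx hxi => loc x hx hxi⟩
  refine ⟨g, hg, ⟨c, hc, hgc⟩, (hR6 n _ _).1 ?_⟩
  rw [← hR10b n g h A hg, ← hGh]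
  exact disj

end Pool.Agent.SM
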