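import Pool.Agent.Lib.MP_288534_co.Stm

set_option autoImplicit false

open scoped Topology Pointwise

namespace Pool.Agent.SM

/-- Gluing lemma. -/
theorem B1_glue {E : Type*} [TopologicalSpace E] (X B W : Set E) (hX : IsClosed X)
    (hB : IsClosed B) (hW : IsClosed W) (hWB : W ⊆ B) (hXB : X ∩ B = W) (ρ : E ≃ₜ E)
    (h1 : ρ '' B = W) (h2 : ∀ x ∈ W, x ∈ frontier B → ρ x = x) :
    Nonempty (↥(X ∪ B) ≃ₜ ↥X) := by
  classical
  have hWX : W ⊆ X := by
    rw [← hXB]
    exact Set.inter_subset_left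
  set Y : Set E := X \ interior B with hYdef
  have hY : IsClosed Y := hX.sdiff isOpen_interior
  have hYB : ∀ x ∈ Y, x ∈ B → ρ x = x := by
    intro x hx hxB
    refine h2 x (by rw [← hXB]; exact ⟨hx.1, hxB⟩) ?_
    rw [frontier, hB.closure_eq]
    exact ⟨hxB, hx.2⟩
  have hρB : ∀ x ∈ B, ρ x ∈ W := fun x hx => by rw [← h1]; exact ⟨x, hx, rfl⟩
  have hρW : ∀ y ∈ W, ρ.symm y ∈ B := by
    intro y hy
    rw [← h1] at hy
    obtain ⟨x, hx, rfl⟩ := hy
    simpa using hx
  have hu1 : X ∪ B = Y ∪ B := by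
    ext x
    simp only [Set.mem_union, hYdef, Set.mem_sdiff]
    constructor
    · rintro (h | h)
      · by_cases hb : x ∈ interior B
        · exact Or.inr (interior_subset hb)
        · exact Or.inl ⟨h, hb⟩
      · exact Or.inr h
    · rintro (h | h)
      · exact Or.inl h.1
      · exact Or.inr h
  have hu2 : X = Y ∪ W := by
    ext x
    simp only [Set.mem_union, hYdef, Set.mem_sdiff]
    constructor
    · intro h
      by_cases hb : x ∈ interior B
      · right
        rw [← hXB]
        exact ⟨h, interior_subset hb⟩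
      · exact Or.inl ⟨h, hb⟩
    · rintro (h | h)
      · exact h.1
      · exact hWX h
  let F : E → E := fun x => if x ∈ B then ρ x else x
  let G : E → E := fun x => if x ∈ W then ρ.symm x else x
  have hF : ContinuousOn F (X ∪ B) := by
    rw [hu1]
    refine ContinuousOn.union_of_isClosed ?_ ?_ hY hB
    · refine continuousOn_id.congr fun x hx => ?_
      by_cases hb : x ∈ B
      · simp [F, hb, hYB x hx hb]
      · simp [F, hb]
    · refine ρ.continuous.continuousOn.congr fun x hx => ?_
      simp [F, hx]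
  have hG : ContinuousOn G X := by
    have : ContinuousOn G (Y ∪ W) := by
      refine ContinuousOn.union_of_isClosed ?_ ?_ hY hW
      · refine continuousOn_id.congr fun x hx => ?_
        by_cases hb : x ∈ W
        · have := hYB x hx (hWB hb)
          simp only [G, hb, if_true, id]
          rw [Homeomorph.symm_apply_eq]
          exact this.symm
        · simp [G, hb]
      · refine ρ.symm.continuous.continuousOn.congr fun x hx => ?_
        simp [G, hx]
    rwa [← hu2] at this
  have hFm : ∀ x ∈ X ∪ B, F x ∈ X := by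
    rintro x hx
    by_cases hb : x ∈ B
    · simp only [F, hb, if_true]
      exact hWX (hρB x hb)
    · simp only [F, hb, if_false]
      exact hx.resolve_right hb
  have hGm : ∀ x ∈ X, G x ∈ X ∪ B := by
    rintro x hx
    by_cases hb : x ∈ W
    · simp only [G, hb, if_true]
      exact Or.inr (hρW x hb)
    · simp only [G, hb, if_false]
      exact Or.inl hx
  refine ⟨⟨⟨fun x => ⟨F x, hFm x x.2⟩, fun y => ⟨G y, hGm y y.2⟩, ?_, ?_⟩, ?_, ?_⟩⟩
  · rintro ⟨x, hx⟩
    apply Subtype.ext
    show G (F x) = x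
    by_cases hb : x ∈ B
    · simp [F, G, hb, hρB x hb]
    · have hw : x ∉ W := fun h => hb (hWB h)
      simp [F, G, hb, hw]
  · rintro ⟨y, hy⟩
    apply Subtype.ext
    show F (G y) = y
    by_cases hw : y ∈ W
    · simp [F, G, hw, hρW y hw]
    · have hb : y ∉ B := fun h => hw (by rw [← hXB]; exact ⟨hy, h⟩)
      simp [F, G, hb, hw]
  · exact Continuous.subtype_mk (continuousOn_iff_continuous_domRestrict.1 hF) _
  · exact Continuous.subtype_mk (continuousOn_iff_continuous_domRestrict.1 hG) _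

/-- The rescaling homeomorphism. -/
theorem B1_rho {d : ℕ} (B W : Set (EuclideanSpace ℝ (Fin d))) (hB : IsCompact B)
    (hW : IsCompact W) (hBc : Convex ℝ B) (hWc : Convex ℝ W) (hWB : W ⊆ B)
    (hne : (interior W).Nonempty) :
    ∃ ρ : EuclideanSpace ℝ (Fin d) ≃ₜ EuclideanSpace ℝ (Fin d),
      ρ '' B = W ∧ ∀ x ∈ W, x ∈ frontier B → ρ x = x := by
  obtain ⟨o, ho⟩ := hne
  have hoB : o ∈ interior B := interior_mono hWB ho
  set B' : Set (EuclideanSpace ℝ (Fin d)) := -o +ᵥ B with hB'
  set W' : Set (EuclideanSpace ℝ (Fin d)) := -o +ᵥ W with hW'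
  have hBc' : Convex ℝ B' := hBc.vadd _
  have hWc' : Convex ℝ W' := hWc.vadd _
  have hB0 : B' ∈ 𝓝 0 := by
    rw [← mem_interior_iff_mem_nhds, hB', interior_vadd, Set.mem_vadd_set_iff_neg_vadd_mem]
    simpa using hoB
  have hW0 : W' ∈ 𝓝 0 := by
    rw [← mem_interior_iff_mem_nhds, hW', interior_vadd, Set.mem_vadd_set_iff_neg_vadd_mem]
    simpa using ho
  have hBk : IsCompact B' := hB.vadd _
  have hWk : IsCompact W' := hW.vadd _
  have hBb := NormedSpace.isVonNBounded_of_isBounded ℝ hBk.isBounded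
  have hWb := NormedSpace.isVonNBounded_of_isBounded ℝ hWk.isBounded
  let h := gaugeRescaleHomeomorph B' W' hBc' hB0 hBb hWc' hW0 hWb
  have himg : h '' B' = W' := by
    have := image_gaugeRescaleHomeomorph_closure hBc' hB0 hBb hWc' hW0 hWb
    rwa [hBk.isClosed.closure_eq, hWk.isClosed.closure_eq] at this
  refine ⟨(Homeomorph.addLeft (-o)).trans (h.trans (Homeomorph.addLeft o)), ?_, ?_⟩
  · have e1 : (((Homeomorph.addLeft (-o)).trans (h.trans (Homeomorph.addLeft o))) :
        EuclideanSpace ℝ (Fin d) → EuclideanSpace ℝ (Fin d)) =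
        fun x => o + h (-o + x) := rfl
    rw [e1]
    have e2 : (fun x => o + h (-o + x)) '' B = o +ᵥ (h '' B') := by
      rw [hB', ← Set.image_vadd, ← Set.image_vadd, Set.image_image, Set.image_image]
      rfl
    rw [e2, himg, hW', vadd_vadd]
    simp
  · intro x hxW hxB
    show o + h (-o + x) = x
    have hx1 : -o + x ∈ W' := ⟨x, hxW, rfl⟩
    have hx2 : -o + x ∈ frontier B' := by
      have hfr := (Homeomorph.addLeft (-o)).image_frontier B
      have e3 : (Homeomorph.addLeft (-o)) '' B = B' := rfl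
      rw [e3] at hfr
      rw [← hfr]
      exact ⟨x, hxB, rfl⟩
    have g1 : gauge B' (-o + x) = 1 := (gauge_eq_one_iff_mem_frontier hBc' hB0).2 hx2
    have g2 : gauge W' (-o + x) ≤ 1 := gauge_le_one_of_mem hx1
    have g3 : gauge B' (-o + x) ≤ gauge W' (-o + x) :=
      gauge_mono (absorbent_nhds_zero hW0) (Set.vadd_set_mono hWB) _
    have g4 : gauge W' (-o + x) = 1 := le_antisymm g2 (g1 ▸ g3)
    have : h (-o + x) = -o + x := by
      show gaugeRescale B' W' (-o + x) = -o + x
      rw [gaugeRescale_def, g1, g4]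
      simp
    rw [this]
    simp

theorem pf_B1 : S_B1 := by
  intro d X B W hX hB hW hBc hWc hWB hne hXB
  obtain ⟨ρ, h1, h2⟩ := B1_rho B W hB hW hBc hWc hWB hne
  exact B1_glue X B W hX hB.isClosed hW.isClosed hWB hXB ρ h1 h2

end Pool.Agent.SM
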