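import Pool.Agent.Lib.MP_288534_co.Stm

set_option autoImplicit false

namespace Pool.Agent.SM

private lemma B10_notSol (hD1 : S_D1) (hK8a : S_K8a) {n : ℕ} (κ : Key n) (p : Zc n)
    (hp : InMega (fun c => κ.base c + κ.v c) p) : p ∉ Sol n := by
  rintro ⟨c, hc, hcp⟩
  have := (hD1 n p).unique hcp hp
  exact (hK8a n κ).2.1 (this ▸ hc)

theorem pf_B10 (hB8 : S_B8) (hD0 : S_D0) (hD1 : S_D1) (hD2 : S_D2) (hK8a : S_K8a)
    (hK8b : S_K8b) (hK9 : S_K9) : S_B10 := by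
  classical
  intro n
  haveI := (hD0 n).1
  haveI : Fintype (Key n) := Fintype.ofFinite _
  have key : ∀ F : Finset (Key n), ∃ Φ : Es n ≃ₜ Es n,
      Φ '' real ((Sol n \ Tuns n) ∪ {p | ∃ κ ∈ F, ∃ j ≤ κ.len, p = κ.tail j})
        = real (Sol n \ Tuns n) := by
    intro F
    induction F using Finset.induction_on with
    | empty =>
      refine ⟨Homeomorph.refl _, ?_⟩
      have : {p : Zc n | ∃ κ ∈ (∅ : Finset (Key n)), ∃ j ≤ κ.len, p = κ.tail j} = ∅ := by
        ext p; simp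
      rw [this, Set.union_empty]
      simp
    | insert κ F hκ ih =>
      obtain ⟨Φ, hΦ⟩ := ih
      set A : Set (Zc n) := (Sol n \ Tuns n) ∪ {p | ∃ κ ∈ F, ∃ j ≤ κ.len, p = κ.tail j} with hA
      have hout : ∀ p, InMega (fun c => κ.base c + κ.v c) p → p ∉ A := by
        intro p hp hpA
        rcases hpA with hpA | ⟨κ', hκ', j, hj, rfl⟩
        · exact B10_notSol hD1 hK8a κ p hp hpA.1
        · have h1 := (hD2 n κ' j hj).2
          have h2 := (hD1 n _).unique h1 hp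
          have h3 : κ' = κ := (hK8b n κ' κ).2 (fun c => congrFun h2 c)
          exact hκ (h3 ▸ hκ')
      obtain ⟨Ψ, hΨ⟩ := hB8 n A κ (fun j hj => hout _ (hD2 n κ j hj).2)
        (Or.inl (hK9 n κ)) (fun j hj p _ hp => hout p hp)
      refine ⟨Ψ.trans Φ, ?_⟩
      have hset : (Sol n \ Tuns n) ∪ {p | ∃ κ' ∈ insert κ F, ∃ j ≤ κ'.len, p = κ'.tail j}
          = A ∪ {p | ∃ j ≤ κ.len, p = κ.tail j} := by
        ext p
        simp only [hA, Set.mem_union, Set.mem_setOf_eq, Finset.mem_insert]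
        constructor
        · rintro (h | ⟨κ', rfl | h, hj⟩)
          · exact Or.inl (Or.inl h)
          · exact Or.inr hj
          · exact Or.inl (Or.inr ⟨κ', h, hj⟩)
        · rintro ((h | ⟨κ', h, hj⟩) | hj)
          · exact Or.inl h
          · exact Or.inr ⟨κ', Or.inr h, hj⟩
          · exact Or.inr ⟨κ, Or.inl rfl, hj⟩
      have hc : ⇑(Ψ.trans Φ) = Φ ∘ Ψ := rfl
      rw [hset, hc, Set.image_comp, hΨ, hΦ]
  obtain ⟨Φ, hΦ⟩ := key Finset.univ
  refine ⟨Φ, ?_⟩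
  have : SS n = (Sol n \ Tuns n) ∪ {p | ∃ κ ∈ (Finset.univ : Finset (Key n)), ∃ j ≤ κ.len, p = κ.tail j} := by
    ext p
    simp [SS, Tails]
  rw [this]
  exact hΦ

end Pool.Agent.SM
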