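import Pool.Agent.Lib.MP_288534_co.Stm

set_option autoImplicit false

namespace Pool.Agent.SM

theorem pf_B2 : S_B2 := by
  intro d B hB hc hne
  obtain ⟨h, -, h2, -⟩ :=
    exists_homeomorph_image_interior_closure_frontier_eq_unitBall hc hne hB.isBounded
  rw [hB.isClosed.closure_eq] at h2
  exact ⟨(h.image B).trans (Homeomorph.setCongr h2)⟩

end Pool.Agent.SM
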