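import Pool.Agent.Lib.MP_288534_co.Stm

set_option autoImplicit false

open scoped Topology

namespace Pool.Agent.SM

/-- One attachment step. -/
theorem B3_step (h1 : S_B1) (n : ℕ) (X Z Q B W : Set (Es n)) (hX : IsClosed X) (hZ : Z ⊆ X)
    (hB : IsCompact B ∧ Convex ℝ B ∧ (interior B).Nonempty)
    (hW : IsCompact W ∧ Convex ℝ W ∧ (interior W).Nonempty) (hWZ : W ⊆ Z) (hWB : W ⊆ B)
    (hQB : Q ⊆ B) (hBZQ : B ⊆ Z ∪ Q) (hint : X ∩ B ⊆ W) : Nonempty (↥(X ∪ Q) ≃ₜ ↥X) := by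
  have hu : X ∪ B = X ∪ Q := by
    apply Set.Subset.antisymm
    · refine Set.union_subset Set.subset_union_left (hBZQ.trans ?_)
      exact Set.union_subset_union_left _ hZ
    · exact Set.union_subset_union_right _ hQB
  have hi : X ∩ B = W :=
    Set.Subset.antisymm hint (Set.subset_inter (hWZ.trans hZ) hWB)
  have := h1 (n + 3) X B W hX hB.1 hW.1 hB.2.1 hW.2.1 hWB hW.2.2 hi
  rwa [hu] at this

/-- Inclusion of boxes. -/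
theorem B3_sub (n : ℕ) (x0 x1 y0 y1 z0 z1 x0' x1' y0' y1' z0' z1' : ℤ) (hx : x0' ≤ x0)
    (hx' : x1 ≤ x1') (hy : y0' ≤ y0) (hy' : y1 ≤ y1') (hz : z0' ≤ z0) (hz' : z1 ≤ z1') :
    bx n x0 x1 y0 y1 z0 z1 ⊆ bx n x0' x1' y0' y1' z0' z1' := by
  rintro x ⟨a1, a2, a3, a4, a5, a6, a7⟩
  have e1 : (x0' : ℝ) ≤ x0 := by exact_mod_cast hx
  have e2 : (x1 : ℝ) ≤ x1' := by exact_mod_cast hx'
  have e3 : (y0' : ℝ) ≤ y0 := by exact_mod_cast hy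
  have e4 : (y1 : ℝ) ≤ y1' := by exact_mod_cast hy'
  have e5 : (z0' : ℝ) ≤ z0 := by exact_mod_cast hz
  have e6 : (z1 : ℝ) ≤ z1' := by exact_mod_cast hz'
  exact ⟨by linarith, by linarith, by linarith, by linarith, by linarith, by linarith, a7⟩

private theorem B3_s1 (h1 : S_B1) (h3 : S_B3a) (n : ℕ)
    (hX : IsClosed (bx n 0 5 0 0 0 1)) :
    Nonempty (↥((bx n 0 5 0 0 0 1) ∪ bx n 0 0 1 4 0 1) ≃ₜ
      ↥(bx n 0 5 0 0 0 1)) := by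
  refine B3_step h1 n _ (bx n 0 5 0 0 0 1) (bx n 0 0 1 4 0 1) (bx n 0 0 0 4 0 1) (bx n 0 0 0 0 0 1) hX
    (fun _ h => h)
    (h3 n _ _ _ _ _ _ (by norm_num) (by norm_num) (by norm_num))
    (h3 n _ _ _ _ _ _ (by norm_num) (by norm_num) (by norm_num))
    (B3_sub _ _ _ _ _ _ _ _ _ _ _ _ _ (by norm_num) (by norm_num) (by norm_num) (by norm_num) (by norm_num) (by norm_num))
    (B3_sub _ _ _ _ _ _ _ _ _ _ _ _ _ (by norm_num) (by norm_num) (by norm_num) (by norm_num) (by norm_num) (by norm_num))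
    (B3_sub _ _ _ _ _ _ _ _ _ _ _ _ _ (by norm_num) (by norm_num) (by norm_num) (by norm_num) (by norm_num) (by norm_num))
    ?_ ?_
  · rintro x ⟨a1, a2, a3, a4, a5, a6, a7⟩
    push_cast at a1 a2 a3 a4 a5 a6
    rcases le_total (x (ay n)) (1 / 2) with h | h
    · left
      refine ⟨?_, ?_, ?_, ?_, ?_, ?_, a7⟩ <;> push_cast <;> linarith
    · right
      refine ⟨?_, ?_, ?_, ?_, ?_, ?_, a7⟩ <;> push_cast <;> linarith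
  · rintro x ⟨⟨b1, b2, b3, b4, b5, b6, b7⟩, ⟨a1, a2, a3, a4, a5, a6, a7⟩⟩ <;>
    push_cast at a1 a2 a3 a4 a5 a6 b1 b2 b3 b4 b5 b6 <;>
    refine ⟨?_, ?_, ?_, ?_, ?_, ?_, a7⟩ <;> push_cast <;> linarith

private theorem B3_s2 (h1 : S_B1) (h3 : S_B3a) (n : ℕ)
    (hX : IsClosed (bx n 0 5 0 0 0 1 ∪ bx n 0 0 1 4 0 1)) :
    Nonempty (↥((bx n 0 5 0 0 0 1 ∪ bx n 0 0 1 4 0 1) ∪ bx n 2 2 1 4 0 1) ≃ₜ
      ↥(bx n 0 5 0 0 0 1 ∪ bx n 0 0 1 4 0 1)) := by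
  refine B3_step h1 n _ (bx n 0 5 0 0 0 1) (bx n 2 2 1 4 0 1) (bx n 2 2 0 4 0 1) (bx n 2 2 0 0 0 1) hX
    (fun _ h => (Or.inl h))
    (h3 n _ _ _ _ _ _ (by norm_num) (by norm_num) (by norm_num))
    (h3 n _ _ _ _ _ _ (by norm_num) (by norm_num) (by norm_num))
    (B3_sub _ _ _ _ _ _ _ _ _ _ _ _ _ (by norm_num) (by norm_num) (by norm_num) (by norm_num) (by norm_num) (by norm_num))
    (B3_sub _ _ _ _ _ _ _ _ _ _ _ _ _ (by norm_num) (by norm_num) (by norm_num) (by norm_num) (by norm_num) (by norm_num))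
    (B3_sub _ _ _ _ _ _ _ _ _ _ _ _ _ (by norm_num) (by norm_num) (by norm_num) (by norm_num) (by norm_num) (by norm_num))
    ?_ ?_
  · rintro x ⟨a1, a2, a3, a4, a5, a6, a7⟩
    push_cast at a1 a2 a3 a4 a5 a6
    rcases le_total (x (ay n)) (1 / 2) with h | h
    · left
      refine ⟨?_, ?_, ?_, ?_, ?_, ?_, a7⟩ <;> push_cast <;> linarith
    · right
      refine ⟨?_, ?_, ?_, ?_, ?_, ?_, a7⟩ <;> push_cast <;> linarith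
  · rintro x ⟨(⟨b1, b2, b3, b4, b5, b6, b7⟩ | ⟨b1, b2, b3, b4, b5, b6, b7⟩), ⟨a1, a2, a3, a4, a5, a6, a7⟩⟩ <;>
    push_cast at a1 a2 a3 a4 a5 a6 b1 b2 b3 b4 b5 b6 <;>
    refine ⟨?_, ?_, ?_, ?_, ?_, ?_, a7⟩ <;> push_cast <;> linarith

private theorem B3_s3 (h1 : S_B1) (h3 : S_B3a) (n : ℕ)
    (hX : IsClosed (bx n 0 5 0 0 0 1 ∪ bx n 0 0 1 4 0 1 ∪ bx n 2 2 1 4 0 1)) :
    Nonempty (↥((bx n 0 5 0 0 0 1 ∪ bx n 0 0 1 4 0 1 ∪ bx n 2 2 1 4 0 1) ∪ bx n 4 4 1 4 0 1) ≃ₜ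
      ↥(bx n 0 5 0 0 0 1 ∪ bx n 0 0 1 4 0 1 ∪ bx n 2 2 1 4 0 1)) := by
  refine B3_step h1 n _ (bx n 0 5 0 0 0 1) (bx n 4 4 1 4 0 1) (bx n 4 4 0 4 0 1) (bx n 4 4 0 0 0 1) hX
    (fun _ h => (Or.inl (Or.inl h)))
    (h3 n _ _ _ _ _ _ (by norm_num) (by norm_num) (by norm_num))
    (h3 n _ _ _ _ _ _ (by norm_num) (by norm_num) (by norm_num))
    (B3_sub _ _ _ _ _ _ _ _ _ _ _ _ _ (by norm_num) (by norm_num) (by norm_num) (by norm_num) (by norm_num) (by norm_num))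
    (B3_sub _ _ _ _ _ _ _ _ _ _ _ _ _ (by norm_num) (by norm_num) (by norm_num) (by norm_num) (by norm_num) (by norm_num))
    (B3_sub _ _ _ _ _ _ _ _ _ _ _ _ _ (by norm_num) (by norm_num) (by norm_num) (by norm_num) (by norm_num) (by norm_num))
    ?_ ?_
  · rintro x ⟨a1, a2, a3, a4, a5, a6, a7⟩
    push_cast at a1 a2 a3 a4 a5 a6
    rcases le_total (x (ay n)) (1 / 2) with h | h
    · left
      refine ⟨?_, ?_, ?_, ?_, ?_, ?_, a7⟩ <;> push_cast <;> linarith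
    · right
      refine ⟨?_, ?_, ?_, ?_, ?_, ?_, a7⟩ <;> push_cast <;> linarith
  · rintro x ⟨((⟨b1, b2, b3, b4, b5, b6, b7⟩ | ⟨b1, b2, b3, b4, b5, b6, b7⟩) | ⟨b1, b2, b3, b4, b5, b6, b7⟩), ⟨a1, a2, a3, a4, a5, a6, a7⟩⟩ <;>
    push_cast at a1 a2 a3 a4 a5 a6 b1 b2 b3 b4 b5 b6 <;>
    refine ⟨?_, ?_, ?_, ?_, ?_, ?_, a7⟩ <;> push_cast <;> linarith

private theorem B3_s4 (h1 : S_B1) (h3 : S_B3a) (n : ℕ)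
    (hX : IsClosed (bx n 0 5 0 0 0 1 ∪ bx n 0 0 1 4 0 1 ∪ bx n 2 2 1 4 0 1 ∪ bx n 4 4 1 4 0 1)) :
    Nonempty (↥((bx n 0 5 0 0 0 1 ∪ bx n 0 0 1 4 0 1 ∪ bx n 2 2 1 4 0 1 ∪ bx n 4 4 1 4 0 1) ∪ bx n 1 1 0 0 2 9) ≃ₜ
      ↥(bx n 0 5 0 0 0 1 ∪ bx n 0 0 1 4 0 1 ∪ bx n 2 2 1 4 0 1 ∪ bx n 4 4 1 4 0 1)) := by
  refine B3_step h1 n _ (bx n 0 5 0 0 0 1) (bx n 1 1 0 0 2 9) (bx n 1 1 0 0 0 9) (bx n 1 1 0 0 0 1) hX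
    (fun _ h => (Or.inl (Or.inl (Or.inl h))))
    (h3 n _ _ _ _ _ _ (by norm_num) (by norm_num) (by norm_num))
    (h3 n _ _ _ _ _ _ (by norm_num) (by norm_num) (by norm_num))
    (B3_sub _ _ _ _ _ _ _ _ _ _ _ _ _ (by norm_num) (by norm_num) (by norm_num) (by norm_num) (by norm_num) (by norm_num))
    (B3_sub _ _ _ _ _ _ _ _ _ _ _ _ _ (by norm_num) (by norm_num) (by norm_num) (by norm_num) (by norm_num) (by norm_num))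
    (B3_sub _ _ _ _ _ _ _ _ _ _ _ _ _ (by norm_num) (by norm_num) (by norm_num) (by norm_num) (by norm_num) (by norm_num))
    ?_ ?_
  · rintro x ⟨a1, a2, a3, a4, a5, a6, a7⟩
    push_cast at a1 a2 a3 a4 a5 a6
    rcases le_total (x (az n)) (3 / 2) with h | h
    · left
      refine ⟨?_, ?_, ?_, ?_, ?_, ?_, a7⟩ <;> push_cast <;> linarith
    · right
      refine ⟨?_, ?_, ?_, ?_, ?_, ?_, a7⟩ <;> push_cast <;> linarith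
  · rintro x ⟨(((⟨b1, b2, b3, b4, b5, b6, b7⟩ | ⟨b1, b2, b3, b4, b5, b6, b7⟩) | ⟨b1, b2, b3, b4, b5, b6, b7⟩) | ⟨b1, b2, b3, b4, b5, b6, b7⟩), ⟨a1, a2, a3, a4, a5, a6, a7⟩⟩ <;>
    push_cast at a1 a2 a3 a4 a5 a6 b1 b2 b3 b4 b5 b6 <;>
    refine ⟨?_, ?_, ?_, ?_, ?_, ?_, a7⟩ <;> push_cast <;> linarith

private theorem B3_s5 (h1 : S_B1) (h3 : S_B3a) (n : ℕ)
    (hX : IsClosed (bx n 0 5 0 0 0 1 ∪ bx n 0 0 1 4 0 1 ∪ bx n 2 2 1 4 0 1 ∪ bx n 4 4 1 4 0 1 ∪ bx n 1 1 0 0 2 9)) :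
    Nonempty (↥((bx n 0 5 0 0 0 1 ∪ bx n 0 0 1 4 0 1 ∪ bx n 2 2 1 4 0 1 ∪ bx n 4 4 1 4 0 1 ∪ bx n 1 1 0 0 2 9) ∪ bx n 3 3 0 0 2 8) ≃ₜ
      ↥(bx n 0 5 0 0 0 1 ∪ bx n 0 0 1 4 0 1 ∪ bx n 2 2 1 4 0 1 ∪ bx n 4 4 1 4 0 1 ∪ bx n 1 1 0 0 2 9)) := by
  refine B3_step h1 n _ (bx n 0 5 0 0 0 1) (bx n 3 3 0 0 2 8) (bx n 3 3 0 0 0 8) (bx n 3 3 0 0 0 1) hX
    (fun _ h => (Or.inl (Or.inl (Or.inl (Or.inl h)))))
    (h3 n _ _ _ _ _ _ (by norm_num) (by norm_num) (by norm_num))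
    (h3 n _ _ _ _ _ _ (by norm_num) (by norm_num) (by norm_num))
    (B3_sub _ _ _ _ _ _ _ _ _ _ _ _ _ (by norm_num) (by norm_num) (by norm_num) (by norm_num) (by norm_num) (by norm_num))
    (B3_sub _ _ _ _ _ _ _ _ _ _ _ _ _ (by norm_num) (by norm_num) (by norm_num) (by norm_num) (by norm_num) (by norm_num))
    (B3_sub _ _ _ _ _ _ _ _ _ _ _ _ _ (by norm_num) (by norm_num) (by norm_num) (by norm_num) (by norm_num) (by norm_num))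
    ?_ ?_
  · rintro x ⟨a1, a2, a3, a4, a5, a6, a7⟩
    push_cast at a1 a2 a3 a4 a5 a6
    rcases le_total (x (az n)) (3 / 2) with h | h
    · left
      refine ⟨?_, ?_, ?_, ?_, ?_, ?_, a7⟩ <;> push_cast <;> linarith
    · right
      refine ⟨?_, ?_, ?_, ?_, ?_, ?_, a7⟩ <;> push_cast <;> linarith
  · rintro x ⟨((((⟨b1, b2, b3, b4, b5, b6, b7⟩ | ⟨b1, b2, b3, b4, b5, b6, b7⟩) | ⟨b1, b2, b3, b4, b5, b6, b7⟩) | ⟨b1, b2, b3, b4, b5, b6, b7⟩) | ⟨b1, b2, b3, b4, b5, b6, b7⟩), ⟨a1, a2, a3, a4, a5, a6, a7⟩⟩ <;>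
    push_cast at a1 a2 a3 a4 a5 a6 b1 b2 b3 b4 b5 b6 <;>
    refine ⟨?_, ?_, ?_, ?_, ?_, ?_, a7⟩ <;> push_cast <;> linarith

private theorem B3_s6 (h1 : S_B1) (h3 : S_B3a) (n : ℕ)
    (hX : IsClosed (bx n 0 5 0 0 0 1 ∪ bx n 0 0 1 4 0 1 ∪ bx n 2 2 1 4 0 1 ∪ bx n 4 4 1 4 0 1 ∪ bx n 1 1 0 0 2 9 ∪ bx n 3 3 0 0 2 8)) :
    Nonempty (↥((bx n 0 5 0 0 0 1 ∪ bx n 0 0 1 4 0 1 ∪ bx n 2 2 1 4 0 1 ∪ bx n 4 4 1 4 0 1 ∪ bx n 1 1 0 0 2 9 ∪ bx n 3 3 0 0 2 8) ∪ bx n 5 5 0 0 2 8) ≃ₜ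
      ↥(bx n 0 5 0 0 0 1 ∪ bx n 0 0 1 4 0 1 ∪ bx n 2 2 1 4 0 1 ∪ bx n 4 4 1 4 0 1 ∪ bx n 1 1 0 0 2 9 ∪ bx n 3 3 0 0 2 8)) := by
  refine B3_step h1 n _ (bx n 0 5 0 0 0 1) (bx n 5 5 0 0 2 8) (bx n 5 5 0 0 0 8) (bx n 5 5 0 0 0 1) hX
    (fun _ h => (Or.inl (Or.inl (Or.inl (Or.inl (Or.inl h))))))
    (h3 n _ _ _ _ _ _ (by norm_num) (by norm_num) (by norm_num))
    (h3 n _ _ _ _ _ _ (by norm_num) (by norm_num) (by norm_num))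
    (B3_sub _ _ _ _ _ _ _ _ _ _ _ _ _ (by norm_num) (by norm_num) (by norm_num) (by norm_num) (by norm_num) (by norm_num))
    (B3_sub _ _ _ _ _ _ _ _ _ _ _ _ _ (by norm_num) (by norm_num) (by norm_num) (by norm_num) (by norm_num) (by norm_num))
    (B3_sub _ _ _ _ _ _ _ _ _ _ _ _ _ (by norm_num) (by norm_num) (by norm_num) (by norm_num) (by norm_num) (by norm_num))
    ?_ ?_
  · rintro x ⟨a1, a2, a3, a4, a5, a6, a7⟩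
    push_cast at a1 a2 a3 a4 a5 a6
    rcases le_total (x (az n)) (3 / 2) with h | h
    · left
      refine ⟨?_, ?_, ?_, ?_, ?_, ?_, a7⟩ <;> push_cast <;> linarith
    · right
      refine ⟨?_, ?_, ?_, ?_, ?_, ?_, a7⟩ <;> push_cast <;> linarith
  · rintro x ⟨(((((⟨b1, b2, b3, b4, b5, b6, b7⟩ | ⟨b1, b2, b3, b4, b5, b6, b7⟩) | ⟨b1, b2, b3, b4, b5, b6, b7⟩) | ⟨b1, b2, b3, b4, b5, b6, b7⟩) | ⟨b1, b2, b3, b4, b5, b6, b7⟩) | ⟨b1, b2, b3, b4, b5, b6, b7⟩), ⟨a1, a2, a3, a4, a5, a6, a7⟩⟩ <;>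
    push_cast at a1 a2 a3 a4 a5 a6 b1 b2 b3 b4 b5 b6 <;>
    refine ⟨?_, ?_, ?_, ?_, ?_, ?_, a7⟩ <;> push_cast <;> linarith

private theorem B3_s7 (h1 : S_B1) (h3 : S_B3a) (n : ℕ)
    (hX : IsClosed (bx n 0 5 0 0 0 1 ∪ bx n 0 0 1 4 0 1 ∪ bx n 2 2 1 4 0 1 ∪ bx n 4 4 1 4 0 1 ∪ bx n 1 1 0 0 2 9 ∪ bx n 3 3 0 0 2 8 ∪ bx n 5 5 0 0 2 8)) :
    Nonempty (↥((bx n 0 5 0 0 0 1 ∪ bx n 0 0 1 4 0 1 ∪ bx n 2 2 1 4 0 1 ∪ bx n 4 4 1 4 0 1 ∪ bx n 1 1 0 0 2 9 ∪ bx n 3 3 0 0 2 8 ∪ bx n 5 5 0 0 2 8) ∪ bx n 1 1 1 1 3 3) ≃ₜ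
      ↥(bx n 0 5 0 0 0 1 ∪ bx n 0 0 1 4 0 1 ∪ bx n 2 2 1 4 0 1 ∪ bx n 4 4 1 4 0 1 ∪ bx n 1 1 0 0 2 9 ∪ bx n 3 3 0 0 2 8 ∪ bx n 5 5 0 0 2 8)) := by
  refine B3_step h1 n _ (bx n 1 1 0 0 2 9) (bx n 1 1 1 1 3 3) (bx n 1 1 0 1 3 3) (bx n 1 1 0 0 3 3) hX
    (fun _ h => (Or.inl (Or.inl (Or.inr h))))
    (h3 n _ _ _ _ _ _ (by norm_num) (by norm_num) (by norm_num))
    (h3 n _ _ _ _ _ _ (by norm_num) (by norm_num) (by norm_num))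
    (B3_sub _ _ _ _ _ _ _ _ _ _ _ _ _ (by norm_num) (by norm_num) (by norm_num) (by norm_num) (by norm_num) (by norm_num))
    (B3_sub _ _ _ _ _ _ _ _ _ _ _ _ _ (by norm_num) (by norm_num) (by norm_num) (by norm_num) (by norm_num) (by norm_num))
    (B3_sub _ _ _ _ _ _ _ _ _ _ _ _ _ (by norm_num) (by norm_num) (by norm_num) (by norm_num) (by norm_num) (by norm_num))
    ?_ ?_
  · rintro x ⟨a1, a2, a3, a4, a5, a6, a7⟩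
    push_cast at a1 a2 a3 a4 a5 a6
    rcases le_total (x (ay n)) (1 / 2) with h | h
    · left
      refine ⟨?_, ?_, ?_, ?_, ?_, ?_, a7⟩ <;> push_cast <;> linarith
    · right
      refine ⟨?_, ?_, ?_, ?_, ?_, ?_, a7⟩ <;> push_cast <;> linarith
  · rintro x ⟨((((((⟨b1, b2, b3, b4, b5, b6, b7⟩ | ⟨b1, b2, b3, b4, b5, b6, b7⟩) | ⟨b1, b2, b3, b4, b5, b6, b7⟩) | ⟨b1, b2, b3, b4, b5, b6, b7⟩) | ⟨b1, b2, b3, b4, b5, b6, b7⟩) | ⟨b1, b2, b3, b4, b5, b6, b7⟩) | ⟨b1, b2, b3, b4, b5, b6, b7⟩), ⟨a1, a2, a3, a4, a5, a6, a7⟩⟩ <;>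
    push_cast at a1 a2 a3 a4 a5 a6 b1 b2 b3 b4 b5 b6 <;>
    refine ⟨?_, ?_, ?_, ?_, ?_, ?_, a7⟩ <;> push_cast <;> linarith

private theorem B3_s8 (h1 : S_B1) (h3 : S_B3a) (n : ℕ)
    (hX : IsClosed (bx n 0 5 0 0 0 1 ∪ bx n 0 0 1 4 0 1 ∪ bx n 2 2 1 4 0 1 ∪ bx n 4 4 1 4 0 1 ∪ bx n 1 1 0 0 2 9 ∪ bx n 3 3 0 0 2 8 ∪ bx n 5 5 0 0 2 8 ∪ bx n 1 1 1 1 3 3)) :
    Nonempty (↥((bx n 0 5 0 0 0 1 ∪ bx n 0 0 1 4 0 1 ∪ bx n 2 2 1 4 0 1 ∪ bx n 4 4 1 4 0 1 ∪ bx n 1 1 0 0 2 9 ∪ bx n 3 3 0 0 2 8 ∪ bx n 5 5 0 0 2 8 ∪ bx n 1 1 1 1 3 3) ∪ bx n 5 5 3 3 1 1) ≃ₜ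
      ↥(bx n 0 5 0 0 0 1 ∪ bx n 0 0 1 4 0 1 ∪ bx n 2 2 1 4 0 1 ∪ bx n 4 4 1 4 0 1 ∪ bx n 1 1 0 0 2 9 ∪ bx n 3 3 0 0 2 8 ∪ bx n 5 5 0 0 2 8 ∪ bx n 1 1 1 1 3 3)) := by
  refine B3_step h1 n _ (bx n 4 4 1 4 0 1) (bx n 5 5 3 3 1 1) (bx n 4 5 3 3 1 1) (bx n 4 4 3 3 1 1) hX
    (fun _ h => (Or.inl (Or.inl (Or.inl (Or.inl (Or.inr h))))))
    (h3 n _ _ _ _ _ _ (by norm_num) (by norm_num) (by norm_num))
    (h3 n _ _ _ _ _ _ (by norm_num) (by norm_num) (by norm_num))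
    (B3_sub _ _ _ _ _ _ _ _ _ _ _ _ _ (by norm_num) (by norm_num) (by norm_num) (by norm_num) (by norm_num) (by norm_num))
    (B3_sub _ _ _ _ _ _ _ _ _ _ _ _ _ (by norm_num) (by norm_num) (by norm_num) (by norm_num) (by norm_num) (by norm_num))
    (B3_sub _ _ _ _ _ _ _ _ _ _ _ _ _ (by norm_num) (by norm_num) (by norm_num) (by norm_num) (by norm_num) (by norm_num))
    ?_ ?_
  · rintro x ⟨a1, a2, a3, a4, a5, a6, a7⟩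
    push_cast at a1 a2 a3 a4 a5 a6
    rcases le_total (x (ax n)) (9 / 2) with h | h
    · left
      refine ⟨?_, ?_, ?_, ?_, ?_, ?_, a7⟩ <;> push_cast <;> linarith
    · right
      refine ⟨?_, ?_, ?_, ?_, ?_, ?_, a7⟩ <;> push_cast <;> linarith
  · rintro x ⟨(((((((⟨b1, b2, b3, b4, b5, b6, b7⟩ | ⟨b1, b2, b3, b4, b5, b6, b7⟩) | ⟨b1, b2, b3, b4, b5, b6, b7⟩) | ⟨b1, b2, b3, b4, b5, b6, b7⟩) | ⟨b1, b2, b3, b4, b5, b6, b7⟩) | ⟨b1, b2, b3, b4, b5, b6, b7⟩) | ⟨b1, b2, b3, b4, b5, b6, b7⟩) | ⟨b1, b2, b3, b4, b5, b6, b7⟩), ⟨a1, a2, a3, a4, a5, a6, a7⟩⟩ <;>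
    push_cast at a1 a2 a3 a4 a5 a6 b1 b2 b3 b4 b5 b6 <;>
    refine ⟨?_, ?_, ?_, ?_, ?_, ?_, a7⟩ <;> push_cast <;> linarith

theorem pf_B3 (h1 : S_B1) (h2 : S_B2) (h3 : S_B3a) (h4 : S_B3b) : S_B3 := by
  intro n
  have hb : ∀ (x0 x1 y0 y1 z0 z1 : ℤ), x0 ≤ x1 → y0 ≤ y1 → z0 ≤ z1 →
      IsClosed (bx n x0 x1 y0 y1 z0 z1) := fun _ _ _ _ _ _ hx hy hz =>
    (h3 n _ _ _ _ _ _ hx hy hz).1.isClosed
  have c0 := hb 0 5 0 0 0 1 (by norm_num) (by norm_num) (by norm_num)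
  have c1 := c0.union (hb 0 0 1 4 0 1 (by norm_num) (by norm_num) (by norm_num))
  have c2 := c1.union (hb 2 2 1 4 0 1 (by norm_num) (by norm_num) (by norm_num))
  have c3 := c2.union (hb 4 4 1 4 0 1 (by norm_num) (by norm_num) (by norm_num))
  have c4 := c3.union (hb 1 1 0 0 2 9 (by norm_num) (by norm_num) (by norm_num))
  have c5 := c4.union (hb 3 3 0 0 2 8 (by norm_num) (by norm_num) (by norm_num))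
  have c6 := c5.union (hb 5 5 0 0 2 8 (by norm_num) (by norm_num) (by norm_num))
  have c7 := c6.union (hb 1 1 1 1 3 3 (by norm_num) (by norm_num) (by norm_num))
  have k0 := h2 (n + 3) (bx n 0 5 0 0 0 1)
    (h3 n _ _ _ _ _ _ (by norm_num) (by norm_num) (by norm_num)).1
    (h3 n _ _ _ _ _ _ (by norm_num) (by norm_num) (by norm_num)).2.1
    (h3 n _ _ _ _ _ _ (by norm_num) (by norm_num) (by norm_num)).2.2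
  obtain ⟨g1⟩ := B3_s1 h1 h3 n c0
  obtain ⟨g2⟩ := B3_s2 h1 h3 n c1
  obtain ⟨g3⟩ := B3_s3 h1 h3 n c2
  obtain ⟨g4⟩ := B3_s4 h1 h3 n c3
  obtain ⟨g5⟩ := B3_s5 h1 h3 n c4
  obtain ⟨g6⟩ := B3_s6 h1 h3 n c5
  obtain ⟨g7⟩ := B3_s7 h1 h3 n c6
  obtain ⟨g8⟩ := B3_s8 h1 h3 n c7
  obtain ⟨g0⟩ := k0
  rw [h4 n]
  exact ⟨g8.trans (g7.trans (g6.trans (g5.trans (g4.trans (g3.trans (g2.trans
    (g1.trans g0)))))))⟩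

end Pool.Agent.SM
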