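import Pool.Agent.Lib.MP_288534_co.Stm

set_option autoImplicit false

open scoped Topology

namespace Pool.Agent.SM

/-- an integer in the range close to a real number of the range -/
theorem B3b_int (lo hi : ℤ) (h : lo ≤ hi) (t : ℝ) (h1 : (lo : ℝ) - 1 / 2 ≤ t)
    (h2 : t ≤ hi + 1 / 2) : ∃ m : ℤ, lo ≤ m ∧ m ≤ hi ∧ |t - m| ≤ 1 / 2 := by
  have h0 := abs_sub_round t
  rw [abs_le] at h0
  rcases lt_or_ge (round t) lo with hlt | hge
  · refine ⟨lo, le_rfl, h, ?_⟩
    have : (round t : ℝ) + 1 ≤ lo := by exact_mod_cast hlt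
    rw [abs_le]
    constructor <;> linarith [h0.1, h0.2]
  · rcases lt_or_ge hi (round t) with hlt' | hge'
    · refine ⟨hi, h, le_rfl, ?_⟩
      have : (hi : ℝ) + 1 ≤ round t := by exact_mod_cast hlt'
      rw [abs_le]
      constructor <;> linarith [h0.1, h0.2]
    · exact ⟨round t, hge, hge', by rw [abs_le]; exact h0⟩

/-- A box is contained in the union of the cubes. -/
theorem B3b_sub (n : ℕ) (x0 x1 y0 y1 z0 z1 : ℤ) (hx : x0 ≤ x1) (hy : y0 ≤ y1) (hz : z0 ≤ z1)
    (hP : ∀ x y z : ℤ, x0 ≤ x → x ≤ x1 → y0 ≤ y → y ≤ y1 → z0 ≤ z → z ≤ z1 → InP x y z) :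
    bx n x0 x1 y0 y1 z0 z1 ⊆ real (PP n) := by
  rintro x ⟨a1, a2, a3, a4, a5, a6, a7⟩
  obtain ⟨mx, hx1, hx2, hx3⟩ := B3b_int x0 x1 hx _ a1 a2
  obtain ⟨my, hy1, hy2, hy3⟩ := B3b_int y0 y1 hy _ a3 a4
  obtain ⟨mz, hz1, hz2, hz3⟩ := B3b_int z0 z1 hz _ a5 a6
  refine ⟨fun i => if i.val = 0 then mx else if i.val = 1 then my else
    if i.val = 2 then mz else 0, ⟨?_, ?_⟩, ?_⟩
  · simpa using hP mx my mz hx1 hx2 hy1 hy2 hz1 hz2
  · intro i hi
    show (if i.val = 0 then mx else if i.val = 1 then my else if i.val = 2 then mz else 0) = 0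
    rw [if_neg (by omega), if_neg (by omega), if_neg (by omega)]
  · intro i
    by_cases h0 : i = ax n
    · subst h0; simpa using hx3
    by_cases h1 : i = ay n
    · subst h1; simpa using hy3
    by_cases h2 : i = az n
    · subst h2; simpa using hz3
    have h3 : 3 ≤ i.val := by
      have e0 : i.val ≠ 0 := fun h => h0 (Fin.ext h)
      have e1 : i.val ≠ 1 := fun h => h1 (Fin.ext h)
      have e2 : i.val ≠ 2 := fun h => h2 (Fin.ext h)
      omega
    show |x i - ((if i.val = 0 then mx else if i.val = 1 then my else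
      if i.val = 2 then mz else 0 : ℤ) : ℝ)| ≤ 1 / 2
    rw [if_neg (by omega), if_neg (by omega), if_neg (by omega)]
    simpa using a7 i h3

/-- A cube lies in a box. -/
theorem B3b_mem (n : ℕ) (p : Zc n) (x : Es n) (hx : x ∈ cube p)
    (hp : ∀ i : Dx n, 3 ≤ i.val → p i = 0) (x0 x1 y0 y1 z0 z1 : ℤ)
    (h1 : x0 ≤ p (ax n)) (h2 : p (ax n) ≤ x1) (h3 : y0 ≤ p (ay n)) (h4 : p (ay n) ≤ y1)
    (h5 : z0 ≤ p (az n)) (h6 : p (az n) ≤ z1) : x ∈ bx n x0 x1 y0 y1 z0 z1 := by
  have e0 := abs_le.1 (hx (ax n))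
  have e1 := abs_le.1 (hx (ay n))
  have e2 := abs_le.1 (hx (az n))
  have f1 : (x0 : ℝ) ≤ p (ax n) := by exact_mod_cast h1
  have f2 : (p (ax n) : ℝ) ≤ x1 := by exact_mod_cast h2
  have f3 : (y0 : ℝ) ≤ p (ay n) := by exact_mod_cast h3
  have f4 : (p (ay n) : ℝ) ≤ y1 := by exact_mod_cast h4
  have f5 : (z0 : ℝ) ≤ p (az n) := by exact_mod_cast h5
  have f6 : (p (az n) : ℝ) ≤ z1 := by exact_mod_cast h6
  refine ⟨by linarith [e0.1], by linarith [e0.2], by linarith [e1.1], by linarith [e1.2],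
    by linarith [e2.1], by linarith [e2.2], fun i hi => ?_⟩
  have := hx i
  rw [hp i hi] at this
  simpa using this

theorem pf_B3b : S_B3b := by
  intro n
  apply Set.Subset.antisymm
  · rintro x ⟨p, ⟨hP, hp⟩, hx⟩
    simp only [Set.mem_union]
    rcases hP with ⟨a, b, c, d, e⟩ | ⟨a, b, c, d, e⟩ | ⟨a, b, c, d⟩ | ⟨a, b, c⟩ | ⟨a, b, c⟩ |
      ⟨a, b, c⟩
    · iterate 8 left
      exact B3b_mem n p x hx hp 0 5 0 0 0 1 a b (by omega) (by omega) d e
    · rcases a with a | a | a
      · iterate 7 left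
        right
        exact B3b_mem n p x hx hp 0 0 1 4 0 1 (by omega) (by omega) b c d e
      · iterate 6 left
        right
        exact B3b_mem n p x hx hp 2 2 1 4 0 1 (by omega) (by omega) b c d e
      · iterate 5 left
        right
        exact B3b_mem n p x hx hp 4 4 1 4 0 1 (by omega) (by omega) b c d e
    · rcases a with a | a | a
      · iterate 4 left
        right
        exact B3b_mem n p x hx hp 1 1 0 0 2 9 (by omega) (by omega) (by omega) (by omega) c
          (by omega)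
      · iterate 3 left
        right
        exact B3b_mem n p x hx hp 3 3 0 0 2 8 (by omega) (by omega) (by omega) (by omega) c d
      · iterate 2 left
        right
        exact B3b_mem n p x hx hp 5 5 0 0 2 8 (by omega) (by omega) (by omega) (by omega) c d
    · iterate 4 left
      right
      exact B3b_mem n p x hx hp 1 1 0 0 2 9 (by omega) (by omega) (by omega) (by omega)
        (by omega) (by omega)
    · left
      right
      exact B3b_mem n p x hx hp 1 1 1 1 3 3 (by omega) (by omega) (by omega) (by omega)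
        (by omega) (by omega)
    · right
      exact B3b_mem n p x hx hp 5 5 3 3 1 1 (by omega) (by omega) (by omega) (by omega)
        (by omega) (by omega)
  · have key := B3b_sub n
    refine Set.union_subset (Set.union_subset (Set.union_subset (Set.union_subset
      (Set.union_subset (Set.union_subset (Set.union_subset (Set.union_subset ?_ ?_) ?_) ?_) ?_)
        ?_) ?_) ?_) ?_
    all_goals
      refine key _ _ _ _ _ _ (by norm_num) (by norm_num) (by norm_num) ?_
      intro x y z h1 h2 h3 h4 h5 h6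
      unfold InP
      omega

end Pool.Agent.SM
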