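import Pool.Agent.Lib.MP_288534_co.Stm

set_option autoImplicit false

namespace Pool.Agent.SM

private lemma B4_KK_nonneg (n : ℕ) : 0 ≤ KK n := by unfold KK; positivity

private lemma B4_one {K p c : ℤ} {x : ℝ} (h1 : |x - p| ≤ 1 / 2) (h2 : |p - (2 * K + 1) * c| ≤ K) :
    |((2 * K + 1 : ℤ) : ℝ)⁻¹ * x - c| ≤ 1 / 2 := by
  have hK : 0 ≤ K := le_trans (abs_nonneg _) h2
  have hM : (0 : ℝ) < ((2 * K + 1 : ℤ) : ℝ) := by
    have : (0 : ℤ) < 2 * K + 1 := by omega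
    exact_mod_cast this
  have h2' : |(p : ℝ) - ((2 * K + 1 : ℤ) : ℝ) * c| ≤ K := by exact_mod_cast h2
  have h3 : |x - ((2 * K + 1 : ℤ) : ℝ) * c| ≤ ((2 * K + 1 : ℤ) : ℝ) / 2 := by
    have : x - ((2 * K + 1 : ℤ) : ℝ) * c = (x - p) + (p - ((2 * K + 1 : ℤ) : ℝ) * c) := by ring
    rw [this]
    refine (abs_add_le _ _).trans ?_
    push_cast at h2' ⊢
    linarith
  have h4 : ((2 * K + 1 : ℤ) : ℝ)⁻¹ * x - c = ((2 * K + 1 : ℤ) : ℝ)⁻¹ * (x - ((2 * K + 1 : ℤ) : ℝ) * c) := by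
    field_simp
  rw [h4, abs_mul, abs_of_pos (inv_pos.2 hM), inv_mul_le_iff₀ hM]
  linarith

private lemma B4_two {K c : ℤ} {x : ℝ} (hK : 0 ≤ K)
    (h : |((2 * K + 1 : ℤ) : ℝ)⁻¹ * x - c| ≤ 1 / 2) :
    ∃ p : ℤ, |x - p| ≤ 1 / 2 ∧ |p - (2 * K + 1) * c| ≤ K := by
  have hM : (0 : ℝ) < ((2 * K + 1 : ℤ) : ℝ) := by
    have : (0 : ℤ) < 2 * K + 1 := by omega
    exact_mod_cast this
  have h4 : ((2 * K + 1 : ℤ) : ℝ)⁻¹ * x - c = ((2 * K + 1 : ℤ) : ℝ)⁻¹ * (x - ((2 * K + 1 : ℤ) : ℝ) * c) := by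
    field_simp
  rw [h4, abs_mul, abs_of_pos (inv_pos.2 hM), inv_mul_le_iff₀ hM] at h
  set y : ℝ := x - ((2 * K + 1 : ℤ) : ℝ) * c with hy
  have hy1 : |y| ≤ K + 1 / 2 := by
    push_cast at h
    linarith
  obtain ⟨hyl, hyu⟩ := abs_le.1 hy1
  have hr := abs_sub_round y
  obtain ⟨hrl, hru⟩ := abs_le.1 hr
  refine ⟨(2 * K + 1) * c + max (-K) (min K (round y)), ?_, ?_⟩
  · have hx : x - (((2 * K + 1) * c + max (-K) (min K (round y)) : ℤ) : ℝ)
        = y - ((max (-K) (min K (round y)) : ℤ) : ℝ) := by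
      rw [hy]; push_cast; ring
    rw [hx]
    rcases le_total K (round y) with h1 | h1
    · rw [min_eq_left h1, max_eq_right (by omega)]
      have h1' : (K : ℝ) ≤ (round y : ℝ) := by exact_mod_cast h1
      rw [abs_le]; constructor <;> linarith
    · rw [min_eq_right h1]
      rcases le_total (-K) (round y) with h2 | h2
      · rw [max_eq_right h2]; exact hr
      · rw [max_eq_left h2]
        have h2' : (round y : ℝ) ≤ ((-K : ℤ) : ℝ) := by exact_mod_cast h2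
        push_cast at h2' ⊢
        rw [abs_le]; constructor <;> linarith
  · have : (2 * K + 1) * c + max (-K) (min K (round y)) - (2 * K + 1) * c
        = max (-K) (min K (round y)) := by ring
    rw [this, abs_le]
    constructor
    · exact le_max_left _ _
    · exact max_le (by omega) (min_le_left _ _)

private lemma B4_iff (n : ℕ) (x : Es n) :
    x ∈ real (Sol n) ↔ ((MM n : ℝ)⁻¹ • x) ∈ real (PP n) := by
  constructor
  · rintro ⟨p, ⟨c, hc, hp⟩, hx⟩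
    refine ⟨c, hc, fun i => ?_⟩
    exact B4_one (hx i) (hp i)
  · rintro ⟨c, hc, hx⟩
    have h : ∀ i, ∃ p : ℤ, |x i - p| ≤ 1 / 2 ∧ |p - (2 * KK n + 1) * c i| ≤ KK n := fun i =>
      B4_two (B4_KK_nonneg n) (hx i)
    choose p hp using h
    exact ⟨p, ⟨c, hc, fun i => (hp i).2⟩, fun i => (hp i).1⟩

theorem pf_B4 : S_B4 := by
  intro n
  have hM : ((MM n : ℤ) : ℝ) ≠ 0 := by
    have h0 := B4_KK_nonneg n
    have : MM n ≠ 0 := by unfold MM; omega
    exact_mod_cast this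
  let e : Es n ≃ₜ Es n := Homeomorph.smulOfNeZero ((MM n : ℝ)⁻¹) (inv_ne_zero hM)
  have he : ∀ x, e x = (MM n : ℝ)⁻¹ • x := fun x => rfl
  have himg : e '' real (Sol n) = real (PP n) := by
    ext y
    constructor
    · rintro ⟨x, hx, rfl⟩
      rw [he]
      exact (B4_iff n x).1 hx
    · intro hy
      refine ⟨e.symm y, ?_, e.apply_symm_apply y⟩
      rw [B4_iff, ← he, e.apply_symm_apply]
      exact hy
  exact ⟨(e.image _).trans (Homeomorph.setCongr himg)⟩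

end Pool.Agent.SM
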