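import Pool.Agent.Lib.MP_288534_co.Stm

/-!
# The step lemma (direct proof with gauges)
-/

set_option autoImplicit false

open scoped Topology

namespace Pool.Agent.SM

/-! ## One dimensional functions -/

/-- the radial factor -/
noncomputable def B5_lam (a b : ℝ) : ℝ :=
  min 1 (max (a / b) ((3 - 2 * (a / b)) - 3 * (1 - a / b) / a))

/-- the radial factor of the inverse -/
noncomputable def B5_mu (a b : ℝ) : ℝ :=
  max 1 (min (b / a) ((1 + (a - a / b) / (3 - 2 * (a / b))) / a))

private lemma cbd {a b : ℝ} (ha : 0 < a) (hab : a ≤ b) (hb : b ≤ 5 * a) :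
    0 < a / b ∧ a / b ≤ 1 ∧ 1 / 5 ≤ a / b := by
  have hb0 : 0 < b := lt_of_lt_of_le ha hab
  refine ⟨by positivity, by rwa [div_le_one hb0], ?_⟩
  rw [div_le_div_iff₀ (by norm_num) hb0]; linarith

private lemma lam1 {a b : ℝ} (ha : 0 < a) (hab : a ≤ b) (hb : b ≤ 5 * a) (h : a ≤ 1) :
    B5_lam a b = a / b := by
  obtain ⟨c0, c1, -⟩ := cbd ha hab hb
  unfold B5_lam
  set c := a / b with hc
  have h1 : (3 - 2 * c) - 3 * (1 - c) / a ≤ c := by
    have : 3 * (1 - c) ≤ 3 * (1 - c) / a := by
      rw [le_div_iff₀ ha]; nlinarith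
    linarith
  rw [max_eq_left h1, min_eq_right c1]

private lemma lam2 {a b : ℝ} (ha : 0 < a) (hab : a ≤ b) (hb : b ≤ 5 * a) (h : 1 ≤ a)
    (h' : a ≤ 3 / 2) :
    B5_lam a b = (3 - 2 * (a / b)) - 3 * (1 - a / b) / a := by
  obtain ⟨c0, c1, -⟩ := cbd ha hab hb
  unfold B5_lam
  set c := a / b with hc
  have h1 : c ≤ (3 - 2 * c) - 3 * (1 - c) / a := by
    have : 3 * (1 - c) / a ≤ 3 * (1 - c) := by
      rw [div_le_iff₀ ha]; nlinarith
    linarith
  have h2 : (3 - 2 * c) - 3 * (1 - c) / a ≤ 1 := by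
    have : 2 * (1 - c) ≤ 3 * (1 - c) / a := by
      rw [le_div_iff₀ ha]; nlinarith
    linarith
  rw [max_eq_right h1, min_eq_right h2]

private lemma lam3 {a b : ℝ} (ha : 0 < a) (hab : a ≤ b) (hb : b ≤ 5 * a) (h : 3 / 2 ≤ a) :
    B5_lam a b = 1 := by
  obtain ⟨c0, c1, -⟩ := cbd ha hab hb
  unfold B5_lam
  set c := a / b with hc
  apply min_eq_left
  apply le_max_of_le_right
  have : 3 * (1 - c) / a ≤ 2 * (1 - c) := by
    rw [div_le_iff₀ ha]; nlinarith
  linarith

private lemma mu1 {a b : ℝ} (ha : 0 < a) (hab : a ≤ b) (hb : b ≤ 5 * a) (h : a ≤ a / b) :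
    B5_mu a b = b / a := by
  obtain ⟨c0, c1, -⟩ := cbd ha hab hb
  have hb0 : 0 < b := lt_of_lt_of_le ha hab
  unfold B5_mu
  have e : b / a = 1 / (a / b) := by field_simp
  rw [e]
  set c := a / b with hc
  have h1 : 1 / c ≤ (1 + (a - c) / (3 - 2 * c)) / a := by
    rw [div_le_div_iff₀ c0 ha]
    have h3 : 0 < 3 - 2 * c := by linarith
    have : (a - c) / c ≤ (a - c) / (3 - 2 * c) := by
      rw [div_le_div_iff₀ c0 h3]; nlinarith
    have h4 : (a - c) / c = a / c - 1 := by field_simp
    have h5 : a / c ≤ 1 + (a - c) / (3 - 2 * c) := by linarith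
    rw [div_le_iff₀ c0] at h5
    linarith
  have h2 : 1 ≤ 1 / c := by rw [le_div_iff₀ c0]; linarith
  rw [min_eq_left h1, max_eq_right h2]

private lemma mu2 {a b : ℝ} (ha : 0 < a) (hab : a ≤ b) (hb : b ≤ 5 * a) (h : a / b ≤ a)
    (h' : a ≤ 3 / 2) :
    B5_mu a b = (1 + (a - a / b) / (3 - 2 * (a / b))) / a := by
  obtain ⟨c0, c1, -⟩ := cbd ha hab hb
  have hb0 : 0 < b := lt_of_lt_of_le ha hab
  unfold B5_mu
  have e : b / a = 1 / (a / b) := by field_simp
  rw [e]
  set c := a / b with hc
  have h3 : 0 < 3 - 2 * c := by linarith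
  have h1 : (1 + (a - c) / (3 - 2 * c)) / a ≤ 1 / c := by
    rw [div_le_div_iff₀ ha c0]
    have : (a - c) / (3 - 2 * c) ≤ (a - c) / c := by
      rw [div_le_div_iff₀ h3 c0]; nlinarith
    have h4 : (a - c) / c = a / c - 1 := by field_simp
    have h5 : 1 + (a - c) / (3 - 2 * c) ≤ a / c := by linarith
    rw [le_div_iff₀ c0] at h5
    linarith
  have h2 : 1 ≤ (1 + (a - c) / (3 - 2 * c)) / a := by
    rw [le_div_iff₀ ha]
    have : (a - 1) ≤ (a - c) / (3 - 2 * c) := by
      rw [le_div_iff₀ h3]; nlinarith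
    linarith
  rw [min_eq_right h1, max_eq_right h2]

private lemma mu3 {a b : ℝ} (ha : 0 < a) (hab : a ≤ b) (hb : b ≤ 5 * a) (h : 3 / 2 ≤ a) :
    B5_mu a b = 1 := by
  obtain ⟨c0, c1, -⟩ := cbd ha hab hb
  unfold B5_mu
  set c := a / b with hc
  have h3 : 0 < 3 - 2 * c := by linarith
  apply max_eq_left
  apply min_le_of_right_le
  rw [div_le_iff₀ ha]
  have : (a - c) / (3 - 2 * c) ≤ a - 1 := by
    rw [div_le_iff₀ h3]; nlinarith
  linarith

private lemma lam_pos {a b : ℝ} (ha : 0 < a) (hab : a ≤ b) (hb : b ≤ 5 * a) :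
    0 < B5_lam a b := by
  obtain ⟨c0, c1, -⟩ := cbd ha hab hb
  unfold B5_lam
  exact lt_min one_pos (lt_max_of_lt_left c0)

private lemma mu_pos {a b : ℝ} : 0 < B5_mu a b := lt_max_of_lt_left one_pos

/-- value of `lam * a` -/
private lemma lam_cases {a b : ℝ} (ha : 0 < a) (hab : a ≤ b) (hb : b ≤ 5 * a) :
    (a ≤ 1 ∧ B5_lam a b * a = a / b * a) ∨
    (1 ≤ a ∧ a ≤ 3 / 2 ∧ B5_lam a b * a = a / b + (3 - 2 * (a / b)) * (a - 1)) ∨
    (3 / 2 ≤ a ∧ B5_lam a b * a = a) := by
  rcases le_total a 1 with h | h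
  · left; exact ⟨h, by rw [lam1 ha hab hb h]⟩
  · rcases le_total a (3 / 2) with h' | h'
    · right; left
      refine ⟨h, h', ?_⟩
      rw [lam2 ha hab hb h h']
      have : a ≠ 0 := ha.ne'
      have hb0 : b ≠ 0 := (lt_of_lt_of_le ha hab).ne'
      field_simp
      ring
    · right; right
      exact ⟨h', by rw [lam3 ha hab hb h', one_mul]⟩

private lemma mu_cases {a b : ℝ} (ha : 0 < a) (hab : a ≤ b) (hb : b ≤ 5 * a) :
    (a ≤ a / b ∧ B5_mu a b * a * (a / b) = a) ∨
    (a / b ≤ a ∧ a ≤ 3 / 2 ∧ (B5_mu a b * a - 1) * (3 - 2 * (a / b)) = a - a / b) ∨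
    (3 / 2 ≤ a ∧ B5_mu a b * a = a) := by
  obtain ⟨c0, c1, -⟩ := cbd ha hab hb
  have hb0 : 0 < b := lt_of_lt_of_le ha hab
  have ha' : a ≠ 0 := ha.ne'
  rcases le_total a (a / b) with h | h
  · left; refine ⟨h, ?_⟩
    rw [mu1 ha hab hb h]
    field_simp
  · rcases le_total a (3 / 2) with h' | h'
    · right; left
      refine ⟨h, h', ?_⟩
      rw [mu2 ha hab hb h h']
      have h3 : 3 - 2 * (a / b) ≠ 0 := by linarith
      rw [div_mul_cancel₀ _ ha']
      rw [show 1 + (a - a / b) / (3 - 2 * (a / b)) - 1 = (a - a / b) / (3 - 2 * (a / b)) by ring]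
      rw [div_mul_cancel₀ _ h3]
    · right; right
      exact ⟨h', by rw [mu3 ha hab hb h', one_mul]⟩

private lemma mu_lam {a b : ℝ} (ha : 0 < a) (hab : a ≤ b) (hb : b ≤ 5 * a) :
    B5_mu (B5_lam a b * a) (B5_lam a b * b) * B5_lam a b = 1 := by
  obtain ⟨c0, c1, -⟩ := cbd ha hab hb
  have hb0 : 0 < b := lt_of_lt_of_le ha hab
  set l := B5_lam a b with hl
  have hl0 : 0 < l := lam_pos ha hab hb
  have ha2 : 0 < l * a := by positivity
  have hab2 : l * a ≤ l * b := by nlinarith
  have hb2 : l * b ≤ 5 * (l * a) := by nlinarith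
  have hc2 : (l * a) / (l * b) = a / b := by
    rw [mul_div_mul_left _ _ hl0.ne']
  have key : B5_mu (l * a) (l * b) * (l * a) = a := by
    have m := mu_cases ha2 hab2 hb2
    rw [hc2] at m
    set c := a / b with hc
    set w := B5_mu (l * a) (l * b) * (l * a) with hw
    have h3 : 0 < 3 - 2 * c := by linarith
    rcases lam_cases ha hab hb with ⟨h1, e⟩ | ⟨h1, h2, e⟩ | ⟨h1, e⟩ <;>
      rw [← hl] at e <;> (try rw [← hc] at e) <;> rw [e] at m
    · rcases m with ⟨m1, m2⟩ | ⟨m1, m2, m3⟩ | ⟨m1, m2⟩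
      · have : w * c = a * c := by linarith
        exact mul_right_cancel₀ c0.ne' this
      · have ha1 : a = 1 := by
          have : 1 ≤ a := by
            by_contra hh
            push Not at hh
            nlinarith
          linarith
        subst ha1
        have : (w - 1) * (3 - 2 * c) = 0 := by linarith
        rcases mul_eq_zero.mp this with h | h
        · linarith
        · linarith
      · exfalso
        nlinarith
    · rcases m with ⟨m1, m2⟩ | ⟨m1, m2, m3⟩ | ⟨m1, m2⟩
      · have ha1 : a = 1 := by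
          have : (3 - 2 * c) * (a - 1) ≤ 0 := by linarith
          nlinarith
        subst ha1
        have : w * c = 1 * c := by linarith
        exact mul_right_cancel₀ c0.ne' this
      · have : (w - 1) * (3 - 2 * c) = (a - 1) * (3 - 2 * c) := by linarith
        have := mul_right_cancel₀ h3.ne' this
        linarith
      · have : a = 3 / 2 ∨ c = 1 := by
          by_contra hh
          push Not at hh
          have h5 : a < 3 / 2 := lt_of_le_of_ne h2 hh.1
          have h6 : c < 1 := lt_of_le_of_ne c1 hh.2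
          nlinarith
        rcases this with h | h
        · subst h; rw [m2]; ring
        · rw [h] at m2
          rw [m2]; ring
    · rcases m with ⟨m1, m2⟩ | ⟨m1, m2, m3⟩ | ⟨m1, m2⟩
      · exfalso; linarith
      · have ha1 : a = 3 / 2 := le_antisymm m2 h1
        subst ha1
        have : (w - 1) * (3 - 2 * c) = (3 / 2 - 1) * (3 - 2 * c) := by linarith
        have := mul_right_cancel₀ h3.ne' this
        linarith
      · exact m2
  have : B5_mu (l * a) (l * b) * l * a = 1 * a := by rw [one_mul, mul_assoc]; exact key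
  exact mul_right_cancel₀ ha.ne' this

private lemma lam_mu {a b : ℝ} (ha : 0 < a) (hab : a ≤ b) (hb : b ≤ 5 * a) :
    B5_lam (B5_mu a b * a) (B5_mu a b * b) * B5_mu a b = 1 := by
  obtain ⟨c0, c1, -⟩ := cbd ha hab hb
  have hb0 : 0 < b := lt_of_lt_of_le ha hab
  set l := B5_mu a b with hl
  have hl0 : 0 < l := mu_pos
  have ha2 : 0 < l * a := by positivity
  have hab2 : l * a ≤ l * b := by nlinarith
  have hb2 : l * b ≤ 5 * (l * a) := by nlinarith
  have hc2 : (l * a) / (l * b) = a / b := by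
    rw [mul_div_mul_left _ _ hl0.ne']
  have key : B5_lam (l * a) (l * b) * (l * a) = a := by
    have m := lam_cases ha2 hab2 hb2
    rw [hc2] at m
    set c := a / b with hc
    set w := B5_lam (l * a) (l * b) * (l * a) with hw
    have h3 : 0 < 3 - 2 * c := by linarith
    have mc := mu_cases ha hab hb
    rw [← hl, ← hc] at mc
    set v := l * a with hv
    rcases mc with ⟨h1, e⟩ | ⟨h1, h2, e⟩ | ⟨h1, e⟩
    · have hv1 : v ≤ 1 := by
        by_contra hh
        push Not at hh
        nlinarith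
      rcases m with ⟨m1, m2⟩ | ⟨m1, m2, m3⟩ | ⟨m1, m2⟩
      · linarith
      · have : v = 1 := le_antisymm hv1 m1
        rw [this] at m3 e
        linarith
      · linarith
    · have hv1 : 1 ≤ v := by
        by_contra hh
        push Not at hh
        nlinarith
      have hv2 : v ≤ 3 / 2 := by
        by_contra hh
        push Not at hh
        nlinarith
      rcases m with ⟨m1, m2⟩ | ⟨m1, m2, m3⟩ | ⟨m1, m2⟩
      · have : v = 1 := le_antisymm m1 hv1
        rw [this] at m2 e
        linarith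
      · linarith
      · have : v = 3 / 2 := le_antisymm hv2 m1
        rw [this] at m2 e
        linarith
    · rcases m with ⟨m1, m2⟩ | ⟨m1, m2, m3⟩ | ⟨m1, m2⟩
      · exfalso; linarith
      · have : v = 3 / 2 := by linarith
        rw [this] at m3 e
        linarith
      · linarith
  have : B5_lam (l * a) (l * b) * l * a = 1 * a := by rw [one_mul, mul_assoc]; exact key
  exact mul_right_cancel₀ ha.ne' this

private lemma lam_le_one {a b : ℝ} : B5_lam a b ≤ 1 := min_le_left _ _

private lemma mu_le {a b : ℝ} (ha : 0 < a) (hb : b ≤ 5 * a) : B5_mu a b ≤ 5 := by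
  unfold B5_mu
  apply max_le (by norm_num)
  apply min_le_of_left_le
  rw [div_le_iff₀ ha]; exact hb

private lemma lam_level {a b : ℝ} (ha : 0 < a) (hab : a ≤ b) (hb : b ≤ 5 * a) :
    a ≤ 1 ↔ B5_lam a b * b ≤ 1 := by
  obtain ⟨c0, c1, -⟩ := cbd ha hab hb
  have hb0 : 0 < b := lt_of_lt_of_le ha hab
  have hcb : a / b * b = a := div_mul_cancel₀ _ hb0.ne'
  constructor
  · intro h
    rw [lam1 ha hab hb h, hcb]; exact h
  · intro h
    by_contra hh
    push Not at hh
    rcases lam_cases ha hab hb with ⟨h1, e⟩ | ⟨h1, h2, e⟩ | ⟨h1, e⟩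
    · linarith
    · have h5 : B5_lam a b * b * (a / b) ≤ 1 * (a / b) := mul_le_mul_of_nonneg_right h c0.le
      have h6 : B5_lam a b * b * (a / b) = B5_lam a b * a := by
        rw [mul_assoc, mul_comm b, hcb]
      rw [h6, e] at h5
      nlinarith
    · have h5 : B5_lam a b * b * (a / b) ≤ 1 * (a / b) := mul_le_mul_of_nonneg_right h c0.le
      have h6 : B5_lam a b * b * (a / b) = B5_lam a b * a := by
        rw [mul_assoc, mul_comm b, hcb]
      rw [h6, e] at h5
      linarith

private lemma lam_supp {a b : ℝ} (ha : 0 < a) (h : a < 3 / 2) :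
    B5_lam a b * a < 3 / 2 := by
  have := lam_le_one (a := a) (b := b)
  nlinarith

/-- The radial homeomorphism of two gauges `g ≤ h ≤ 5 g`. -/
theorem B5_radial {V : Type*} [NormedAddCommGroup V] [NormedSpace ℝ V] (g h : V → ℝ)
    (hg : Continuous g) (hh : Continuous h)
    (hgs : ∀ (t : ℝ) (z : V), 0 ≤ t → g (t • z) = t * g z)
    (hhs : ∀ (t : ℝ) (z : V), 0 ≤ t → h (t • z) = t * h z)
    (hpos : ∀ z, z ≠ 0 → 0 < g z) (hle : ∀ z, g z ≤ h z) (hub : ∀ z, h z ≤ 5 * g z) :
    ∃ Φ : V ≃ₜ V, (∀ z, ∃ c : ℝ, 0 < c ∧ Φ z = c • z) ∧ (∀ z, g z = h z → Φ z = z) ∧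
      (∀ z, 3 / 2 ≤ g z → Φ z = z) ∧ (∀ z, g z ≤ 1 ↔ h (Φ z) ≤ 1) ∧
      (∀ z, g z < 3 / 2 → g (Φ z) < 3 / 2) := by
  have hg0 : g 0 = 0 := by simpa using hgs 0 0 le_rfl
  have hh0 : h 0 = 0 := by simpa using hhs 0 0 le_rfl
  have hposh : ∀ z, z ≠ 0 → 0 < h z := fun z hz => lt_of_lt_of_le (hpos z hz) (hle z)
  -- continuity of a bounded radial map
  have cont : ∀ (f : V → ℝ) (C : ℝ), (∀ z, |f z| ≤ C) → (∀ z, z ≠ 0 → ContinuousAt f z) →
      Continuous (fun z => f z • z) := by
    intro f C hC hf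
    rw [continuous_iff_continuousAt]
    intro z
    by_cases hz : z = 0
    · subst hz
      unfold ContinuousAt
      simp only [smul_zero]
      apply squeeze_zero_norm (a := fun z => C * ‖z‖)
      · intro t
        rw [norm_smul, Real.norm_eq_abs]
        exact mul_le_mul_of_nonneg_right (hC t) (norm_nonneg _)
      · have : Continuous fun z : V => C * ‖z‖ := continuous_const.mul continuous_norm
        have := this.tendsto (0 : V)
        simpa using this
    · exact (hf z hz).smul continuousAt_id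
  have ccont : ∀ z, z ≠ 0 → ContinuousAt (fun z => g z / h z) z := fun z hz =>
    hg.continuousAt.div hh.continuousAt (hposh z hz).ne'
  have hl0 : B5_lam 0 0 = 1 := by unfold B5_lam; simp
  have hm0 : B5_mu 0 0 = 1 := by unfold B5_mu; simp
  have c1 : Continuous (fun z => B5_lam (g z) (h z) • z) := by
    apply cont _ 1
    · intro z
      by_cases hz : z = 0
      · subst hz; rw [hg0, hh0, hl0]; simp
      · rw [abs_of_pos (lam_pos (hpos z hz) (hle z) (hub z))]; exact lam_le_one
    · intro z hz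
      unfold B5_lam
      refine ContinuousAt.inf continuousAt_const (ContinuousAt.sup (ccont z hz) ?_)
      refine (continuousAt_const.sub (continuousAt_const.mul (ccont z hz))).sub ?_
      exact (continuousAt_const.mul (continuousAt_const.sub (ccont z hz))).div hg.continuousAt
        (hpos z hz).ne'
  have c2 : Continuous (fun z => B5_mu (g z) (h z) • z) := by
    apply cont _ 5
    · intro z
      by_cases hz : z = 0
      · subst hz; rw [hg0, hh0, hm0]; norm_num
      · rw [abs_of_pos mu_pos]; exact mu_le (hpos z hz) (hub z)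
    · intro z hz
      unfold B5_mu
      obtain ⟨-, c1, -⟩ := cbd (hpos z hz) (hle z) (hub z)
      refine ContinuousAt.sup continuousAt_const (ContinuousAt.inf ?_ ?_)
      · exact hh.continuousAt.div hg.continuousAt (hpos z hz).ne'
      · refine ContinuousAt.div ?_ hg.continuousAt (hpos z hz).ne'
        refine continuousAt_const.add (ContinuousAt.div ?_ ?_ (by linarith))
        · exact hg.continuousAt.sub (ccont z hz)
        · exact continuousAt_const.sub (continuousAt_const.mul (ccont z hz))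
  let Φ : V ≃ₜ V :=
    { toFun := fun z => B5_lam (g z) (h z) • z
      invFun := fun z => B5_mu (g z) (h z) • z
      left_inv := by
        intro z
        by_cases hz : z = 0
        · subst hz; simp
        · have hp := (lam_pos (hpos z hz) (hle z) (hub z)).le
          simp only
          rw [hgs _ _ hp, hhs _ _ hp, smul_smul, mu_lam (hpos z hz) (hle z) (hub z), one_smul]
      right_inv := by
        intro z
        by_cases hz : z = 0
        · subst hz; simp
        · have hp := (mu_pos (a := g z) (b := h z)).le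
          simp only
          rw [hgs _ _ hp, hhs _ _ hp, smul_smul, lam_mu (hpos z hz) (hle z) (hub z), one_smul]
      continuous_toFun := c1
      continuous_invFun := c2 }
  have hΦ : ∀ z, Φ z = B5_lam (g z) (h z) • z := fun z => rfl
  refine ⟨Φ, ?_, ?_, ?_, ?_, ?_⟩
  · intro z
    by_cases hz : z = 0
    · subst hz; exact ⟨1, one_pos, by rw [hΦ]; simp⟩
    · exact ⟨_, lam_pos (hpos z hz) (hle z) (hub z), hΦ z⟩
  · intro z e
    by_cases hz : z = 0
    · subst hz; rw [hΦ]; simp
    · have : B5_lam (g z) (h z) = 1 := by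
        rw [← e]; unfold B5_lam
        rw [div_self (hpos z hz).ne']; norm_num
      rw [hΦ, this, one_smul]
  · intro z e
    have hz : z ≠ 0 := by
      rintro rfl; rw [hg0] at e; norm_num at e
    rw [hΦ, lam3 (hpos z hz) (hle z) (hub z) e, one_smul]
  · intro z
    by_cases hz : z = 0
    · subst hz; rw [hΦ, smul_zero, hg0, hh0]
    · rw [hΦ, hhs _ _ (lam_pos (hpos z hz) (hle z) (hub z)).le]
      exact lam_level (hpos z hz) (hle z) (hub z)
  · intro z hlt
    by_cases hz : z = 0
    · subst hz; rw [hΦ, smul_zero, hg0]; norm_num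
    · rw [hΦ, hgs _ _ (lam_pos (hpos z hz) (hle z) (hub z)).le]
      exact lam_supp (hpos z hz) hlt

/-! ## The gauges of the step lemma -/

section gauges

variable {n : ℕ}

private noncomputable def rr (b : Dx n) (z : Es n) : ℝ := ‖(fun c : {c : Dx n // c ≠ b} => z c.1)‖
private noncomputable def gB (b : Dx n) (s : Bool) (z : Es n) : ℝ :=
  max (max (2 * rr b z) (4 / 5 * ((sg s : ℝ) * z b)))
    (max (4 * (rr b z - (sg s : ℝ) * z b)) (-4 * ((sg s : ℝ) * z b)))
private noncomputable def gW (b : Dx n) (s : Bool) (z : Es n) : ℝ :=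
  max (gB b s z) (4 * ((sg s : ℝ) * z b))

private lemma rr_cont (b : Dx n) : Continuous (rr b) := by
  unfold rr
  apply Continuous.norm
  apply continuous_pi
  intro c
  exact (EuclideanSpace.proj c.1 : Es n →L[ℝ] ℝ).continuous

private lemma rr_smul (b : Dx n) (t : ℝ) (ht : 0 ≤ t) (z : Es n) : rr b (t • z) = t * rr b z := by
  unfold rr
  have : (fun c : {c : Dx n // c ≠ b} => (t • z) c.1) = t • (fun c : {c : Dx n // c ≠ b} => z c.1) := by
    funext c; simp
  rw [this, norm_smul, Real.norm_of_nonneg ht]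

private lemma rr_nonneg (b : Dx n) (z : Es n) : 0 ≤ rr b z := norm_nonneg _

private lemma le_rr (b : Dx n) (z : Es n) (c : Dx n) (hc : c ≠ b) : |z c| ≤ rr b z := by
  unfold rr
  exact norm_le_pi_norm (fun c : {c : Dx n // c ≠ b} => z c.1) ⟨c, hc⟩

private lemma rr_le (b : Dx n) (z : Es n) (r : ℝ) (hr : 0 ≤ r) (h : ∀ c, c ≠ b → |z c| ≤ r) :
    rr b z ≤ r := by
  unfold rr
  rw [pi_norm_le_iff_of_nonneg hr]
  intro c
  exact h c.1 c.2

private lemma coord_cont (b : Dx n) : Continuous (fun z : Es n => z b) :=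
  (EuclideanSpace.proj b : Es n →L[ℝ] ℝ).continuous

private lemma gB_cont (b : Dx n) (s : Bool) : Continuous (gB b s) := by
  unfold gB
  have h1 := rr_cont b
  have h2 := coord_cont b
  fun_prop

private lemma gW_cont (b : Dx n) (s : Bool) : Continuous (gW b s) := by
  unfold gW
  have h1 := gB_cont b s
  have h2 := coord_cont b
  fun_prop

private lemma gB_smul (b : Dx n) (s : Bool) (t : ℝ) (z : Es n) (ht : 0 ≤ t) :
    gB b s (t • z) = t * gB b s z := by
  unfold gB
  rw [rr_smul b t ht, mul_max_of_nonneg _ _ ht, mul_max_of_nonneg _ _ ht, mul_max_of_nonneg _ _ ht]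
  have : (t • z) b = t * z b := by simp
  rw [this]
  congr 1
  · congr 1 <;> ring
  · congr 1 <;> ring

private lemma gW_smul (b : Dx n) (s : Bool) (t : ℝ) (z : Es n) (ht : 0 ≤ t) :
    gW b s (t • z) = t * gW b s z := by
  unfold gW
  rw [gB_smul b s t z ht, mul_max_of_nonneg _ _ ht]
  have : (t • z) b = t * z b := by simp
  rw [this]
  congr 1
  ring

private lemma sg_cases (s : Bool) : (sg s : ℝ) = 1 ∨ (sg s : ℝ) = -1 := by
  cases s <;> simp [sg]

private lemma gB_bds (b : Dx n) (s : Bool) (z : Es n) :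
    2 * rr b z ≤ gB b s z ∧ 4 / 5 * ((sg s : ℝ) * z b) ≤ gB b s z ∧
    4 * (rr b z - (sg s : ℝ) * z b) ≤ gB b s z ∧ -4 * ((sg s : ℝ) * z b) ≤ gB b s z :=
  ⟨le_max_of_le_left (le_max_left _ _), le_max_of_le_left (le_max_right _ _),
    le_max_of_le_right (le_max_left _ _), le_max_of_le_right (le_max_right _ _)⟩

private lemma gB_le (b : Dx n) (s : Bool) (z : Es n) (r : ℝ) (h1 : 2 * rr b z ≤ r)
    (h2 : 4 / 5 * ((sg s : ℝ) * z b) ≤ r) (h3 : 4 * (rr b z - (sg s : ℝ) * z b) ≤ r)
    (h4 : -4 * ((sg s : ℝ) * z b) ≤ r) : gB b s z ≤ r :=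
  max_le (max_le h1 h2) (max_le h3 h4)

private lemma gB_pos (b : Dx n) (s : Bool) (z : Es n) (hz : z ≠ 0) : 0 < gB b s z := by
  obtain ⟨h1, h2, h3, h4⟩ := gB_bds b s z
  by_contra hh
  push Not at hh
  have hr := rr_nonneg b z
  have hr0 : rr b z = 0 := by linarith
  have hs0 : (sg s : ℝ) * z b = 0 := by linarith
  have hb0 : z b = 0 := by
    rcases sg_cases s with h | h <;> rw [h] at hs0 <;> linarith
  apply hz
  ext c
  by_cases hc : c = b
  · rw [hc, hb0]; rfl
  · have := le_rr b z c hc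
    rw [hr0] at this
    have := abs_nonpos_iff.mp this
    rw [this]; rfl

private lemma gW_ub (b : Dx n) (s : Bool) (z : Es n) : gW b s z ≤ 5 * gB b s z := by
  obtain ⟨h1, h2, h3, h4⟩ := gB_bds b s z
  have hr := rr_nonneg b z
  apply max_le
  · linarith
  · linarith

end gauges

/-- the centre of the radial map -/
private noncomputable def ctr {n : ℕ} (q : Zc n) (b : Dx n) (s : Bool) : Es n :=
  WithLp.toLp 2 (fun c => (q c : ℝ) - (if c = b then 3 / 4 * (sg s : ℝ) else 0))

section cells

variable {n : ℕ} (A : Set (Zc n)) (q : Zc n) (b : Dx n) (s : Bool)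

private lemma ctr_ne (c : Dx n) (hc : c ≠ b) : (ctr q b s) c = q c := by
  simp [ctr, hc]

private lemma ctr_eq : (ctr q b s) b = q b - 3 / 4 * (sg s : ℝ) := by
  simp [ctr]

private lemma sgsq : (sg s : ℝ) * (sg s : ℝ) = 1 := by
  rcases sg_cases s with h | h <;> rw [h] <;> norm_num

/-- height of `x = ctr + z` relative to the cell -/
private lemma height (x : Es n) :
    (sg s : ℝ) * (x b - q b) = (sg s : ℝ) * (x - ctr q b s) b - 3 / 4 := by
  have : (x - ctr q b s) b = x b - ctr q b s b := rfl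
  rw [this, ctr_eq]
  have := sgsq s
  linear_combination (-3 / 4) * this

private lemma lateral (x : Es n) (c : Dx n) (hc : c ≠ b) :
    |x c - q c| ≤ rr b (x - ctr q b s) := by
  have := le_rr b (x - ctr q b s) c hc
  have e : (x - ctr q b s) c = x c - q c := by
    have : (x - ctr q b s) c = x c - ctr q b s c := rfl
    rw [this, ctr_ne q b s c hc]
  rwa [e] at this

private lemma lateral_le (x : Es n) (r : ℝ) (hr : 0 ≤ r) (h : ∀ c, c ≠ b → |x c - q c| ≤ r) :
    rr b (x - ctr q b s) ≤ r := by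
  apply rr_le b _ r hr
  intro c hc
  have e : (x - ctr q b s) c = x c - q c := by
    have : (x - ctr q b s) c = x c - ctr q b s c := rfl
    rw [this, ctr_ne q b s c hc]
  rw [e]; exact h c hc

private lemma abs_sg (t : ℝ) : |(sg s : ℝ) * t| = |t| := by
  rcases sg_cases s with h | h <;> rw [h] <;> simp

/-- `x` is in the cube of `q` -/
private lemma mem_cube_q (x : Es n) :
    x ∈ cube q ↔ rr b (x - ctr q b s) ≤ 1 / 2 ∧ 1 / 4 ≤ (sg s : ℝ) * (x - ctr q b s) b ∧
      (sg s : ℝ) * (x - ctr q b s) b ≤ 5 / 4 := by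
  have hh := height q b s x
  constructor
  · intro h
    refine ⟨lateral_le q b s x _ (by norm_num) (fun c _ => h c), ?_, ?_⟩
    · have := h b
      rw [← abs_sg s, abs_le] at this
      linarith [this.1]
    · have := h b
      rw [← abs_sg s, abs_le] at this
      linarith [this.2]
  · rintro ⟨h1, h2, h3⟩ c
    by_cases hc : c = b
    · subst hc
      rw [← abs_sg s, abs_le]
      constructor <;> linarith
    · exact (lateral q b s x c hc).trans h1

/-- `x` is in the cube below -/
private lemma mem_cube_below (x : Es n) (h1 : rr b (x - ctr q b s) ≤ 1 / 2)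
    (h2 : -(3 / 4) ≤ (sg s : ℝ) * (x - ctr q b s) b)
    (h3 : (sg s : ℝ) * (x - ctr q b s) b ≤ 1 / 4) :
    x ∈ cube (fun i => q i - (if i = b then sg s else 0)) := by
  intro c
  have hh := height q b s x
  by_cases hc : c = b
  · subst hc
    simp only [if_true]
    rw [← abs_sg s, abs_le]
    have e : (sg s : ℝ) * (x c - ((q c - sg s : ℤ) : ℝ)) = (sg s : ℝ) * (x c - q c) + 1 := by
      push_cast
      linear_combination sgsq s
    rw [e]
    constructor <;> linarith
  · simp only [hc, if_false, sub_zero]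
    exact (lateral q b s x c hc).trans h1

/-- above the facet near `q`: not in `A` -/
private lemma not_mem (hn : ∀ p, Nb q p → 0 ≤ sg s * (p b - q b) → p ∉ A) (x : Es n)
    (h1 : rr b (x - ctr q b s) < 1) (h2 : 1 / 4 < (sg s : ℝ) * (x - ctr q b s) b)
    (h3 : (sg s : ℝ) * (x - ctr q b s) b < 9 / 4) : x ∉ real A := by
  rintro ⟨p, hp, hx⟩
  have hh := height q b s x
  have hb := hx b
  rw [← abs_sg s, abs_le] at hb
  have e : (sg s : ℝ) * (x b - p b) = (sg s : ℝ) * (x b - q b) - ((sg s * (p b - q b) : ℤ) : ℝ) := by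
    push_cast; ring
  rw [e] at hb
  have i1 : (-1 : ℝ) < ((sg s * (p b - q b) : ℤ) : ℝ) := by linarith [hb.2]
  have i2 : ((sg s * (p b - q b) : ℤ) : ℝ) < 2 := by linarith [hb.1]
  have j1 : (-1 : ℤ) < sg s * (p b - q b) := by exact_mod_cast i1
  have j2 : sg s * (p b - q b) < (2 : ℤ) := by exact_mod_cast i2
  refine hn p ?_ (by omega) hp
  intro c
  by_cases hc : c = b
  · subst hc
    have hs : sg s = 1 ∨ sg s = -1 := by cases s <;> simp [sg]
    rw [abs_le]
    rcases hs with h | h <;> rw [h] at j1 j2 <;> constructor <;> linarith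
  · have a1 := lateral q b s x c hc
    have a2 := hx c
    have : |((q c - p c : ℤ) : ℝ)| < 2 := by
      push_cast
      have : (q c : ℝ) - p c = (x c - p c) - (x c - q c) := by ring
      rw [this]
      calc |(x c - p c) - (x c - q c)| ≤ |x c - p c| + |x c - q c| := abs_sub _ _
        _ < 2 := by linarith
    have : |q c - p c| < 2 := by exact_mod_cast this
    omega

end cells

/-- The step lemma, direct proof (B5a, B5b, B5c, B5d are not needed). -/
theorem B5_direct : S_B5 := by
  intro n A q b s _ hbase hn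
  obtain ⟨Φ, H1, H2, H3, H4, H5⟩ := B5_radial (V := Es n) (gB b s) (gW b s) (gB_cont b s)
    (gW_cont b s) (fun t z ht => gB_smul b s t z ht) (fun t z ht => gW_smul b s t z ht)
    (gB_pos b s) (fun z => le_max_left _ _) (gW_ub b s)
  set o := ctr q b s with ho
  -- inside the support
  have A1 : ∀ x : Es n, gB b s (x - o) < gW b s (x - o) → gB b s (x - o) < 3 / 2 →
      (x ∈ real A ↔ gW b s (x - o) ≤ 1) := by
    intro x hlt hs
    obtain ⟨h1, h2, h3, h4⟩ := gB_bds b s (x - o)
    have hW : gW b s (x - o) = 4 * ((sg s : ℝ) * (x - o) b) := by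
      unfold gW at hlt ⊢
      rcases max_choice (gB b s (x - o)) (4 * ((sg s : ℝ) * (x - o) b)) with h | h
      · rw [h] at hlt; exact absurd hlt (lt_irrefl _)
      · exact h
    constructor
    · intro hx
      by_contra hh
      push Not at hh
      refine not_mem A q b s hn x ?_ ?_ ?_ hx
      · rw [← ho]; linarith
      · rw [← ho]; linarith
      · rw [← ho]; linarith
    · intro hle
      refine ⟨_, hbase, mem_cube_below q b s x ?_ ?_ ?_⟩
      · rw [← ho]; linarith
      · rw [← ho]; linarith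
      · rw [← ho]; linarith
  have A2 : ∀ x : Es n, gB b s (x - o) < gW b s (x - o) → gB b s (x - o) < 3 / 2 →
      (x ∈ real (A ∪ {q}) ↔ gB b s (x - o) ≤ 1) := by
    intro x hlt hs
    obtain ⟨h1, h2, h3, h4⟩ := gB_bds b s (x - o)
    have hW : gW b s (x - o) = 4 * ((sg s : ℝ) * (x - o) b) := by
      unfold gW at hlt ⊢
      rcases max_choice (gB b s (x - o)) (4 * ((sg s : ℝ) * (x - o) b)) with h | h
      · rw [h] at hlt; exact absurd hlt (lt_irrefl _)
      · exact h
    constructor
    · rintro ⟨p, hp | hp, hx⟩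
      · have := (A1 x hlt hs).mp ⟨p, hp, hx⟩
        linarith
      · rw [Set.mem_singleton_iff] at hp
        subst hp
        obtain ⟨k1, k2, k3⟩ := (mem_cube_q p b s x).mp hx
        rw [← ho] at k1 k2 k3
        apply gB_le <;> linarith
    · intro hle
      rcases le_or_gt (4 * ((sg s : ℝ) * (x - o) b)) 1 with hc | hc
      · obtain ⟨p, hp, hx⟩ := (A1 x hlt hs).mpr (by rw [hW]; exact hc)
        exact ⟨p, Or.inl hp, hx⟩
      · refine ⟨q, Or.inr rfl, (mem_cube_q q b s x).mpr ⟨?_, ?_, ?_⟩⟩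
        · rw [← ho]; linarith
        · rw [← ho]; linarith
        · rw [← ho]; linarith
  -- outside the support
  have A3 : ∀ x : Es n, (gB b s (x - o) = gW b s (x - o) ∨ 3 / 2 ≤ gB b s (x - o)) →
      (x ∈ real (A ∪ {q}) ↔ x ∈ real A) := by
    intro x hx
    constructor
    · rintro ⟨p, hp | hp, hxp⟩
      · exact ⟨p, hp, hxp⟩
      · rw [Set.mem_singleton_iff] at hp
        subst hp
        obtain ⟨k1, k2, k3⟩ := (mem_cube_q p b s x).mp hxp
        rw [← ho] at k1 k2 k3
        have hle : gB b s (x - o) ≤ 1 := by apply gB_le <;> linarith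
        rcases hx with hx | hx
        · have : 4 * ((sg s : ℝ) * (x - o) b) ≤ gB b s (x - o) := by
            rw [hx]; exact le_max_right _ _
          refine ⟨_, hbase, mem_cube_below p b s x ?_ ?_ ?_⟩
          · rw [← ho]; exact k1
          · rw [← ho]; linarith
          · rw [← ho]; linarith
        · linarith
    · rintro ⟨p, hp, hxp⟩
      exact ⟨p, Or.inl hp, hxp⟩
  -- the map
  let Ψ : Es n ≃ₜ Es n := ((Homeomorph.addRight (-o)).trans Φ).trans (Homeomorph.addRight o)
  have hΨ : ∀ x, Ψ x = Φ (x - o) + o := by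
    intro x
    change Φ (x + -o) + o = _
    rw [sub_eq_add_neg]
  have key : ∀ x, x ∈ real (A ∪ {q}) ↔ Ψ x ∈ real A := by
    intro x
    rw [hΨ]
    by_cases hc : gB b s (x - o) < gW b s (x - o) ∧ gB b s (x - o) < 3 / 2
    · obtain ⟨c, hc0, hcz⟩ := H1 (x - o)
      have e : Φ (x - o) + o - o = Φ (x - o) := add_sub_cancel_right _ _
      rw [A2 x hc.1 hc.2, A1 (Φ (x - o) + o) (by
        rw [e, hcz, gB_smul b s c _ hc0.le, gW_smul b s c _ hc0.le]
        exact mul_lt_mul_of_pos_left hc.1 hc0) (by rw [e]; exact H5 _ hc.2), e]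
      exact H4 _
    · have hfix : gB b s (x - o) = gW b s (x - o) ∨ 3 / 2 ≤ gB b s (x - o) := by
        rcases not_and_or.mp hc with h | h
        · left; exact le_antisymm (le_max_left _ _) (not_lt.mp h)
        · right; exact not_lt.mp h
      have : Φ (x - o) = x - o := by
        rcases hfix with h | h
        · exact H2 _ h
        · exact H3 _ h
      rw [this, sub_add_cancel]
      exact A3 x hfix
  refine ⟨Ψ, ?_⟩
  ext y
  constructor
  · rintro ⟨x, hx, rfl⟩
    exact (key x).mp hx
  · intro hy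
    refine ⟨Ψ.symm y, (key _).mpr ?_, Ψ.apply_symm_apply y⟩
    rw [Ψ.apply_symm_apply]; exact hy

/-- The step lemma with the requested signature. -/
theorem pf_B5 (_hB5b : S_B5b) (_hB5c : S_B5c) (_hB5d : S_B5d) : S_B5 := B5_direct

end Pool.Agent.SM
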