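import Pool.Agent.Lib.MP_288534_co.Stm

set_option autoImplicit false

namespace Pool.Agent.SM

theorem pf_B6 (hB5 : S_B5) (hR8 : S_R8) : S_B6 := by
  intro n S q b s hq hprev hnb
  have hunion : Sᶜ ∪ {q} = (S \ {q})ᶜ := by
    ext p
    simp only [Set.mem_union, Set.mem_compl_iff, Set.mem_singleton_iff, Set.mem_diff]
    tauto
  obtain ⟨Φ, hΦ⟩ := hB5 n Sᶜ q b s (by simpa using hq) hprev
    (fun p hp h0 => by simpa using hnb p hp h0)
  refine ⟨Φ, ?_⟩
  rw [hunion] at hΦ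
  have h1 : real (S \ {q}) = closure (real (S \ {q})ᶜ)ᶜ := by
    have := hR8 n (S \ {q})ᶜ
    rwa [compl_compl] at this
  have h2 : real S = closure (real Sᶜ)ᶜ := by
    have := hR8 n Sᶜ
    rwa [compl_compl] at this
  rw [h1, h2, Φ.image_closure, Set.image_compl_eq Φ.bijective, hΦ]

end Pool.Agent.SM
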