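import Pool.Agent.Lib.MP_288534_co.Stm

/-!
# [SM B8] Attaching one tail
-/

set_option autoImplicit false

namespace Pool.Agent.SM

private lemma B8_sgsq (s : Bool) : sg s * sg s = 1 := by cases s <;> simp [sg]

private lemma B8_sgc (s : Bool) : sg s = 1 ∨ sg s = -1 := by cases s <;> simp [sg]

/-- the axis of the step at the cell `i` -/
private def B8_b {n : ℕ} (κ : Key n) (i : ℕ) : Dx n :=
  if h : i < κ.dirs.length then κ.dirs[i] else κ.a

private lemma B8_step (hK7 : S_K7) {n : ℕ} (κ : Key n) (i : ℕ) (hi : i < κ.len) (c : Dx n) :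
    κ.q (i + 1) c = κ.q i c - (if c = B8_b κ i then sg κ.s else 0) := by
  have h := hK7 n κ i hi c
  rw [h]
  have : B8_b κ i = κ.dirs[i]'hi := by
    unfold B8_b
    exact dif_pos (show i < κ.dirs.length from hi)
  rw [this]

private lemma B8_ne (hK5 : S_K5) (hK7 : S_K7) {n : ℕ} (κ : Key n) (i j : ℕ) (hij : i < j)
    (hj : j ≤ κ.len) : 1 ≤ sg κ.s * (κ.q i (B8_b κ i) - κ.q j (B8_b κ i)) := by
  have h1 := B8_step hK7 κ i (by omega) (B8_b κ i)
  rw [if_pos rfl] at h1
  have h2 := hK5 n κ (i + 1) j hij (B8_b κ i)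
  have h3 := B8_sgsq κ.s
  have : sg κ.s * (κ.q i (B8_b κ i) - κ.q j (B8_b κ i)) =
      sg κ.s * (κ.q (i + 1) (B8_b κ i) - κ.q j (B8_b κ i)) + sg κ.s * sg κ.s := by
    rw [h1]; ring
  rw [this, h3]
  linarith

private lemma B8_mega (hK3 : S_K3) {n : ℕ} (κ : Key n) (i : ℕ) (hi : i ≤ κ.len)
    (B p : Zc n) (hN : ∀ c, |(MM n * B c + κ.q i c) - p c| ≤ 1)
    (h0 : 0 ≤ sg κ.s * (p (B8_b κ i) - (MM n * B (B8_b κ i) + κ.q i (B8_b κ i)))) :
    InMega B p := by
  obtain ⟨-, h2, h3, h4⟩ := hK3 n κ i hi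
  have hKK : (1 : ℤ) ≤ KK n := by unfold KK; omega
  intro c
  have hc := hN c
  rw [abs_le] at hc ⊢
  have key : |κ.q i c| ≤ KK n - 1 → -KK n ≤ p c - MM n * B c ∧ p c - MM n * B c ≤ KK n := by
    intro hq
    rw [abs_le] at hq
    constructor <;> linarith [hq.1, hq.2, hc.1, hc.2]
  by_cases hca : c = κ.a
  · subst hca
    by_cases hl : i < κ.len
    · exact key (h3 hl)
    · have hil : i = κ.len := by omega
      subst hil
      have hb : B8_b κ κ.len = κ.a := by
        unfold B8_b
        rw [dif_neg (by simp [Key.len])]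
      rw [hb, h4] at h0
      rw [h4] at hc
      rcases B8_sgc κ.s with hs | hs
      · rw [hs] at h0 hc
        constructor <;> linarith [hc.1, hc.2]
      · rw [hs] at h0 hc
        constructor <;> linarith [hc.1, hc.2]
  · exact key (h2 c hca)

private lemma B8_inj (hK6 : S_K6) {n : ℕ} (κ : Key n) (i j : ℕ) (hij : i < j)
    (hj : j ≤ κ.len) (h : ∀ c, κ.q i c = κ.q j c) : False := by
  have h1 := hK6 n κ i j hij.le hj
  have h2 : ∑ c, |κ.q i c - κ.q j c| = 0 := by
    apply Finset.sum_eq_zero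
    intro c _
    rw [h c, sub_self, abs_zero]
  rw [h2] at h1
  have : (i : ℤ) < j := by exact_mod_cast hij
  omega

theorem pf_B8 (hB5 : S_B5) (_hK2 : S_K2) (hK3 : S_K3) (hK5 : S_K5) (hK6 : S_K6) (hK7 : S_K7)
    (_hD2 : S_D2) : S_B8 := by
  intro n A κ H1 H2 H3
  have main : ∀ k : ℕ, k ≤ κ.len + 1 → ∃ Φ : Es n ≃ₜ Es n,
      Φ '' real (A ∪ {p | ∃ j, κ.len + 1 - k ≤ j ∧ j ≤ κ.len ∧ p = κ.tail j}) = real A := by
    intro k
    induction k with
    | zero =>
      intro _
      refine ⟨Homeomorph.refl _, ?_⟩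
      have : {p : Zc n | ∃ j, κ.len + 1 - 0 ≤ j ∧ j ≤ κ.len ∧ p = κ.tail j} = ∅ := by
        ext p
        simp only [Set.mem_ofPred_eq, Set.mem_empty_iff_false, iff_false]
        rintro ⟨j, h1, h2, -⟩
        omega
      rw [this, Set.union_empty]
      simp
    | succ k ih =>
      intro hk
      obtain ⟨Φ, hΦ⟩ := ih (by omega)
      obtain ⟨i, hi⟩ : ∃ i, i = κ.len + 1 - (k + 1) := ⟨_, rfl⟩
      have hik : κ.len + 1 - k = i + 1 := by omega
      have hil : i ≤ κ.len := by omega
      rw [← hi]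
      rw [hik] at hΦ
      have hstep := hB5 n (A ∪ {p | ∃ j, i + 1 ≤ j ∧ j ≤ κ.len ∧ p = κ.tail j}) (κ.tail i)
        (B8_b κ i) κ.s ?_ ?_ ?_
      · obtain ⟨Ψ, hΨ⟩ := hstep
        refine ⟨Ψ.trans Φ, ?_⟩
        have hset : A ∪ {p | ∃ j, i ≤ j ∧ j ≤ κ.len ∧ p = κ.tail j} =
            (A ∪ {p | ∃ j, i + 1 ≤ j ∧ j ≤ κ.len ∧ p = κ.tail j}) ∪ {κ.tail i} := by
          ext p
          simp only [Set.mem_union, Set.mem_ofPred_eq, Set.mem_singleton_iff]
          constructor
          · rintro (hp | ⟨j, h1, h2, h3⟩)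
            · exact Or.inl (Or.inl hp)
            · rcases Nat.eq_or_lt_of_le h1 with h | h
              · subst h
                exact Or.inr h3
              · exact Or.inl (Or.inr ⟨j, h, h2, h3⟩)
          · rintro ((hp | ⟨j, h1, h2, h3⟩) | h)
            · exact Or.inl hp
            · exact Or.inr ⟨j, by omega, h2, h3⟩
            · exact Or.inr ⟨i, le_refl _, hil, h⟩
        rw [hset]
        have : (⇑(Ψ.trans Φ) : Es n → Es n) = ⇑Φ ∘ ⇑Ψ := rfl
        rw [this, Set.image_comp, hΨ, hΦ]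
      · -- `q ∉ A_{i+1}`
        rintro (h | ⟨j, h1, h2, h3⟩)
        · exact H1 i hil h
        · refine B8_inj hK6 κ i j h1 h2 ?_
          intro c
          have := congrFun h3 c
          simp only [Key.tail, Key.tun] at this
          linarith
      · -- the previous cell
        rcases Nat.eq_or_lt_of_le hil with h | h
        · have hb : B8_b κ i = κ.a := by
            unfold B8_b
            rw [dif_neg (by rw [h]; simp [Key.len])]
          rw [hb, h]
          exact Or.inl H2
        · refine Or.inr ⟨i + 1, le_refl _, h, ?_⟩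
          funext c
          have := B8_step hK7 κ i h c
          simp only [Key.tail, Key.tun]
          rw [this]
          ring
      · intro p hN h0 hmem
        rcases hmem with hmem | ⟨j, h1, h2, h3⟩
        · refine H3 i hil p hN ?_ hmem
          refine B8_mega hK3 κ i hil (fun c => κ.base c + κ.v c) p ?_ ?_
          · intro c
            have := hN c
            simp only [Key.tail, Key.tun] at this
            have e : MM n * (κ.base c + κ.v c) + κ.q i c - p c =
                MM n * κ.base c + κ.q i c + MM n * κ.v c - p c := by ring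
            rw [e]
            exact this
          · simp only [Key.tail, Key.tun] at h0
            have e : MM n * (κ.base (B8_b κ i) + κ.v (B8_b κ i)) + κ.q i (B8_b κ i) =
                MM n * κ.base (B8_b κ i) + κ.q i (B8_b κ i) + MM n * κ.v (B8_b κ i) := by ring
            rw [e]
            exact h0
        · have hne := B8_ne hK5 hK7 κ i j h1 h2
          have h4 : p (B8_b κ i) - κ.tail i (B8_b κ i) =
              -(κ.q i (B8_b κ i) - κ.q j (B8_b κ i)) := by
            rw [h3]
            simp only [Key.tail, Key.tun]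
            ring
          rw [h4] at h0
          linarith [mul_neg (sg κ.s) (κ.q i (B8_b κ i) - κ.q j (B8_b κ i))]
  obtain ⟨Φ, hΦ⟩ := main (κ.len + 1) (le_refl _)
  refine ⟨Φ, ?_⟩
  rw [← hΦ]
  congr 2
  ext p
  simp

end Pool.Agent.SM
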