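import Pool.Agent.Lib.MP_288534_co.Stm

set_option autoImplicit false

namespace Pool.Agent.SM

/-- the tunnel cells of a set of keys -/
def B9_T (n : ℕ) (F : Set (Key n)) : Set (Zc n) :=
  {p | ∃ κ ∈ F, ∃ j ≤ κ.len, p = κ.tun j}

theorem pf_B9 (hB7 : S_B7) (hD0 : S_D0) (hD1 : S_D1) (hD2 : S_D2) (hD5 : S_D5) (hK3 : S_K3)
    (hK8a : S_K8a) (hP3d : S_P3d) : S_B9 := by
  intro n
  have : Finite (Key n) := (hD0 n).1
  have key : ∀ F : Set (Key n), F.Finite →
      ∃ Φ : Es n ≃ₜ Es n, Φ '' real (Sol n \ B9_T n F) = real (Sol n) := by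
    intro F hF
    induction F, hF using Set.Finite.induction_on with
    | empty =>
      refine ⟨Homeomorph.refl _, ?_⟩
      have h0 : B9_T n (∅ : Set (Key n)) = ∅ := by
        ext p
        simp [B9_T]
      rw [h0, Set.sdiff_empty]
      simp
    | @insert κ F hκ _ ih =>
      obtain ⟨Φ, hΦ⟩ := ih
      have h1 : ∀ j ≤ κ.len, κ.tun j ∈ Sol n \ B9_T n F := by
        intro j hj
        refine ⟨⟨κ.base, (hK8a n κ).1, (hD2 n κ j hj).1⟩, ?_⟩
        rintro ⟨κ', hκ', j', hj', e⟩
        have := (hP3d n κ κ' j j' hj hj' e).1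
        rw [this] at hκ
        exact hκ hκ'
      have h2 : (fun c => κ.tun κ.len c - (if c = κ.a then sg κ.s else 0)) ∉
          Sol n \ B9_T n F := by
        rintro ⟨⟨c, hc, hm⟩, -⟩
        have hm2 : InMega (fun c => κ.base c - (if c = κ.a then sg κ.s else 0))
            (fun c => κ.tun κ.len c - (if c = κ.a then sg κ.s else 0)) := by
          intro i
          have hK := hK3 n κ κ.len le_rfl
          by_cases hi : i = κ.a
          · subst hi
            simp only [Key.tun, if_true]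
            rw [hK.2.2.2]
            have hMM : MM n = 2 * KK n + 1 := rfl
            have hKpos : 0 ≤ KK n := by unfold KK; positivity
            have e : MM n * κ.base κ.a + -sg κ.s * KK n - sg κ.s -
                MM n * (κ.base κ.a - sg κ.s) = sg κ.s * KK n := by
              rw [hMM]; ring
            rw [e]
            unfold sg
            cases κ.s
            · simp [abs_of_nonneg hKpos]
            · simp [abs_of_nonneg hKpos]
          · simp only [Key.tun, if_neg hi, sub_zero]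
            have e : MM n * κ.base i + κ.q κ.len i - MM n * κ.base i = κ.q κ.len i := by ring
            rw [e]
            exact hK.1 i
        obtain ⟨c0, _, hu⟩ := hD1 n (fun c => κ.tun κ.len c - (if c = κ.a then sg κ.s else 0))
        have e1 := hu _ hm
        have e2 := hu _ hm2
        apply (hK8a n κ).2.2.2
        rw [e2, ← e1]
        exact hc
      have h3 : ∀ j ≤ κ.len, ∀ p, Nb (κ.tun j) p → InMega κ.base p → p ∈ Sol n \ B9_T n F := by
        intro j hj p hN hI
        refine ⟨⟨κ.base, (hK8a n κ).1, hI⟩, ?_⟩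
        rintro ⟨κ', hκ', j', hj', e⟩
        have ht : p ∈ Tuns n := ⟨κ', j', hj', e⟩
        have hab : |p (ax n) - κ.tun j (ax n)| ≤ 1 := by
          rw [abs_sub_comm]; exact hN (ax n)
        obtain ⟨j2, hj2, e2⟩ := hD5 n κ j p hj hI hab ht
        have := (hP3d n κ κ' j2 j' hj2 hj' (e2.symm.trans e)).1
        rw [this] at hκ
        exact hκ hκ'
      obtain ⟨Ψ, hΨ⟩ := hB7 n (Sol n \ B9_T n F) κ h1 h2 h3
      have hset : (Sol n \ B9_T n F) \ {p | ∃ j ≤ κ.len, p = κ.tun j} =
          Sol n \ B9_T n (insert κ F) := by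
        ext p
        constructor
        · rintro ⟨⟨hp, hp1⟩, hp2⟩
          refine ⟨hp, ?_⟩
          rintro ⟨κ', hκ', j, hj, e⟩
          rcases Set.mem_insert_iff.mp hκ' with h | h
          · subst h
            exact hp2 ⟨j, hj, e⟩
          · exact hp1 ⟨κ', h, j, hj, e⟩
        · rintro ⟨hp, hp1⟩
          refine ⟨⟨hp, ?_⟩, ?_⟩
          · rintro ⟨κ', hκ', j, hj, e⟩
            exact hp1 ⟨κ', Set.mem_insert_of_mem _ hκ', j, hj, e⟩
          · rintro ⟨j, hj, e⟩
            exact hp1 ⟨κ, Set.mem_insert _ _, j, hj, e⟩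
      rw [hset] at hΨ
      refine ⟨Ψ.trans Φ, ?_⟩
      have hc : (⇑(Ψ.trans Φ) : Es n → Es n) = ⇑Φ ∘ ⇑Ψ := rfl
      rw [hc, Set.image_comp, hΨ, hΦ]
  obtain ⟨Φ, hΦ⟩ := key Set.univ Set.finite_univ
  refine ⟨Φ, ?_⟩
  have hT : B9_T n Set.univ = Tuns n := by
    ext p
    simp [B9_T, Tuns]
  rw [hT] at hΦ
  exact hΦ

end Pool.Agent.SM
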