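import Pool.Agent.Lib.MP_288534_co.Stm

set_option autoImplicit false

namespace Pool.Agent.SM

private lemma C1a_mega_unique {n : ℕ} {c c' p : Zc n} (h : InMega c p) (h' : InMega c' p) :
    c = c' := by
  funext i
  have h1 := abs_le.mp (h i)
  have h2 := abs_le.mp (h' i)
  have hK : (0 : ℤ) ≤ KK n := by unfold KK; positivity
  have hM : MM n = 2 * KK n + 1 := rfl
  have hMpos : (0 : ℤ) < MM n := by rw [hM]; linarith
  rcases lt_trichotomy (c i) (c' i) with hlt | heq | hgt
  · exfalso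
    have : MM n * (c i + 1) ≤ MM n * c' i :=
      mul_le_mul_of_nonneg_left (by linarith) hMpos.le
    rw [mul_add, mul_one] at this
    linarith [h1.1, h1.2, h2.1, h2.2]
  · exact heq
  · exfalso
    have : MM n * (c' i + 1) ≤ MM n * c i :=
      mul_le_mul_of_nonneg_left (by linarith) hMpos.le
    rw [mul_add, mul_one] at this
    linarith [h1.1, h1.2, h2.1, h2.2]

private lemma C1a_sg (s : Bool) : |sg s| = 1 ∧ sg s ≠ 0 := by
  cases s <;> simp [sg]

private lemma C1a_step {n : ℕ} (hK7 : S_K7) (κ : Key n) (j : ℕ) (hj : j < κ.len) :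
    Nb (κ.tail j) (κ.tail (j + 1)) ∧ Nb (κ.tail (j + 1)) (κ.tail j) := by
  have key : ∀ c, |κ.tail j c - κ.tail (j + 1) c| ≤ 1 := by
    intro c
    have := hK7 n κ j hj c
    have e : κ.tail j c - κ.tail (j + 1) c = (if c = κ.dirs[j] then sg κ.s else 0) := by
      simp only [Key.tail, Key.tun]
      rw [this]
      ring
    rw [e]
    split
    · rw [(C1a_sg κ.s).1]
    · simp
  refine ⟨key, fun c => ?_⟩
  rw [abs_sub_comm]
  exact key c

private lemma C1a_ne {n : ℕ} (hK6 : S_K6) (κ : Key n) (i j : ℕ) (hij : i < j) (hj : j ≤ κ.len) :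
    κ.tail i ≠ κ.tail j := by
  intro h
  have h6 := hK6 n κ i j hij.le hj
  have h0 : ∑ c, |κ.q i c - κ.q j c| = 0 := by
    apply Finset.sum_eq_zero
    intro c _
    have := congrFun h c
    simp only [Key.tail, Key.tun] at this
    have e : κ.q i c - κ.q j c = 0 := by linarith
    rw [e, abs_zero]
  rw [h0] at h6
  have : (i : ℤ) < j := by exact_mod_cast hij
  linarith

theorem pf_C1a (hD3 : S_D3) (hD2 : S_D2) (hK7 : S_K7) (hK8a : S_K8a) (hK9 : S_K9)
    (hK6 : S_K6) : S_C1a := by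
  intro n κ j hj1 hjl
  have _ := hD3
  have tailmem : ∀ i ≤ κ.len, κ.tail i ∈ SS n := fun i hi => Or.inr ⟨κ, i, hi, rfl⟩
  obtain ⟨i, rfl⟩ : ∃ i, j = i + 1 := ⟨j - 1, by omega⟩
  rcases lt_or_eq_of_le hjl with hlt | heq
  · refine ⟨κ.tail i, κ.tail (i + 1 + 1), C1a_ne hK6 κ i (i + 1 + 1) (by omega) (by omega),
      C1a_ne hK6 κ i (i + 1) (by omega) (by omega),
      (C1a_ne hK6 κ (i + 1) (i + 1 + 1) (by omega) (by omega)).symm,
      tailmem _ (by omega), tailmem _ (by omega), (C1a_step hK7 κ i (by omega)).2,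
      (C1a_step hK7 κ (i + 1) (by omega)).1⟩
  · have h9 := hK9 n κ
    rw [← heq] at h9
    refine ⟨κ.tail i, (fun c => κ.tail (i + 1) c - (if c = κ.a then sg κ.s else 0)), ?_,
      C1a_ne hK6 κ i (i + 1) (by omega) (by omega), ?_,
      tailmem _ (by omega), Or.inl h9, (C1a_step hK7 κ i (by omega)).2, ?_⟩
    · intro h
      obtain ⟨c, hc, hcm⟩ := h9.1
      have h2 := (hD2 n κ i (by omega)).2
      rw [← h] at hcm
      have := C1a_mega_unique h2 hcm
      exact (hK8a n κ).2.1 (this ▸ hc)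
    · intro h
      have := congrFun h κ.a
      simp only [if_true] at this
      exact (C1a_sg κ.s).2 (by linarith)
    · intro c
      simp only [sub_sub_cancel]
      split
      · rw [(C1a_sg κ.s).1]
      · simp

end Pool.Agent.SM
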