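import Pool.Agent.Lib.MP_288534_co.Stm

set_option autoImplicit false

namespace Pool.Agent.SM

/-- a neighbour in the direction `i` -/
private def C1b_up {n : ℕ} (r : Zc n) (i : Dx n) (t : ℤ) : Zc n := Function.update r i (r i + t)

private theorem C1b_up_self {n : ℕ} (r : Zc n) (i : Dx n) (t : ℤ) : C1b_up r i t i = r i + t :=
  Function.update_self _ _ _

private theorem C1b_up_ne {n : ℕ} (r : Zc n) {i j : Dx n} (h : j ≠ i) (t : ℤ) :
    C1b_up r i t j = r j :=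
  Function.update_of_ne h _ _

private theorem C1b_mega {n : ℕ} {c r : Zc n} {i : Dx n} {t : ℤ} (hr : InMega c r)
    (hi : |r i + t - MM n * c i| ≤ KK n) : InMega c (C1b_up r i t) := by
  intro l
  by_cases h : l = i
  · subst h
    rw [C1b_up_self]
    exact hi
  · rw [C1b_up_ne r h]
    exact hr l

private theorem C1b_nb {n : ℕ} (r : Zc n) (i l : Dx n) (t : ℤ) (ht : t = 1 ∨ t = -1) :
    |C1b_up r i t l - r l| ≤ 1 := by
  by_cases h : l = i
  · subst h
    rw [C1b_up_self]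
    rcases ht with rfl | rfl
    · rw [add_sub_cancel_left]
      norm_num
    · rw [add_sub_cancel_left]
      norm_num
  · rw [C1b_up_ne r h, sub_self]
    norm_num

private theorem C1b_sg (s : Bool) : sg s = 1 ∨ sg s = -1 := by
  cases s <;> simp [sg]

private theorem C1b_pair (hD1 : S_D1) (hD2 : S_D2) (hD3 : S_D3) (hD5 : S_D5) (hK5 : S_K5)
    {n : ℕ} {c r : Zc n} {i j : Dx n} (hij : i ≠ j) {δ : ℤ} (hδ : δ = 1 ∨ δ = -1)
    (hc : c ∈ PP n) (hA : InMega c (C1b_up r i δ)) (hB : InMega c (C1b_up r j δ)) :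
    ∃ l, (l = i ∨ l = j) ∧ C1b_up r l δ ∈ SS n := by
  by_contra hcon
  have hA' : C1b_up r i δ ∈ Tuns n := by
    by_contra h
    exact hcon ⟨i, Or.inl rfl, ((hD3 n c _ hA).1 hc).mpr h⟩
  have hB' : C1b_up r j δ ∈ Tuns n := by
    by_contra h
    exact hcon ⟨j, Or.inr rfl, ((hD3 n c _ hB).1 hc).mpr h⟩
  obtain ⟨κ, j1, hj1, e1⟩ := hA'
  have hbase : κ.base = c := by
    have h1 := (hD2 n κ j1 hj1).1
    rw [← e1] at h1
    exact (hD1 n _).unique h1 hA
  have hax : |C1b_up r j δ (ax n) - κ.tun j1 (ax n)| ≤ 1 := by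
    rw [← e1]
    by_cases h1 : ax n = i
    · have h2 : ax n ≠ j := fun h => hij (h1.symm.trans h)
      rw [C1b_up_ne r h2, h1, C1b_up_self]
      rcases hδ with rfl | rfl <;> rw [abs_le] <;> constructor <;> linarith
    · rw [C1b_up_ne r h1]
      exact C1b_nb r j (ax n) δ hδ
  obtain ⟨j2, hj2, e2⟩ := hD5 n κ j1 _ hj1 (hbase ▸ hB) hax hB'
  -- differences of coordinates
  have hdiff : ∀ x, C1b_up r i δ x - C1b_up r j δ x = κ.q j1 x - κ.q j2 x := by
    intro x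
    rw [e1, e2]
    show (MM n * κ.base x + κ.q j1 x) - (MM n * κ.base x + κ.q j2 x) = _
    ring
  have hi := hdiff i
  rw [C1b_up_self, C1b_up_ne r hij] at hi
  have hj := hdiff j
  rw [C1b_up_self, C1b_up_ne r hij.symm] at hj
  rcases le_total j1 j2 with h | h
  · have k1 := hK5 n κ j1 j2 h i
    have k2 := hK5 n κ j1 j2 h j
    rw [← hi] at k1
    rw [← hj] at k2
    rcases C1b_sg κ.s with hs | hs <;> rw [hs] at k1 k2 <;> rcases hδ with rfl | rfl <;>
      linarith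
  · have k1 := hK5 n κ j2 j1 h i
    have k2 := hK5 n κ j2 j1 h j
    have k1' : 0 ≤ sg κ.s * (-(κ.q j1 i - κ.q j2 i)) := by
      rw [neg_sub]
      exact k1
    have k2' : 0 ≤ sg κ.s * (-(κ.q j1 j - κ.q j2 j)) := by
      rw [neg_sub]
      exact k2
    rw [← hi] at k1'
    rw [← hj] at k2'
    rcases C1b_sg κ.s with hs | hs <;> rw [hs] at k1' k2' <;> rcases hδ with rfl | rfl <;>
      linarith

private theorem C1b_main (hD1 : S_D1) (hD2 : S_D2) (hD3 : S_D3) (hD5 : S_D5) (hK5 : S_K5)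
    {n : ℕ} {c p : Zc n} {i j k : Dx n} (hij : i ≠ j) (hik : i ≠ k) (hjk : j ≠ k) {δ ε : ℤ}
    (hδ : δ = 1 ∨ δ = -1) (hε : ε = 1 ∨ ε = -1) (hc : c ∈ PP n) (hp : InMega c p)
    (h1 : |p i + δ - MM n * c i| ≤ KK n) (h2 : |p j + δ - MM n * c j| ≤ KK n)
    (h3 : |p k + ε - MM n * c k| ≤ KK n) :
    ∃ p1 p2 : Zc n, p1 ≠ p2 ∧ p1 ≠ p ∧ p2 ≠ p ∧ p1 ∈ SS n ∧ p2 ∈ SS n ∧ Nb p p1 ∧ Nb p p2 := by
  obtain ⟨l, hl, hlS⟩ := C1b_pair hD1 hD2 hD3 hD5 hK5 hij hδ hc (C1b_mega hp h1) (C1b_mega hp h2)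
  set r := C1b_up p k ε with hr
  have hrm : InMega c r := C1b_mega hp h3
  have hri : r i = p i := C1b_up_ne p hik ε
  have hrj : r j = p j := C1b_up_ne p hjk ε
  have hrk : r k = p k + ε := C1b_up_self p k ε
  obtain ⟨l', hl', hlS'⟩ := C1b_pair (r := r) hD1 hD2 hD3 hD5 hK5 hij hδ hc
    (C1b_mega hrm (by rw [hri]; exact h1)) (C1b_mega hrm (by rw [hrj]; exact h2))
  have hlk : k ≠ l := by
    rcases hl with rfl | rfl
    · exact hik.symm
    · exact hjk.symm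
  have hlk' : k ≠ l' := by
    rcases hl' with rfl | rfl
    · exact hik.symm
    · exact hjk.symm
  have e1 : C1b_up p l δ k = p k := C1b_up_ne p hlk δ
  have e2 : C1b_up r l' δ k = p k + ε := by
    rw [C1b_up_ne r hlk', hrk]
  have hε0 : ε ≠ 0 := by
    rcases hε with rfl | rfl <;> norm_num
  have hδ0 : δ ≠ 0 := by
    rcases hδ with rfl | rfl <;> norm_num
  refine ⟨C1b_up p l δ, C1b_up r l' δ, ?_, ?_, ?_, hlS, hlS', ?_, ?_⟩
  · intro h
    have := congrFun h k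
    rw [e1, e2] at this
    omega
  · intro h
    have := congrFun h l
    rw [C1b_up_self] at this
    omega
  · intro h
    have := congrFun h k
    rw [e2] at this
    omega
  · intro x
    rw [abs_sub_comm]
    exact C1b_nb p l x δ hδ
  · intro x
    rw [abs_sub_comm]
    by_cases hx : x = k
    · subst hx
      rw [e2, add_sub_cancel_left]
      rcases hε with rfl | rfl <;> norm_num
    · have : r x = p x := C1b_up_ne p hx ε
      rw [← this]
      exact C1b_nb r l' x δ hδ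

private theorem C1b_delta {n : ℕ} {c p : Zc n} (hp : InMega c p) (i : Dx n) :
    (|p i + 1 - MM n * c i| ≤ KK n) ∨ (|p i + (-1) - MM n * c i| ≤ KK n) := by
  have h := abs_le.mp (hp i)
  have hK : 1 ≤ KK n := by
    unfold KK
    have : (0 : ℤ) ≤ n := Int.natCast_nonneg n
    linarith
  by_cases h0 : 0 < p i - MM n * c i
  · right
    rw [abs_le]
    constructor <;> linarith [h.1, h.2]
  · left
    rw [abs_le]
    constructor <;> linarith [h.1, h.2]

theorem pf_C1b (hD1 : S_D1) (hD2 : S_D2) (hD3 : S_D3) (hD5 : S_D5) (hK5 : S_K5) : S_C1b := by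
  intro n p hp _
  obtain ⟨c, hc, hpm⟩ := hp
  have hxy : ax n ≠ ay n := by
    intro h
    have := congrArg Fin.val h
    simp at this
  have hxz : ax n ≠ az n := by
    intro h
    have := congrArg Fin.val h
    simp at this
  have hyz : ay n ≠ az n := by
    intro h
    have := congrArg Fin.val h
    simp at this
  have o1 : (1 : ℤ) = 1 ∨ (1 : ℤ) = -1 := Or.inl rfl
  have o2 : (-1 : ℤ) = 1 ∨ (-1 : ℤ) = -1 := Or.inr rfl
  rcases C1b_delta hpm (ax n) with h1 | h1 <;> rcases C1b_delta hpm (ay n) with h2 | h2 <;>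
    rcases C1b_delta hpm (az n) with h3 | h3
  · exact C1b_main hD1 hD2 hD3 hD5 hK5 hxy hxz hyz o1 o1 hc hpm h1 h2 h3
  · exact C1b_main hD1 hD2 hD3 hD5 hK5 hxy hxz hyz o1 o2 hc hpm h1 h2 h3
  · exact C1b_main hD1 hD2 hD3 hD5 hK5 hxz hxy hyz.symm o1 o2 hc hpm h1 h3 h2
  · exact C1b_main hD1 hD2 hD3 hD5 hK5 hyz hxy.symm hxz.symm o2 o1 hc hpm h2 h3 h1
  · exact C1b_main hD1 hD2 hD3 hD5 hK5 hyz hxy.symm hxz.symm o1 o2 hc hpm h2 h3 h1
  · exact C1b_main hD1 hD2 hD3 hD5 hK5 hxz hxy hyz.symm o2 o1 hc hpm h1 h3 h2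
  · exact C1b_main hD1 hD2 hD3 hD5 hK5 hxy hxz hyz o2 o1 hc hpm h1 h2 h3
  · exact C1b_main hD1 hD2 hD3 hD5 hK5 hxy hxz hyz o2 o2 hc hpm h1 h2 h3

end Pool.Agent.SM
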