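import Pool.Agent.Lib.MP_288534_co.Stm

/-! Piece C2 (helper88): neighbours of the last cell of a tunnel. -/

set_option autoImplicit false

namespace Pool.Agent.SM

private theorem C2_sg (s : Bool) : |sg s| = 1 := by
  cases s <;> simp [sg]

theorem pf_C2 (hD2 : S_D2) (hD3 : S_D3) (hD5 : S_D5) (hK2 : S_K2) (hK3 : S_K3)
    (hK8a : S_K8a) : S_C2 := by
  intro n κ
  have hrun2 : 2 ≤ κ.run := by unfold Key.run; omega
  have hlen : κ.run + 2 ≤ κ.len := (hK2 n κ 0 (Nat.zero_le _)).2.2.2.2.2
  have hbase : κ.base ∈ PP n := (hK8a n κ).1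
  refine ⟨fun j hj hmem => ?_, fun p hNb hp => ?_⟩
  · have h1 := ((hD3 n κ.base (κ.tun j) (hD2 n κ j hj).1).1 hbase).1 hmem
    exact h1 ⟨κ, j, hj, rfl⟩
  · have h0 : ∀ c, |κ.q 0 c| ≤ KK n - 1 := by
      intro c
      obtain ⟨_, h2, h3, _⟩ := hK3 n κ 0 (Nat.zero_le _)
      by_cases hc : c = κ.a
      · rw [hc]; exact h3 (by omega)
      · exact h2 c hc
    have htun : ∀ c, κ.tun 0 c = MM n * κ.base c + κ.q 0 c := fun c => rfl
    have hmega : InMega κ.base p := by
      intro i
      have h1 := h0 i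
      have h2 := hNb i
      rw [htun] at h2
      rw [abs_le] at *
      constructor
      · linarith [h1.1, h2.2]
      · linarith [h1.2, h2.1]
    have hT : p ∈ Tuns n := by
      by_contra hT
      exact hp (((hD3 n κ.base p hmega).1 hbase).2 hT)
    have hx : |p (ax n) - κ.tun 0 (ax n)| ≤ 1 := by
      rw [abs_sub_comm]; exact hNb _
    obtain ⟨j', hj', hpj⟩ := hD5 n κ 0 p (Nat.zero_le _) hmega hx hT
    by_cases h2 : 2 ≤ j'
    · exfalso
      obtain ⟨_, _, k1, k2, k3, _⟩ := hK2 n κ j' hj'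
      have hcount : 2 ≤ (κ.dirs.take j').count κ.a := by
        by_cases c1 : j' ≤ κ.run
        · rw [k1 c1]; exact h2
        · by_cases c2 : j' < κ.len
          · rw [k2 (by omega) c2]; exact hrun2
          · rw [k3 (by omega)]; omega
      have h3 := hNb κ.a
      rw [hpj] at h3
      have h4 : κ.tun 0 κ.a - κ.tun j' κ.a =
          sg κ.s * ((κ.dirs.take j').count κ.a : ℤ) := by
        unfold Key.tun Key.q
        simp only [List.take_zero, List.count_nil, Nat.cast_zero, mul_zero, sub_zero]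
        ring
      rw [h4, abs_mul, C2_sg, one_mul, Nat.abs_cast] at h3
      have h5 : (2 : ℤ) ≤ ((κ.dirs.take j').count κ.a : ℤ) := by exact_mod_cast hcount
      linarith
    · have h3 : j' = 0 ∨ j' = 1 := by omega
      rcases h3 with h3 | h3
      · left; rw [hpj, h3]
      · right; rw [hpj, h3]

end Pool.Agent.SM
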