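import Pool.Agent.Lib.MP_288534_co.Stm

set_option autoImplicit false

namespace Pool.Agent.SM

private theorem C4_inj {n : ℕ} (g : CIso n) : Function.Injective g.act := by
  intro p p' h
  funext i
  have h1 := congrFun h (g.π.symm i)
  simp only [CIso.act, Equiv.apply_symm_apply] at h1
  rcases g.hε (g.π.symm i) with e | e <;> rw [e] at h1 <;> linarith

private theorem C4_nb {n : ℕ} (g : CIso n) {p p' : Zc n} (h : Nb p p') :
    Nb (g.act p) (g.act p') := by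
  intro i
  have h1 := h (g.π i)
  simp only [CIso.act]
  rw [abs_le] at h1 ⊢
  rcases g.hε i with e | e <;> rw [e] <;> constructor <;> linarith [h1.1, h1.2]

theorem pf_C4 (hC1a : S_C1a) (hC1b : S_C1b) (hC2 : S_C2) (hC4a : S_C4a) (hC4b : S_C4b) :
    S_C4 := by
  rintro n g κ hd ⟨p, hp, hpe⟩
  have key : ∀ p1 p2 : Zc n, p1 ≠ p2 → p1 ≠ p → p2 ≠ p → p1 ∈ SS n → p2 ∈ SS n →
      Nb p p1 → Nb p p2 → False := by
    have h1 : ∀ p1 : Zc n, p1 ≠ p → p1 ∈ SS n → Nb p p1 → g.act p1 = κ.tun 1 := by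
      intro p1 hne h1 hnb
      have hn : Nb (κ.tun 0) (g.act p1) := by
        rw [← hpe]; exact C4_nb g hnb
      have hnot : g.act p1 ∉ SS n := fun h =>
        (Set.disjoint_left.1 hd) (Set.mem_image_of_mem _ h1) h
      rcases (hC2 n κ).2 _ hn hnot with h | h
      · rw [← hpe] at h
        exact absurd (C4_inj g h) hne
      · exact h
    intro p1 p2 h12 h1p h2p hm1 hm2 hn1 hn2
    exact h12 (C4_inj g ((h1 p1 h1p hm1 hn1).trans (h1 p2 h2p hm2 hn2).symm))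
  rcases hp with ⟨hs, hnt⟩ | ⟨κ', j, hj, rfl⟩
  · obtain ⟨p1, p2, h12, h1p, h2p, hm1, hm2, hn1, hn2⟩ := hC1b n p hs hnt
    exact (key p1 p2 h12 h1p h2p hm1 hm2 hn1 hn2).elim
  · rcases Nat.eq_zero_or_pos j with rfl | hpos
    · have h := hC4b n g κ κ' (hC4a n g κ κ' hd hpe)
      exact ⟨κ', h.1, h.2.1, h.2.2.1, h.2.2.2, hpe⟩
    · obtain ⟨p1, p2, h12, h1p, h2p, hm1, hm2, hn1, hn2⟩ := hC1a n κ' j hpos hj
      exact (key p1 p2 h12 h1p h2p hm1 hm2 hn1 hn2).elim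

end Pool.Agent.SM
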