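import Pool.Agent.Lib.MP_288534_co.Stm

/-!
# MP_288534_co : piece [SM C4a]
-/

set_option autoImplicit false

namespace Pool.Agent.SM

private theorem C4a_inj {n : ℕ} (g : CIso n) (p p' : Zc n) (h : g.act p = g.act p') : p = p' := by
  funext c
  have h1 := congrFun h (g.π.symm c)
  simp only [CIso.act, Equiv.apply_symm_apply] at h1
  rcases g.hε (g.π.symm c) with e | e <;> rw [e] at h1 <;> linarith

private theorem C4a_sum {n : ℕ} (g : CIso n) (p p' : Zc n) :
    ∑ i, |g.act p i - g.act p' i| = ∑ i, |p i - p' i| := by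
  rw [← Equiv.sum_comp g.π (fun i => |p i - p' i|)]
  refine Finset.sum_congr rfl fun i _ => ?_
  simp only [CIso.act]
  rcases g.hε i with e | e <;> rw [e]
  · congr 1; ring
  · rw [← abs_neg]; congr 1; ring

private theorem C4a_tail {n : ℕ} (κ : Key n) (i j : ℕ) (c : Dx n) :
    κ.tail i c - κ.tail j c = κ.q i c - κ.q j c := by
  simp only [Key.tail, Key.tun]; ring

theorem pf_C4a (_hC2 : S_C2) (hC3 : S_C3) (hK6 : S_K6) (_hK7 : S_K7) : S_C4a := by
  intro n g κ κ' hdis h0 j
  induction j using Nat.strong_induction_on with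
  | _ j ih =>
    intro hj hj'
    rcases Nat.eq_zero_or_pos j with rfl | hpos
    · exact h0
    · obtain ⟨m, rfl⟩ : ∃ m, j = m + 1 := ⟨j - 1, by omega⟩
      have em : g.act (κ'.tail m) = κ.tun m := ih m (by omega) (by omega) (by omega)
      have hS : g.act (κ'.tail (m + 1)) ∉ SS n := by
        intro hc
        refine Set.disjoint_left.mp hdis ⟨κ'.tail (m + 1), ?_, rfl⟩ hc
        exact Or.inr ⟨κ', m + 1, hj', rfl⟩
      have hF : Fadj (κ.tun m) (g.act (κ'.tail (m + 1))) := by
        unfold Fadj
        rw [← em, C4a_sum]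
        simp only [C4a_tail]
        rw [hK6 n κ' m (m + 1) (by omega) hj']
        push_cast; ring
      rcases hC3 n κ m _ (by omega) hF hS with e | ⟨hm, e⟩
      · exact e
      · exfalso
        have e1 : g.act (κ'.tail (m - 1)) = κ.tun (m - 1) :=
          ih (m - 1) (by omega) (by omega) (by omega)
        have e2 : κ'.tail (m + 1) = κ'.tail (m - 1) := C4a_inj g _ _ (by rw [e, e1])
        have e3 := hK6 n κ' (m - 1) (m + 1) (by omega) hj'
        have e4 : ∑ c, |κ'.q (m - 1) c - κ'.q (m + 1) c| = 0 := by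
          refine Finset.sum_eq_zero fun c _ => ?_
          rw [← C4a_tail, e2, sub_self, abs_zero]
        rw [e4] at e3
        push_cast at e3
        omega

end Pool.Agent.SM
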