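import Pool.Agent.Lib.MP_288534_co.Stm

/-!
# MP_288534_co : piece [SM C4b]
-/

set_option autoImplicit false

namespace Pool.Agent.SM

private theorem C4b_len {n : ℕ} (κ : Key n) : κ.dirs.length = κ.len := rfl

private theorem C4b_len' {n : ℕ} (κ : Key n) :
    κ.len = κ.run + (lats κ.a).length + 1 := by
  simp [Key.len, Key.dirs, add_assoc]

private theorem C4b_lt {n : ℕ} (κ : Key n) (j : ℕ) (hj : j < κ.run) (h : j < κ.dirs.length) :
    κ.dirs[j] = κ.a := by
  simp only [Key.dirs, List.append_assoc]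
  rw [List.getElem_append_left (by simpa using hj)]
  simp

private theorem C4b_eq {n : ℕ} (κ : Key n) (hne : lats κ.a ≠ []) (h : κ.run < κ.dirs.length) :
    κ.dirs[κ.run] ∈ lats κ.a := by
  have hl : 0 < (lats κ.a).length := List.length_pos_iff.mpr hne
  simp only [Key.dirs, List.append_assoc]
  rw [List.getElem_append_right (by simp)]
  simp only [List.length_replicate, Nat.sub_self]
  rw [List.getElem_append_left hl]
  exact List.getElem_mem _

private theorem C4b_sg {s : Bool} : sg s = 1 ∨ sg s = -1 := by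
  cases s <;> simp [sg]

private theorem C4b_step (hK7 : S_K7) {n : ℕ} (g : CIso n) (κ κ' : Key n)
    (H : ∀ j, j ≤ κ.len → j ≤ κ'.len → g.act (κ'.tail j) = κ.tun j) (j : ℕ)
    (hj : j < κ.dirs.length) (hj' : j < κ'.dirs.length) :
    g.π (κ.dirs[j]) = κ'.dirs[j] ∧ g.ε (κ.dirs[j]) = sg κ.s * sg κ'.s := by
  have e0 := congrFun (H j (le_of_lt hj) (le_of_lt hj')) (κ.dirs[j])
  have e1 := congrFun (H (j + 1) hj hj') (κ.dirs[j])
  have k1 := hK7 n κ j hj (κ.dirs[j])
  have k2 := hK7 n κ' j hj' (g.π (κ.dirs[j]))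
  simp only [CIso.act, Key.tail, Key.tun] at e0 e1
  rw [if_pos rfl] at k1
  rw [k1, k2] at e1
  have e2 : g.ε (κ.dirs[j]) * (if g.π (κ.dirs[j]) = κ'.dirs[j] then sg κ'.s else 0) =
      sg κ.s := by linear_combination e0 - e1
  by_cases hc : g.π (κ.dirs[j]) = κ'.dirs[j]
  · rw [if_pos hc] at e2
    refine ⟨hc, ?_⟩
    have h2 : sg κ'.s * sg κ'.s = 1 := by rcases C4b_sg (s := κ'.s) with e | e <;> rw [e] <;> rfl
    linear_combination (sg κ'.s) * e2 - (g.ε (κ.dirs[j])) * h2
  · exfalso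
    rw [if_neg hc, mul_zero] at e2
    rcases C4b_sg (s := κ.s) with e | e <;> omega

theorem pf_C4b (hK1 : S_K1) (_hK2 : S_K2) (hK7 : S_K7) : S_C4b := by
  intro n g κ κ' H
  have L := C4b_len' κ
  have L' := C4b_len' κ'
  have l0 : 0 < (lats κ.a).length := List.length_pos_iff.mpr (hK1 n κ.a).2.2.1
  have l0' : 0 < (lats κ'.a).length := List.length_pos_iff.mpr (hK1 n κ'.a).2.2.1
  have st := C4b_step hK7 g κ κ' H
  have r0 : 0 < κ.run := by simp [Key.run]
  have r0' : 0 < κ'.run := by simp [Key.run]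
  have s0 := (st 0 (by rw [C4b_len]; omega) (by rw [C4b_len]; omega)).1
  rw [C4b_lt κ 0 r0, C4b_lt κ' 0 r0'] at s0
  have hr : κ.run = κ'.run := by
    rcases lt_trichotomy κ.run κ'.run with hlt | heq | hgt
    · exfalso
      have s1 := (st κ.run (by rw [C4b_len]; omega) (by rw [C4b_len]; omega)).1
      have m1 := C4b_eq κ (hK1 n κ.a).2.2.1 (by rw [C4b_len]; omega)
      rw [C4b_lt κ' κ.run hlt, ← s0] at s1
      have := g.π.injective s1
      rw [this] at m1
      exact (hK1 n κ.a).1 m1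
    · exact heq
    · exfalso
      have s1 := (st κ'.run (by rw [C4b_len]; omega) (by rw [C4b_len]; omega)).1
      have m1 := C4b_eq κ' (hK1 n κ'.a).2.2.1 (by rw [C4b_len]; omega)
      rw [C4b_lt κ κ'.run hgt, s0] at s1
      rw [← s1] at m1
      exact (hK1 n κ'.a).1 m1
  have hidx : κ.idx = κ'.idx := by
    simp only [Key.run] at hr; omega
  have has : κ'.a = κ.a ∧ κ'.s = κ.s := by
    simp only [Key.idx] at hidx
    constructor
    · apply Fin.ext
      split_ifs at hidx <;> omega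
    · cases h1 : κ.s <;> cases h2 : κ'.s <;> rw [h1, h2] at hidx <;> simp at hidx ⊢ <;> omega
  have hD : κ'.dirs = κ.dirs := by
    simp only [Key.dirs, has.1, hr]
  have key : ∀ c ∈ κ.dirs, g.π c = c ∧ g.ε c = 1 := by
    intro c hc
    obtain ⟨j, hj, rfl⟩ := List.getElem_of_mem hc
    have := st j hj (by rw [hD]; exact hj)
    simp only [hD] at this
    refine ⟨this.1, ?_⟩
    rw [this.2, has.2]
    rcases C4b_sg (s := κ.s) with e | e <;> rw [e] <;> rfl
  have hmem : ∀ c : Dx n, (κ.a.val ≠ 2 ∨ c.val ≠ 0) → c ∈ κ.dirs := by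
    intro c hc
    simp only [Key.dirs, List.mem_append, List.mem_replicate, List.mem_singleton]
    by_cases hca : c = κ.a
    · exact Or.inr hca
    · refine Or.inl (Or.inr (((hK1 n κ.a).2.2.2 c).mpr ⟨hca, ?_⟩))
      rintro ⟨h1, h2⟩
      rcases hc with h | h
      · exact h h1
      · exact h h2
  refine ⟨has.1, has.2, ?_, fun c hc => (key c (hmem c hc)).2⟩
  intro c
  by_cases hc : κ.a.val ≠ 2 ∨ c.val ≠ 0
  · exact (key c (hmem c hc)).1
  · push Not at hc
    by_contra hne
    have h1 : g.π c ∈ κ.dirs := by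
      apply hmem
      right
      intro h0
      apply hne
      apply Fin.ext
      rw [h0, hc.2]
    have h2 := (key _ h1).1
    exact hne (g.π.injective h2)

end Pool.Agent.SM
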