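import Pool.Agent.Lib.MP_288534_co.Stm

set_option autoImplicit false

namespace Pool.Agent.SM

private theorem C5_q0 {n : ℕ} (κ : Key n) (c : Dx n) : κ.q 0 c = κ.leaf c := by
  simp [Key.q]

private theorem C5_b {n : ℕ} {g : CIso n} {κ κ' : Key n} (hπ : ∀ c, g.π c = c)
    (h : g.act (κ'.tail 0) = κ.tun 0) (c : Dx n) :
    g.ε c * (MM n * κ'.base c + κ'.leaf c + MM n * κ'.v c) + g.b c =
      MM n * κ.base c + κ.leaf c := by
  have h1 := congrFun h c
  simp only [CIso.act, Key.tail, Key.tun, hπ, C5_q0] at h1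
  exact h1

theorem pf_C5 : S_C5 := by
  intro n g κ κ' ha hs hπ hε hact
  by_cases h2 : κ.a.val = 2
  · -- the axis `z`
    have hb0 : g.b (ax n) = MM n * (2 * ((κ.B.val : ℤ) - g.ε (ax n) * (κ'.B.val : ℤ))) := by
      have h := C5_b hπ hact (ax n)
      have ha2 : κ'.a.val = 2 := by rw [ha]; exact h2
      have n0 : ax n ≠ κ.a := fun e => by rw [← e] at h2; simp at h2
      have n0' : ax n ≠ κ'.a := by rw [ha]; exact n0
      simp only [Key.base, Key.leaf, Key.v, n0, n0', h2, ha2, if_true, if_false,
        show ¬ ((2 : ℕ) = 0) by decide, show ¬ ((0 : ℕ) = 1) by decide,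
        show ¬ ((0 : ℕ) = 2) by decide, show ¬ ((2 : ℕ) = 1) by decide, and_self] at h
      linear_combination h
    have hb : ∀ c : Dx n, c.val ≠ 0 → g.b c = - (MM n * κ.v c) := by
      intro c hc
      have h := C5_b hπ hact c
      rw [hε c (Or.inr hc)] at h
      have e1 : κ'.base c = κ.base c := by
        simp only [Key.base, ha, hs, hc, if_false]
      have e2 : κ'.leaf c = κ.leaf c := by
        simp only [Key.leaf, Key.run, Key.idx, Key.off, ha, hs]
      have e3 : κ'.v c = κ.v c := by
        simp only [Key.v, ha, hs]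
      rw [e1, e2, e3] at h
      linear_combination h
    have hsg : sg (decide (g.ε (ax n) = 1)) = g.ε (ax n) := by
      rcases g.hε (ax n) with e | e <;> rw [e] <;> rfl
    refine ⟨⟨decide (g.ε (ax n) = 1), fun i => if i.val = 0 then
      2 * ((κ.B.val : ℤ) - g.ε (ax n) * (κ'.B.val : ℤ)) else - κ.v i⟩, ⟨fun h => absurd h2 h,
      fun _ => ⟨⟨κ'.B, ?_⟩, ?_⟩⟩, ?_⟩
    · simp only [if_true, hsg]
    · intro i hi
      simp only [hi, if_false]
    · intro h hh x i
      rw [hh x i, hπ i]
      by_cases hi : i.val = 0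
      · have : i = ax n := Fin.ext hi
        subst this
        simp only [if_true, hsg, hb0]
        push_cast
        ring
      · simp only [hi, if_false, hb i hi, hε i (Or.inr hi)]
        push_cast
        ring
  · -- the other axes
    have hκ : κ' = κ := by
      have e1 : κ.B = 0 := κ.hB h2
      have e2 : κ'.B = 0 := κ'.hB (by rw [ha]; exact h2)
      rcases κ with ⟨a, s, B, hB⟩
      rcases κ' with ⟨a', s', B', hB'⟩
      simp only at ha hs e1 e2
      subst ha hs e1 e2
      rfl
    subst hκ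
    have hb : ∀ c : Dx n, g.b c = - (MM n * κ'.v c) := by
      intro c
      have h := C5_b hπ hact c
      rw [hε c (Or.inl h2)] at h
      linear_combination h
    refine ⟨⟨true, fun i => - κ'.v i⟩, ⟨fun _ => ⟨rfl, fun _ => rfl⟩, fun h => absurd h h2⟩, ?_⟩
    intro h hh x i
    rw [hh x i, hπ i, hb i, hε i (Or.inl h2)]
    simp only [sg, if_true]
    split_ifs <;> push_cast <;> ring

end Pool.Agent.SM
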