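import Pool.Agent.Lib.MP_288534_co.Stm

set_option autoImplicit false

namespace Pool.Agent.SM

private theorem D0_key (n : ℕ) : Finite (Key n) := by
  let f : Key n → Dx n × Bool × Fin 3 := fun κ => (κ.a, κ.s, κ.B)
  apply Finite.of_injective f
  intro κ κ' h
  obtain ⟨a, s, B, hB⟩ := κ
  obtain ⟨a', s', B', hB'⟩ := κ'
  simp only [f, Prod.mk.injEq] at h
  obtain ⟨rfl, rfl, rfl⟩ := h
  rfl

private theorem D0_bd (x y z : ℤ) (h : InP x y z) :
    0 ≤ x ∧ x ≤ 9 ∧ 0 ≤ y ∧ y ≤ 9 ∧ 0 ≤ z ∧ z ≤ 9 := by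
  unfold InP at h
  rcases h with h | ⟨h | h | h, h'⟩ | ⟨h | h | h, h'⟩ | h | h | h <;>
    refine ⟨?_, ?_, ?_, ?_, ?_, ?_⟩ <;> omega

private theorem D0_PP (n : ℕ) : (PP n).Finite := by
  apply (Set.finite_Icc (fun _ : Dx n => (0 : ℤ)) (fun _ => 9)).subset
  rintro c ⟨h1, h2⟩
  have hb := D0_bd _ _ _ h1
  have key : ∀ i : Dx n, 0 ≤ c i ∧ c i ≤ 9 := by
    intro i
    by_cases hi : 3 ≤ i.val
    · rw [h2 i hi]; norm_num
    · have hcases : i = ax n ∨ i = ay n ∨ i = az n := by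
        obtain ⟨v, hv⟩ := i
        simp only [Fin.mk.injEq, ax, ay, az]
        simp only at hi
        omega
      rcases hcases with h | h | h <;> subst h
      · exact ⟨hb.1, hb.2.1⟩
      · exact ⟨hb.2.2.1, hb.2.2.2.1⟩
      · exact hb.2.2.2.2
  exact ⟨fun i => (key i).1, fun i => (key i).2⟩

theorem pf_D0 : S_D0 := by
  intro n
  have hK := D0_key n
  refine ⟨hK, ?_⟩
  have hSol : (Sol n).Finite := by
    have h1 : Sol n ⊆ ⋃ c ∈ PP n, Set.Icc (fun i => MM n * c i - KK n)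
        (fun i => MM n * c i + KK n) := by
      rintro p ⟨c, hc, hp⟩
      simp only [Set.mem_iUnion]
      refine ⟨c, hc, fun i => ?_, fun i => ?_⟩
      · have := abs_le.1 (hp i)
        linarith [this.1]
      · have := abs_le.1 (hp i)
        linarith [this.2]
    exact ((D0_PP n).biUnion (fun c _ => Set.finite_Icc _ _)).subset h1
  have hT : (Tails n).Finite := by
    have h1 : Tails n ⊆ ⋃ κ : Key n, (fun j => κ.tail j) '' (Set.Iic κ.len) := by
      rintro p ⟨κ, j, hj, rfl⟩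
      simp only [Set.mem_iUnion]
      exact ⟨κ, j, hj, rfl⟩
    exact (Set.finite_iUnion (fun κ : Key n => (Set.finite_Iic κ.len).image _)).subset h1
  exact (hSol.subset Set.sdiff_subset).union hT

end Pool.Agent.SM
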