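import Pool.Agent.Lib.MP_288534_co.Stm

/-!
# [SM D1] The macro cells partition the cells.
-/

set_option autoImplicit false

namespace Pool.Agent.SM

private theorem D1_ex (K p : ℤ) (hK : 0 ≤ K) :
    |p - (2 * K + 1) * ((p + K) / (2 * K + 1))| ≤ K := by
  have hM : (0 : ℤ) < 2 * K + 1 := by omega
  have h1 := Int.emod_add_mul_ediv (p + K) (2 * K + 1)
  have h2 := Int.emod_nonneg (p + K) hM.ne'
  have h3 := Int.emod_lt_of_pos (p + K) hM
  rw [abs_le]
  constructor <;> linarith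

private theorem D1_uniq (K p c c' : ℤ) (hK : 0 ≤ K) (h : |p - (2 * K + 1) * c| ≤ K)
    (h' : |p - (2 * K + 1) * c'| ≤ K) : c = c' := by
  rw [abs_le] at h h'
  obtain ⟨h1, h2⟩ := h
  obtain ⟨h3, h4⟩ := h'
  rcases lt_trichotomy c c' with hlt | heq | hgt
  · exfalso
    have : c + 1 ≤ c' := hlt
    nlinarith
  · exact heq
  · exfalso
    have : c' + 1 ≤ c := hgt
    nlinarith

theorem pf_D1 : S_D1 := by
  intro n p
  have hK : 0 ≤ KK n := by unfold KK; positivity
  refine ⟨fun i => (p i + KK n) / MM n, ?_, ?_⟩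
  · intro i
    exact D1_ex (KK n) (p i) hK
  · intro c hc
    funext i
    exact D1_uniq (KK n) (p i) _ _ hK (hc i) (D1_ex (KK n) (p i) hK)

end Pool.Agent.SM
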