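import Pool.Agent.Lib.MP_288534_co.Stm

set_option autoImplicit false

namespace Pool.Agent.SM

theorem pf_D2 (hK3 : S_K3) : S_D2 := by
  intro n κ j hj
  have hK := (hK3 n κ j hj).1
  refine ⟨fun i => ?_, fun i => ?_⟩
  · have h : κ.tun j i - MM n * κ.base i = κ.q j i := by
      simp only [Key.tun]
      ring
    rw [h]
    exact hK i
  · have h : κ.tail j i - MM n * (κ.base i + κ.v i) = κ.q j i := by
      simp only [Key.tail, Key.tun]
      ring
    show |κ.tail j i - MM n * (κ.base i + κ.v i)| ≤ KK n
    rw [h]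
    exact hK i

end Pool.Agent.SM
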