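import Pool.Agent.Lib.MP_288534_co.Stm

set_option autoImplicit false

namespace Pool.Agent.SM

theorem pf_D3 (hD1 : S_D1) (hD2 : S_D2) (hK8a : S_K8a) : S_D3 := by
  intro n c p hcp
  have huniq : ∀ c', InMega c' p → c' = c := by
    intro c' h
    obtain ⟨c0, -, hu⟩ := hD1 n p
    rw [hu c' h, hu c hcp]
  constructor
  · intro hc
    constructor
    · rintro (h | ⟨κ, j, hj, rfl⟩)
      · exact h.2
      · exfalso
        have h1 := huniq _ (hD2 n κ j hj).2
        have h2 := (hK8a n κ).2.1
        rw [h1] at h2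
        exact h2 hc
    · intro h
      exact Or.inl ⟨⟨c, hc, hcp⟩, h⟩
  · intro hc
    constructor
    · rintro (⟨⟨c', hc', h'⟩, -⟩ | h)
      · rw [huniq c' h'] at hc'
        exact absurd hc' hc
      · exact h
    · intro h
      exact Or.inr h

end Pool.Agent.SM
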