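import Pool.Agent.Lib.MP_288534_co.Stm

set_option autoImplicit false

namespace Pool.Agent.SM

theorem pf_D5 (hD1 : S_D1) (hD2 : S_D2) (hK4 : S_K4) (hK8b : S_K8b) : S_D5 := by
  intro n κ j p hj hm hx hp
  obtain ⟨κ', j', hj', rfl⟩ := hp
  have h1 : InMega κ'.base (κ'.tun j') := (hD2 n κ' j' hj').1
  have h2 : κ.base = κ'.base := (hD1 n (κ'.tun j')).unique hm h1
  by_cases h : κ = κ'
  · subst h
    exact ⟨j', hj', rfl⟩
  · rcases (hK8b n κ κ').1 h2 with h3 | ⟨h3, h4⟩
    · exact absurd h3 h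
    · exfalso
      have h5 := hK4 n κ κ' j j' h3 h4 h hj hj'
      have h6 : κ.q j (ax n) - κ'.q j' (ax n) = -(κ'.tun j' (ax n) - κ.tun j (ax n)) := by
        simp only [Key.tun]
        rw [h2]
        ring
      rw [h6, abs_neg] at h5
      omega

end Pool.Agent.SM
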