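import Pool.Agent.Lib.MP_288534_co.Stm

set_option autoImplicit false

namespace Pool.Agent.SM

theorem pf_F1 (hA6 : S_A6) (hC2 : S_C2) (hC4 : S_C4) (hC5 : S_C5) (hD0 : S_D0) (hK7 : S_K7)
    (hK2 : S_K2) : S_F1 := by
  intro n W κ hW hT
  have hsg : sg κ.s = 1 ∨ sg κ.s = -1 := by
    unfold sg
    cases κ.s <;> simp
  have hlen : 0 < κ.dirs.length := by
    have h := (hK2 n κ 0 (Nat.zero_le _)).2.2.2.2.2
    have h' : κ.len = κ.dirs.length := rfl
    omega
  obtain ⟨G, hG, hGh⟩ := hA6 n (SS n) W (κ.tun 0) κ.s (hD0 n).2 hW hT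
    ((hC2 n κ).1 0 (Nat.zero_le _)) (by
      intro δ hδ hne
      by_contra hnot
      have hnb : Nb (κ.tun 0) (fun i => κ.tun 0 i + sg κ.s * δ i) := by
        intro i
        show |κ.tun 0 i - (κ.tun 0 i + sg κ.s * δ i)| ≤ 1
        rw [abs_le]
        rcases hδ i with h | h <;> rcases hsg with e | e <;> rw [h, e] <;> constructor <;> omega
      rcases (hC2 n κ).2 _ hnb hnot with h | h
      · refine hne (funext fun i => ?_)
        have h1 := congrFun h i
        simp only [Pi.zero_apply]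
        rcases hsg with e | e <;> rw [e] at h1 <;> linarith
      · have h1 := congrFun h κ.dirs[0]
        have h2 := hK7 n κ 0 hlen κ.dirs[0]
        simp only [Key.tun, if_true, zero_add] at h1 h2
        rw [h2] at h1
        rcases hδ κ.dirs[0] with h3 | h3 <;> rcases hsg with e | e <;> rw [h3, e] at h1 <;>
          linarith)
  refine ⟨G, hG, fun h hh => ?_⟩
  obtain ⟨g, hg, hq, hd⟩ := hGh h hh
  obtain ⟨κ', ha, hs, hπ, hε, hact⟩ := hC4 n g κ hd hq
  obtain ⟨P, hP, hP'⟩ := hC5 n g κ κ' ha hs hπ hε hact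
  exact ⟨P, hP, hP' h hg⟩

end Pool.Agent.SM
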