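import Pool.Agent.Lib.MP_288534_co.Stm

set_option autoImplicit false

namespace Pool.Agent.SM

theorem pf_F2 : S_F2 := by
  intro n T W φ ⟨h1, h2, h3⟩
  refine ⟨?_, ?_, ?_⟩
  · rintro _ ⟨X, hX, rfl⟩
    obtain ⟨h, rfl⟩ := h1 X hX
    refine ⟨h.trans φ, ?_⟩
    show φ '' (h '' T) = _
    rw [Set.image_image]
    rfl
  · rw [Set.sUnion_image, ← Set.image_iUnion₂, ← Set.sUnion_eq_biUnion, h2]
    exact Set.image_univ_of_surjective φ.surjective
  · rintro _ ⟨X, hX, rfl⟩ _ ⟨Y, hY, rfl⟩ hne
    have hXY : X ≠ Y := fun e => hne (by rw [e])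
    have h := h3 X hX Y hY hXY
    have e1 : interior (φ '' X) = φ '' interior X := (φ.toHomeomorph.image_interior X).symm
    have e2 : interior (φ '' Y) = φ '' interior Y := (φ.toHomeomorph.image_interior Y).symm
    show Disjoint (interior (φ '' X)) (interior (φ '' Y))
    rw [e1, e2, Set.disjoint_image_iff φ.injective]
    exact h

end Pool.Agent.SM
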