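import Pool.Agent.Lib.MP_288534_co.Stm

set_option autoImplicit false

namespace Pool.Agent.SM

theorem pf_F4 (hF1 : S_F1) (hF2 : S_F2) (hR11a : S_R11a) (hR12 : S_R12) : S_F4 := by
  intro n W g κ hT hg
  obtain ⟨h0, hh0⟩ := hR11a n g
  have hmem : h0 '' TT n ∈ W := hg h0 hh0
  have hT' := hF2 n (TT n) W h0.symm hT
  have hTT : TT n ∈ (fun X => h0.symm '' X) '' W :=
    ⟨h0 '' TT n, hmem, by simp [Set.image_image]⟩
  obtain ⟨G', ⟨G, hG, rfl⟩, hP⟩ := hF1 n _ κ hT' hTT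
  obtain ⟨h, rfl⟩ := hT.1 G hG
  obtain ⟨P, hPO, hPh⟩ := hP (h.trans h0.symm) (by simp [Set.image_image])
  refine ⟨P, hPO, fun h' hh' => ?_⟩
  have key := (hR12 n).2.2 g P h0 (h.trans h0.symm) hh0 hPh
  have e := (hR12 n).2.1 (g.comp P) _ h' key hh'
  have e' : h' '' TT n = h '' TT n := by
    apply Set.image_congr
    intro x _
    rw [← e x]
    simp
  rw [e']
  exact hG

end Pool.Agent.SM
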