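import Pool.Agent.Lib.MP_288534_co.Stm

set_option autoImplicit false

namespace Pool.Agent.SM

theorem pf_F5 (hF5a : S_F5a) : S_F5 := by
  intro n W g g' hW hg hs h0 h1 h2
  have main : ∀ F : Finset (Dx n), InW W ⟨g.s, fun i => if i ∈ F then g'.V i else g.V i⟩ := by
    classical
    intro F
    induction F using Finset.induction_on with
    | empty => simpa using hg
    | insert a F ha ih =>
      by_cases hz : a.val = 2
      · have haz : a = az n := Fin.ext hz
        have : (fun i => if i ∈ insert a F then g'.V i else g.V i) =
            (fun i => if i ∈ F then g'.V i else g.V i) := by
          funext i
          by_cases hi : i = a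
          · rw [hi, haz]
            simp only [Finset.mem_insert, true_or, h2, ite_self]
          · simp [hi]
        rw [this]
        exact ih
      · obtain ⟨k, hk⟩ : ∃ k : ℤ, g'.V a - g.V a =
            k * (if a.val = 0 then 6 else if a.val = 1 then 5 else 1) := by
          by_cases a0 : a.val = 0
          · have : a = ax n := Fin.ext a0
            rw [this]
            obtain ⟨c, hc⟩ := h0
            exact ⟨c, by rw [if_pos (show (ax n).val = 0 from rfl)]; linarith⟩
          · by_cases a1 : a.val = 1
            · have : a = ay n := Fin.ext a1
              rw [this]
              obtain ⟨c, hc⟩ := h1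
              exact ⟨c, by
                rw [if_neg (show ¬ (ay n).val = 0 by simp), if_pos (show (ay n).val = 1 from rfl)]
                linarith⟩
            · exact ⟨g'.V a - g.V a, by simp [a0, a1]⟩
        have := hF5a n W _ a k hW ih hz
        convert this using 3
        rename_i i
        by_cases hi : i = a
        · subst hi
          simp only [Finset.mem_insert, true_or, if_true, ha, if_false]
          linarith
        · simp [hi]
  have := main Finset.univ
  simp only [Finset.mem_univ, if_true] at this
  rw [← hs] at this
  exact this

end Pool.Agent.SM
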