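import Pool.Agent.Lib.MP_288534_co.Stm

set_option autoImplicit false

namespace Pool.Agent.SM

private lemma F5a_sg (a0 : Prop) [Decidable a0] (gs e : Bool) :
    sg (if a0 then (if gs then !e else e) else !e) = if a0 then - (sg gs * sg e) else - sg e := by
  by_cases h : a0 <;> cases gs <;> cases e <;> simp [sg, h]

private lemma F5a_sq (s : Bool) : sg s * sg s = 1 := by cases s <;> simp [sg]

private lemma F5a_step (hF4 : S_F4) {n : ℕ} (W : Set (Set (Es n))) (a : Dx n)
    (hW : STil (TT n) W) (ha : a.val ≠ 2) (g : Pl n) (hg : InW W g) (e : Bool) :
    InW W ⟨g.s, fun i => g.V i +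
      (if i = a then sg e * (if a.val = 0 then 6 else if a.val = 1 then 5 else 1) else 0)⟩ := by
  obtain ⟨P, hP, hW'⟩ := hF4 n W g
    ⟨a, (if a.val = 0 then (if g.s then !e else e) else !e), 0, fun _ => rfl⟩ hW hg
  obtain ⟨h1, -⟩ := hP
  obtain ⟨hs, hV⟩ := h1 ha
  have hq := F5a_sq g.s
  have key : g.comp P = ⟨g.s, fun i => g.V i +
      (if i = a then sg e * (if a.val = 0 then 6 else if a.val = 1 then 5 else 1) else 0)⟩ := by
    unfold Pl.comp
    congr 1
    · rw [hs]; cases g.s <;> rfl
    · funext i
      rw [hV i]
      simp only [Key.v, F5a_sg]
      have hia : i = a ↔ i.val = a.val := Fin.ext_iff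
      by_cases h0 : a.val = 0
      · rw [h0] at hia
        by_cases hi : i.val = 0
        · simp only [if_pos h0, if_pos hi, if_pos (hia.mpr hi)]
          linear_combination 6 * sg e * hq
        · simp only [if_pos h0, if_neg hi, if_neg (fun h => hi (hia.mp h))]
          ring
      · by_cases h1 : a.val = 1
        · rw [h1] at hia
          by_cases hi : i.val = 1
          · have hi0 : ¬ i.val = 0 := by omega
            simp only [if_neg h0, if_pos h1, if_neg hi0, if_pos hi, if_pos (hia.mpr hi)]
            ring
          · simp only [if_neg h0, if_pos h1, if_neg hi, if_neg (fun h => hi (hia.mp h))]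
            by_cases hi0 : i.val = 0
            · simp only [if_pos hi0]; ring
            · simp only [if_neg hi0]; ring
        · by_cases hi : i = a
          · have hi0 : ¬ i.val = 0 := by rw [hi]; exact h0
            simp only [if_neg h0, if_neg h1, if_neg ha, if_pos hi, if_neg hi0]
            ring
          · simp only [if_neg h0, if_neg h1, if_neg ha, if_neg hi]
            by_cases hi0 : i.val = 0
            · simp only [if_pos hi0]; ring
            · simp only [if_neg hi0]; ring
  rw [← key]
  exact hW'

theorem pf_F5a (hF4 : S_F4) : S_F5a := by
  intro n W g a k hW hg ha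
  have stp := F5a_step hF4 W a hW ha
  revert stp
  generalize (if a.val = 0 then (6 : ℤ) else if a.val = 1 then 5 else 1) = per
  intro stp
  induction k using Int.induction_on with
  | zero =>
    have : (⟨g.s, fun i => g.V i + (if i = a then (0 : ℤ) * per else 0)⟩ : Pl n) = g := by
      cases g
      simp
    rw [this]; exact hg
  | succ k ih =>
    have := stp _ ih true
    have e : (fun i => g.V i + (if i = a then ((k : ℤ) + 1) * per else 0)) =
        fun i => g.V i + (if i = a then (k : ℤ) * per else 0) +
          (if i = a then sg true * per else 0) := by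
      funext i
      by_cases hi : i = a
      · simp only [hi, if_true, sg]; ring
      · simp only [hi, if_false, add_zero]
    rw [e]; exact this
  | pred k ih =>
    have := stp _ ih false
    have e : (fun i => g.V i + (if i = a then (-(k : ℤ) - 1) * per else 0)) =
        fun i => g.V i + (if i = a then -(k : ℤ) * per else 0) +
          (if i = a then sg false * per else 0) := by
      funext i
      by_cases hi : i = a
      · simp only [hi, if_true, sg]
        simp only [Bool.false_eq_true, if_false]
        ring
      · simp only [hi, if_false, add_zero]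
    rw [e]; exact this

end Pool.Agent.SM
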