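import Pool.Agent.Lib.MP_288534_co.Stm

set_option autoImplicit false

namespace Pool.Agent.SM

theorem pf_F6 (hF4 : S_F4) (hF5 : S_F5) : S_F6 := by
  intro n W k c e hW hg
  obtain ⟨P, hP, hW'⟩ := hF4 n W (anc n k c) ⟨az n, !e, 0, fun h => absurd rfl h⟩ hW hg
  obtain ⟨-, h2⟩ := hP
  obtain ⟨⟨B', hB'⟩, hV⟩ := h2 rfl
  set g' := (anc n k c).comp P with hg'
  have hV0 : g'.V (ax n) = sg c.1 * P.V (ax n) + 2 * (c.2.val : ℤ) := by
    simp [hg', Pl.comp, anc]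
  obtain ⟨m, hm⟩ : ∃ m : ℤ, g'.V (ax n) = 2 * m := by
    refine ⟨sg c.1 * (((⟨az n, !e, 0, fun h => absurd rfl h⟩ : Key n).B.val : ℤ) - sg P.s * (B'.val : ℤ)) + (c.2.val : ℤ), ?_⟩
    rw [hV0, hB']; ring
  have hm3 : 0 ≤ m % 3 ∧ m % 3 < 3 := ⟨Int.emod_nonneg _ (by norm_num), Int.emod_lt_of_pos _ (by norm_num)⟩
  let t' : Fin 3 := ⟨(m % 3).toNat, by omega⟩
  have ht' : (t'.val : ℤ) = m % 3 := by
    change (((m % 3).toNat : ℕ) : ℤ) = _
    exact Int.toNat_of_nonneg hm3.1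
  refine ⟨(g'.s, t'), hF5 n W g' _ hW hW' rfl ?_ ?_ ?_⟩
  · have : (anc n (k + sg e) (g'.s, t')).V (ax n) = 2 * (t'.val : ℤ) := by simp [anc]
    rw [this, hm, ht']
    omega
  · have a1 : (anc n (k + sg e) (g'.s, t')).V (ay n) = -2 * (k + sg e) := by simp [anc]
    have a2 : g'.V (ay n) = P.V (ay n) + -2 * k := by simp [hg', Pl.comp, anc]
    have a3 := hV (ay n) (by simp)
    rw [a1, a2, a3]
    simp only [Key.v]
    cases e <;> simp [sg] <;> exact ⟨0, by ring⟩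
  · have a1 : (anc n (k + sg e) (g'.s, t')).V (az n) = 2 * (k + sg e) := by simp [anc]
    have a2 : g'.V (az n) = P.V (az n) + 2 * k := by simp [hg', Pl.comp, anc]
    have a3 := hV (az n) (by simp)
    rw [a1, a2, a3]
    simp only [Key.v]
    cases e <;> simp [sg] <;> ring

end Pool.Agent.SM
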