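import Pool.Agent.Lib.MP_288534_co.Stm

set_option autoImplicit false

namespace Pool.Agent.SM

private theorem F7_rec {α : Type} (P : ℕ → α → Prop) (a : α) (h0 : P 0 a)
    (hs : ∀ k x, P k x → ∃ y, P (k + 1) y) : ∃ f : ℕ → α, f 0 = a ∧ ∀ k, P k (f k) := by
  classical
  choose! g hg using hs
  refine ⟨fun k => Nat.rec a (fun i x => g i x) k, rfl, ?_⟩
  intro k
  induction k with
  | zero => exact h0
  | succ k ih => exact hg k _ ih

theorem pf_F7 (hF6 : S_F6) : S_F7 := by
  intro n W hW hT
  have h0 : InW W (anc n 0 (true, 0)) := by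
    intro h hh
    have e : ∀ x, h x = x := by
      intro x
      ext i
      rw [hh x i]
      simp only [anc, sg]
      split_ifs <;> simp
    have : (⇑h) '' TT n = TT n := by
      have e' : (⇑h) = id := funext e
      rw [e']; simp
    rw [this]; exact hT
  obtain ⟨f, hf0, hf⟩ := F7_rec (fun k c => InW W (anc n (k : ℤ) c)) (true, 0) (by simpa using h0)
    (by
      intro k c hc
      obtain ⟨c', hc'⟩ := hF6 n W (k : ℤ) c true hW hc
      refine ⟨c', ?_⟩
      have : (k : ℤ) + sg true = ((k + 1 : ℕ) : ℤ) := by simp [sg]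
      rw [this] at hc'
      exact hc')
  obtain ⟨f', hf0', hf'⟩ := F7_rec (fun k c => InW W (anc n (-(k : ℤ)) c)) (true, 0)
    (by simpa using h0)
    (by
      intro k c hc
      obtain ⟨c', hc'⟩ := hF6 n W (-(k : ℤ)) c false hW hc
      refine ⟨c', ?_⟩
      have : -(k : ℤ) + sg false = -((k + 1 : ℕ) : ℤ) := by simp [sg]; ring
      rw [this] at hc'
      exact hc')
  refine ⟨fun k => if 0 ≤ k then f k.toNat else f' (-k).toNat, by simp [hf0], ?_⟩
  intro k
  by_cases hk : 0 ≤ k
  · have h1 := hf k.toNat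
    have e : ((k.toNat : ℕ) : ℤ) = k := Int.toNat_of_nonneg hk
    rw [e] at h1
    simpa [hk] using h1
  · have h1 := hf' (-k).toNat
    have e : (((-k).toNat : ℕ) : ℤ) = -k := Int.toNat_of_nonneg (by omega)
    rw [e, neg_neg] at h1
    simpa [hk] using h1

end Pool.Agent.SM
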