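import Pool.Agent.Lib.MP_288534_co.Stm

set_option autoImplicit false

namespace Pool.Agent.SM

theorem pf_F8 (hF5 : S_F5) : S_F8 := by
  intro n W γ hW hanc g hg
  obtain ⟨k, hk, hs, h6, h5⟩ := hg
  refine hF5 n W (anc n k (γ k)) g hW (hanc k) ?_ ?_ ?_ ?_
  · simp [anc, hs]
  · simpa [anc] using h6
  · have e : g.V (ay n) - (anc n k (γ k)).V (ay n) = g.V (ay n) + g.V (az n) := by
      rw [hk]; simp [anc]
    rw [e]; exact h5
  · simp [anc, hk]

end Pool.Agent.SM
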