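import Pool.Agent.Lib.MP_288534_co.Stm

set_option autoImplicit false

namespace Pool.Agent.SM

/-- the macro cell with the first three coordinates `x, y, z` -/
def F9_cell (n : ℕ) (x y z : ℤ) : Zc n := fun i =>
  if i.val = 0 then x else if i.val = 1 then y else if i.val = 2 then z else 0

private theorem F9_key (n : ℕ) (hF9b : S_F9b) (hF9c : S_F9c) (W : Set (Set (Es n))) (γ : Gam)
    (hW : STil (TT n) W) (hg : ∀ g ∈ Ch (n := n) γ, InW W g) (k1 k2 x1 y1 z1 x2 y2 z2 : ℤ)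
    (hk : k1 ≠ k2)
    (h1 : (x1 = 5 ∧ y1 = 3 ∧ z1 = 1) ∨ (x1 = 1 ∧ y1 = 1 ∧ z1 = 3) ∨ (x1 = 1 ∧ y1 = 0 ∧ z1 = 9))
    (h2 : (x2 = 5 ∧ y2 = 3 ∧ z2 = 1) ∨ (x2 = 1 ∧ y2 = 1 ∧ z2 = 3) ∨ (x2 = 1 ∧ y2 = 0 ∧ z2 = 9))
    (hz : z1 + 2 * k1 = z2 + 2 * k2) (hy : (5 : ℤ) ∣ (y1 - 2 * k1 - y2) + 2 * k2)
    (hx : (6 : ℤ) ∣ (sg (γ k1).1 * x1 + 2 * ((γ k1).2.val : ℤ)) -
      (sg (γ k2).1 * x2 + 2 * ((γ k2).2.val : ℤ))) : False := by
  set g1 : Pl n := anc n k1 (γ k1) with hg1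
  set g2 : Pl n := ⟨(γ k2).1, fun i => if i.val = 0 then
      sg (γ k1).1 * x1 + 2 * ((γ k1).2.val : ℤ) - sg (γ k2).1 * x2
    else if i.val = 1 then y1 - 2 * k1 - y2 else if i.val = 2 then 2 * k2 else 0⟩ with hg2
  have hm1 : g1 ∈ Ch (n := n) γ := by
    refine ⟨k1, ?_, ?_, ?_, ?_⟩
    · simp [hg1, anc, az]
    · simp [hg1, anc]
    · simp [hg1, anc, ax]
    · simp [hg1, anc, ay, az]
  have hm2 : g2 ∈ Ch (n := n) γ := by
    refine ⟨k2, ?_, ?_, ?_, ?_⟩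
    · simp [hg2, az]
    · simp [hg2]
    · have : g2.V (ax n) - 2 * ((γ k2).2.val : ℤ) = (sg (γ k1).1 * x1 + 2 * ((γ k1).2.val : ℤ)) -
        (sg (γ k2).1 * x2 + 2 * ((γ k2).2.val : ℤ)) := by
        simp only [hg2, ax, if_true]; ring
      rw [this]; exact hx
    · have : g2.V (ay n) + g2.V (az n) = (y1 - 2 * k1 - y2) + 2 * k2 := by
        simp [hg2, ay, az]
      rw [this]; exact hy
  have hc : ∀ x y z : ℤ, ((x = 5 ∧ y = 3 ∧ z = 1) ∨ (x = 1 ∧ y = 1 ∧ z = 3) ∨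
      (x = 1 ∧ y = 0 ∧ z = 9)) → (fun i => MM n * F9_cell n x y z i) ∈ SS n := by
    intro x y z h
    apply hF9b n
    · intro i hi
      have h0 : i.val ≠ 0 := by omega
      have h1 : i.val ≠ 1 := by omega
      have h2 : i.val ≠ 2 := by omega
      simp [F9_cell, h0, h1, h2]
    · simpa [F9_cell, ax, ay, az] using h
  have e1 : g1.act (fun i => MM n * F9_cell n x1 y1 z1 i) =
      g2.act (fun i => MM n * F9_cell n x2 y2 z2 i) := by
    funext i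
    by_cases i0 : i.val = 0
    · simp only [Pl.act, F9_cell, i0, if_true, hg1, hg2, anc]
      ring
    · by_cases i1 : i.val = 1
      · simp only [Pl.act, F9_cell, i1, if_true, hg1, hg2, anc]
        norm_num
        ring
      · by_cases i2 : i.val = 2
        · simp only [Pl.act, F9_cell, i2, if_true, hg1, hg2, anc]
          norm_num
          rw [← mul_add, ← mul_add, hz]
        · simp only [Pl.act, F9_cell, i0, i1, i2, if_false, hg1, hg2, anc]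
  have := hF9c n W g1 g2 (g1.act (fun i => MM n * F9_cell n x1 y1 z1 i)) hW (hg g1 hm1)
    (hg g2 hm2) ⟨_, hc _ _ _ h1, rfl⟩ ⟨_, hc _ _ _ h2, e1.symm⟩
  have hV : g1.V (az n) = g2.V (az n) := by rw [this]
  apply hk
  simp [hg1, hg2, anc, az] at hV
  exact hV

theorem pf_F9 (hF9b : S_F9b) (hF9c : S_F9c) : S_F9 := by
  intro n W γ hW hg k
  refine ⟨?_, ?_, ?_⟩
  · intro h
    refine F9_key n hF9b hF9c W γ hW hg k (k - 1) 5 3 1 1 1 3 (by omega) (by simp) (by simp)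
      (by ring) ⟨0, by ring⟩ ?_
    unfold oc zc at h
    omega
  · intro h
    refine F9_key n hF9b hF9c W γ hW hg k (k - 4) 5 3 1 1 0 9 (by omega) (by simp) (by simp)
      (by ring) ⟨-1, by ring⟩ ?_
    unfold oc zc at h
    omega
  · intro h
    refine F9_key n hF9b hF9c W γ hW hg (k - 1) (k - 4) 1 1 3 1 0 9 (by omega) (by simp) (by simp)
      (by ring) ⟨-1, by ring⟩ ?_
    unfold zc at h
    omega

end Pool.Agent.SM
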