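import Pool.Agent.Lib.MP_288534_co.Stm

/-!
# MP_288534_co : piece [SM F9a]
-/

set_option autoImplicit false

namespace Pool.Agent.SM

private theorem F9a_aux (hF1 : S_F1) (n : ℕ) (W : Set (Set (Es n))) (hW : STil (TT n) W)
    (hT : TT n ∈ W) (φ : Es n ≃ᵢ Es n) (hφ : φ '' TT n = TT n) (x : Es n) : φ x = x := by
  obtain ⟨G, hG, hh⟩ := hF1 n W ⟨ax n, true, 0, fun _ => rfl⟩ hW hT
  obtain ⟨h1, hG1⟩ := hW.1 G hG
  have hG2 : G = (φ.trans h1) '' TT n := by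
    rw [hG1]
    show h1 '' TT n = (fun y => h1 (φ y)) '' TT n
    rw [← Set.image_image h1 φ, hφ]
  obtain ⟨P1, ok1, ip1⟩ := hh h1 hG1
  obtain ⟨P2, ok2, ip2⟩ := hh (φ.trans h1) hG2
  obtain ⟨s1, v1⟩ := ok1.1 (by simp)
  obtain ⟨s2, v2⟩ := ok2.1 (by simp)
  apply h1.injective
  ext i
  have e1 := ip1 x i
  have e2 := ip2 x i
  rw [s1, v1 i] at e1
  rw [s2, v2 i] at e2
  rw [e1]
  exact e2

theorem pf_F9a (hF1 : S_F1) (hF2 : S_F2) : S_F9a := by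
  intro n W hW φ hφ x
  have hx : (0 : Es n) ∈ ⋃₀ W := by rw [hW.2.1]; trivial
  obtain ⟨G0, hG0, -⟩ := hx
  obtain ⟨h0, e0⟩ := hW.1 G0 hG0
  have hW' := hF2 n (TT n) W h0.symm hW
  refine F9a_aux hF1 n _ hW' ?_ φ hφ x
  refine ⟨G0, hG0, ?_⟩
  show h0.symm '' G0 = TT n
  rw [e0, Set.image_image]
  simp

end Pool.Agent.SM
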