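import Pool.Agent.Lib.MP_288534_co.Stm

/-!
# MP_288534_co : piece [SM F9b]
-/

set_option autoImplicit false

namespace Pool.Agent.SM

theorem pf_F9b (hD1 : S_D1) (hD2 : S_D2) (hD3 : S_D3) (hK8c : S_K8c) : S_F9b := by
  intro n c h3 hc
  have hmega : InMega c (fun i => MM n * c i) := by
    intro i
    simp only [sub_self, abs_zero]
    unfold KK
    positivity
  have hPP : c ∈ PP n := by
    refine ⟨?_, h3⟩
    unfold InP
    rcases hc with ⟨h0, h1, h2⟩ | ⟨h0, h1, h2⟩ | ⟨h0, h1, h2⟩ <;> rw [h0, h1, h2] <;> norm_num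
  refine ((hD3 n c _ hmega).1 hPP).2 ?_
  rintro ⟨κ, j, hj, hp⟩
  have hb := (hD2 n κ j hj).1
  rw [← hp] at hb
  have hbc : κ.base = c := (hD1 n (fun i => MM n * c i)).unique hb hmega
  obtain ⟨-, k1, k2, k3⟩ := hK8c n κ κ
  rw [hbc] at k1 k2 k3
  rcases hc with h | h | h
  · exact k1 h
  · exact k2 h
  · exact k3 h

end Pool.Agent.SM
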