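import Pool.Agent.Lib.MP_288534_co.Stm

set_option autoImplicit false

namespace Pool.Agent.SM

private theorem G1_ss_nonempty (n : ℕ) : (SS n).Nonempty := by
  let κ : Key n := ⟨ax n, true, 0, fun _ => rfl⟩
  exact ⟨κ.tail 0, Or.inr ⟨κ, 0, Nat.zero_le _, rfl⟩⟩

private theorem G1_tt_nonempty (n : ℕ) (hR4 : S_R4) : (TT n).Nonempty := by
  obtain ⟨p, hp⟩ := G1_ss_nonempty n
  obtain ⟨_, hne, hsub, _⟩ := hR4 n p
  obtain ⟨x, hx⟩ := hne
  exact ⟨x, p, hp, hsub hx⟩

theorem pf_G1 (hD0 : S_D0) (hA5 : S_A5) (hR4 : S_R4) (hR7 : S_R7) : S_G1 := by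
  intro n W hW
  have hfin := (hD0 n).2
  have hloc := hA5 n (SS n) W hfin (G1_ss_nonempty n) hW
  have hTT := G1_tt_nonempty n hR4
  constructor
  · have hsub : W ⊆ ⋃ N : ℕ, {G | G ∈ W ∧ (G ∩ Metric.closedBall 0 (N : ℝ)).Nonempty} := by
      intro G hG
      obtain ⟨h, hh⟩ := hW.1 G hG
      obtain ⟨x, hx⟩ := hTT
      have hxG : h x ∈ G := by
        rw [hh]
        exact ⟨x, hx, rfl⟩
      obtain ⟨N, hN⟩ := exists_nat_ge ‖h x‖
      refine Set.mem_iUnion.2 ⟨N, hG, h x, hxG, ?_⟩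
      rw [mem_closedBall_zero_iff]
      exact hN
    exact (Set.countable_iUnion (fun N : ℕ => (hloc (N : ℝ)).countable)).mono hsub
  · intro hWf
    have hc : IsCompact (Set.univ : Set (Es n)) := by
      rw [← hW.2.1]
      refine hWf.isCompact_sUnion ?_
      intro G hG
      obtain ⟨h, hh⟩ := hW.1 G hG
      rw [hh]
      exact (hR7 n (SS n) hfin).image h.continuous
    haveI : Nontrivial (Es n) := by
      have : 0 < n + 3 := by omega
      infer_instance
    haveI : NoncompactSpace (Es n) := NormedSpace.noncompactSpace ℝ (Es n)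
    exact noncompact_univ (Es n) hc

end Pool.Agent.SM
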