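import Pool.Agent.Lib.MP_288534_co.Stm

set_option autoImplicit false

namespace Pool.Agent.SM

theorem pf_G2 (hG1 : S_G1) : S_G2 := by
  intro n
  constructor
  · intro W hW
    obtain ⟨hc, hi⟩ := hG1 n W hW
    haveI : Countable W := hc.to_subtype
    haveI : Infinite W := hi.to_subtype
    obtain ⟨e⟩ : Nonempty (ℕ ≃ W) := by
      haveI := Encodable.ofCountable W
      haveI := Denumerable.ofEncodableOfInfinite W
      exact ⟨(Denumerable.eqv W).symm⟩
    refine ⟨fun i => (e i : Set (Es n)), ⟨?_, ?_, ?_⟩, ?_⟩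
    · intro i
      exact hW.1 _ (e i).2
    · rw [← hW.2.1]
      ext x
      simp only [Set.mem_iUnion, Set.mem_sUnion]
      constructor
      · rintro ⟨i, hi⟩
        exact ⟨e i, (e i).2, hi⟩
      · rintro ⟨G, hG, hx⟩
        refine ⟨e.symm ⟨G, hG⟩, ?_⟩
        rw [Equiv.apply_symm_apply]
        exact hx
    · intro i j hij
      apply hW.2.2 _ (e i).2 _ (e j).2
      intro h
      exact hij (e.injective (Subtype.ext h))
    · ext G
      constructor
      · rintro ⟨i, rfl⟩
        exact (e i).2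
      · intro hG
        refine ⟨e.symm ⟨G, hG⟩, ?_⟩
        simp only [Equiv.apply_symm_apply]
  · intro F hF
    refine ⟨?_, ?_, ?_⟩
    · rintro G ⟨i, rfl⟩
      exact hF.1 i
    · rw [Set.sUnion_range]
      exact hF.2.1
    · rintro G ⟨i, rfl⟩ G' ⟨j, rfl⟩ hne
      apply hF.2.2
      rintro rfl
      exact hne rfl

end Pool.Agent.SM
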