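import Pool.Agent.Lib.MP_288534_co.Stm

set_option autoImplicit false

namespace Pool.Agent.SM

private theorem G3_sg_sq (s : Bool) : sg s * sg s = 1 := by cases s <;> simp [sg]

private theorem G3_sg_surj (a : ℤ) (h : a = 1 ∨ a = -1) : ∃ s : Bool, sg s = a := by
  rcases h with h | h
  · exact ⟨true, by simp [sg, h]⟩
  · exact ⟨false, by simp [sg, h]⟩

private theorem G3_sg_cases (s : Bool) : sg s = 1 ∨ sg s = -1 := by cases s <;> simp [sg]

private theorem G3_MM (n : ℕ) : (0 : ℤ) < MM n := by unfold MM KK; positivity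

theorem pf_G3 (hF9a : S_F9a) (hP4 : S_P4) (hR11a : S_R11a) (hR12 : S_R12) : S_G3 := by
  intro n γ γ' φ hγ hγ' hφ
  have hMM := G3_MM n
  have hMR : (0 : ℝ) < MM n := by exact_mod_cast hMM
  choose H hH using fun g : Pl n => hR11a n g
  have htriv := hF9a n (CC n γ) (hP4 n γ hγ)
  -- the standard tiles
  have hanc : ∀ k : ℤ, anc n k (γ k) ∈ Ch (n := n) γ := by
    intro k
    refine ⟨k, ?_, ?_, ?_, ?_⟩
    · simp [anc, az]
    · simp [anc]
    · simp [anc, ax]
    · simp [anc, ay, az]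
  have hex : ∀ k : ℤ, ∃ g' ∈ Ch (n := n) γ', ∃ h' : Es n ≃ᵢ Es n, IsPl g' h' ∧
      ∀ x, φ (H (anc n k (γ k)) x) = h' x := by
    intro k
    have h1 : φ '' (H (anc n k (γ k)) '' TT n) ∈ CC n γ' := by
      rw [← hφ]
      exact ⟨_, ⟨_, hanc k, _, hH _, rfl⟩, rfl⟩
    obtain ⟨g', hg', h', hh', he⟩ := h1
    refine ⟨g', hg', h', hh', ?_⟩
    have h2 : (((H (anc n k (γ k))).trans φ).trans h'.symm) '' TT n = TT n := by
      have : (((H (anc n k (γ k))).trans φ).trans h'.symm) '' TT n =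
          h'.symm '' (φ '' (H (anc n k (γ k)) '' TT n)) := by
        rw [Set.image_image, Set.image_image]; rfl
      rw [this, he, Set.image_image]
      simp
    intro x
    have h3 := htriv _ h2 x
    have h4 : h'.symm (φ (H (anc n k (γ k)) x)) = x := h3
    calc φ (H (anc n k (γ k)) x) = h' (h'.symm (φ (H (anc n k (γ k)) x))) :=
          (h'.apply_symm_apply _).symm
      _ = h' x := by rw [h4]
  choose g' hg' h' hh' he using hex
  -- points
  set P : ℝ → Es n := fun r => WithLp.toLp 2 (fun i => if i.val = 0 then r else 0) with hP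
  have hPi : ∀ r i, P r i = if i.val = 0 then r else 0 := fun r i => rfl
  -- the action of `H (anc 0)` is surjective; the relation
  have hrel : ∀ (k : ℤ) (x y : Es n), H (anc n k (γ k)) x = H (anc n 0 (γ 0)) y →
      h' k x = h' 0 y := by
    intro k x y hxy
    rw [← he k x, ← he 0 y, hxy]
  set s0 := sg (γ 0).1 with hs0
  set t0 : ℤ := ((γ 0).2.val : ℤ) with ht0
  have hs0sq : s0 * s0 = 1 := G3_sg_sq _
  have hs0sqR : (s0 : ℝ) * s0 = 1 := by exact_mod_cast hs0sq
  -- for `x`, the point `y`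
  have key : ∀ (k : ℤ) (r : ℝ),
      h' k (P r) = h' 0 (WithLp.toLp 2 (fun i => if i.val = 0 then
          (s0 : ℝ) * ((sg (γ k).1 : ℝ) * r + MM n * (2 * ((γ k).2.val : ℤ)) - MM n * (2 * t0))
        else if i.val = 1 then - MM n * (2 * k) else if i.val = 2 then MM n * (2 * k) else 0)) := by
    intro k r
    apply hrel
    ext i
    rw [hH _ _ i, hH _ _ i, hPi]
    by_cases i0 : i.val = 0
    · simp only [anc, i0, if_true]
      have : ((sg (γ 0).1 : ℤ) : ℝ) * ((s0 : ℝ) * ((sg (γ k).1 : ℝ) * r +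
          MM n * (2 * ((γ k).2.val : ℤ)) - MM n * (2 * t0))) =
          ((s0 : ℝ) * s0) * ((sg (γ k).1 : ℝ) * r + MM n * (2 * ((γ k).2.val : ℤ)) -
            MM n * (2 * t0)) := by
        rw [hs0]; ring
      rw [this, hs0sqR]
      push_cast [ht0]
      ring
    · have i0' : i ≠ 0 := by
        intro h
        apply i0
        rw [h]
        rfl
      by_cases i1 : i.val = 1
      · simp [anc, i1, i0']
      · by_cases i2 : i.val = 2
        · simp [anc, i2, i0']
        · simp [anc, i1, i2, i0']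
  -- coordinate 0
  have c0 : ∀ (k : ℤ) (r : ℝ), (sg (g' k).s : ℝ) * r + MM n * (g' k).V (ax n) =
      (sg (g' 0).s : ℝ) * ((s0 : ℝ) * ((sg (γ k).1 : ℝ) * r + MM n * (2 * ((γ k).2.val : ℤ)) -
        MM n * (2 * t0))) + MM n * (g' 0).V (ax n) := by
    intro k r
    have := congrArg (fun v : Es n => v (ax n)) (key k r)
    simp only [hh' _ _ (ax n), hPi, ax, if_true] at this
    exact this
  have c2 : ∀ (k : ℤ), (g' k).V (az n) = 2 * k + (g' 0).V (az n) := by
    intro k
    have := congrArg (fun v : Es n => v (az n)) (key k 0)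
    simp only [hh' _ _ (az n), hPi, az] at this
    norm_num at this
    have h5 : (MM n : ℝ) * ((g' k).V (az n) : ℝ) = MM n * (2 * k + (g' 0).V (az n)) := by
      rw [mul_add]; exact this
    have h6 := mul_left_cancel₀ hMR.ne' h5
    exact_mod_cast h6
  have hV : ∀ k : ℤ, (g' k).V (ax n) = sg (g' 0).s * s0 * (2 * ((γ k).2.val : ℤ) - 2 * t0) +
      (g' 0).V (ax n) := by
    intro k
    have h1 := c0 k 0
    have h5 : (MM n : ℝ) * ((g' k).V (ax n) : ℝ) = MM n * ((sg (g' 0).s : ℝ) * s0 *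
        (2 * ((γ k).2.val : ℤ) - 2 * t0) + (g' 0).V (ax n)) := by
      linear_combination h1
    have h6 := mul_left_cancel₀ hMR.ne' h5
    exact_mod_cast h6
  have hS : ∀ k : ℤ, sg (g' k).s = sg (g' 0).s * s0 * sg (γ k).1 := by
    intro k
    have h1 := c0 k 0
    have h2 := c0 k 1
    have h3 : (sg (g' k).s : ℝ) = (sg (g' 0).s : ℝ) * s0 * sg (γ k).1 := by
      linear_combination h2 - h1
    exact_mod_cast h3
  obtain ⟨k0, hk0, -, -, -⟩ := hg' 0
  obtain ⟨s, hs⟩ := G3_sg_surj (sg (g' 0).s * s0) (by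
    rcases G3_sg_cases (g' 0).s with h | h <;> rcases G3_sg_cases (γ 0).1 with h2 | h2 <;>
      simp [hs0, h, h2])
  refine ⟨k0, (g' 0).V (ax n) - sg s * (2 * t0), s, ?_⟩
  intro k
  obtain ⟨k1, hk1, hk2, hk3, -⟩ := hg' k
  have hk1' : k1 = k + k0 := by
    have := c2 k
    rw [hk1, hk0] at this
    omega
  subst hk1'
  have hS' := hS k
  have hV' := hV k
  rw [← hs] at hS' hV'
  rw [hk2] at hS'
  unfold zc
  rw [hS']
  set T : ℤ := ((γ' (k + k0)).2.val : ℤ) with hT
  set t : ℤ := ((γ k).2.val : ℤ) with ht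
  set σ : ℤ := sg (γ k).1 with hσ
  set w : ℤ := (g' 0).V (ax n) with hw
  rw [hV'] at hk3
  rcases G3_sg_cases s with h | h
  · rw [h] at hk3 ⊢
    omega
  · rw [h] at hk3 ⊢
    omega

end Pool.Agent.SM
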