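import Pool.Agent.Lib.MP_288534_co.Stm

set_option autoImplicit false

namespace Pool.Agent.SM

private theorem G4_key (n : ℕ) (hF2 : S_F2) (hF10 : S_F10) (hG2 : S_G2)
    (F : ℕ → Set (Es n)) (hF : IsTiling (TT n) F) :
    ∃ γ : Gam, Valid γ ∧ ∃ φ : Es n ≃ᵢ Es n, (fun X => φ '' X) '' Set.range F = CC n γ := by
  have hW := (hG2 n).2 F hF
  obtain ⟨φ, hφ⟩ := hF.1 0
  have hW' := hF2 n (TT n) (Set.range F) φ.symm hW
  have hmem : TT n ∈ (fun X => φ.symm '' X) '' Set.range F := by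
    refine ⟨F 0, ⟨0, rfl⟩, ?_⟩
    show φ.symm '' (F 0) = TT n
    rw [hφ, Set.image_image]
    simp
  obtain ⟨γ, hγ, he⟩ := hF10 n _ hW' hmem
  exact ⟨γ, hγ, φ.symm, he⟩

theorem pf_G4 (hF2 : S_F2) (hF10 : S_F10) (hG2 : S_G2) (hH1 : S_H1) : S_G4 := by
  intro n
  have hc : Countable {γ : Gam | Valid γ} := Set.Countable.to_subtype hH1
  have hex : ∀ q : Quotient (tilingSetoid (TT n)), ∃ γ : {γ : Gam | Valid γ},
      ∃ φ : Es n ≃ᵢ Es n, (fun X => φ '' X) '' Set.range (Quotient.out q).1 = CC n γ.1 := by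
    intro q
    obtain ⟨γ, hγ, φ, h⟩ := G4_key n hF2 hF10 hG2 (Quotient.out q).1 (Quotient.out q).2
    exact ⟨⟨γ, hγ⟩, φ, h⟩
  choose f hf using hex
  refine Function.Injective.countable (f := f) ?_
  intro q q' hqq
  obtain ⟨φ, h⟩ := hf q
  obtain ⟨φ', h'⟩ := hf q'
  rw [← Quotient.out_eq q, ← Quotient.out_eq q']
  apply Quotient.sound
  show Congr (Quotient.out q).1 (Quotient.out q').1
  refine ⟨φ.trans φ'.symm, ?_⟩
  have h1 : (fun X => (φ.trans φ'.symm) '' X) '' Set.range (Quotient.out q).1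
      = (fun X => φ'.symm '' X) '' ((fun X => φ '' X) '' Set.range (Quotient.out q).1) := by
    rw [Set.image_image]
    apply Set.image_congr
    intro X _
    rw [Set.image_image]
    rfl
  rw [h1, h, hqq, ← h', Set.image_image]
  have : (fun X : Set (Es n) => φ'.symm '' (φ' '' X)) = id := by
    funext X
    rw [Set.image_image]
    simp
  rw [this, Set.image_id]

end Pool.Agent.SM
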