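import Pool.Agent.Lib.MP_288534_co.Stm

set_option autoImplicit false

namespace Pool.Agent.SM

theorem pf_G5 (hP4 : S_P4) (hG2 : S_G2) (hG3 : S_G3) (hH2a : S_H2a) (hH2c : S_H2c) : S_G5 := by
  intro n
  have hex : ∀ m : ℕ, ∃ F : ℕ → Set (Es n), IsTiling (TT n) F ∧ Set.range F = CC n (fam m) :=
    fun m => (hG2 n).1 _ (hP4 n (fam m) (hH2a m).1)
  choose F hF using hex
  refine Infinite.of_injective
    (fun m : ℕ => (Quotient.mk (tilingSetoid (TT n)) ⟨F m, (hF m).1⟩)) ?_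
  intro m m' h
  have hr : Congr (F m) (F m') := Quotient.exact h
  obtain ⟨φ, hφ⟩ := hr
  rw [(hF m).2, (hF m').2] at hφ
  obtain ⟨j, w, s, hj⟩ := hG3 n (fam m) (fam m') φ (hH2a m).1 (hH2a m').1 hφ
  refine hH2c m m' j w s ?_
  intro k
  rw [← (hH2a m').2, ← (hH2a m).2]
  exact hj k

end Pool.Agent.SM
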