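import Pool.Agent.Lib.MP_288534_co.Stm

/-!
# [SM H1] Countably many valid sequences.
-/

set_option autoImplicit false

namespace Pool.Agent.SM

private theorem H1_up (z : ℤ → ℤ)
    (hz : ∀ k, (z k = 1 ∨ z k = 3 ∨ z k = 5) ∧ z (k - 1) ≠ z (k - 4) ∧
      (z k = z (k - 1) ∨ z k = z (k - 4))) (k : ℤ) (hk : z k = z (k - 1)) :
    z (k + 3) = z (k + 3 - 1) := by
  have h1 := (hz (k + 3)).2.2
  have h2 := (hz (k + 4)).2.1
  have e1 : k + 3 - 4 = k - 1 := by ring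
  have e2 : k + 4 - 1 = k + 3 := by ring
  have e3 : k + 4 - 4 = k := by ring
  rw [e1] at h1
  rw [e2, e3] at h2
  rcases h1 with h | h
  · exact h
  · exact absurd (h.trans hk.symm) h2

theorem pf_H1 (hH1a : S_H1a) (hH1b : S_H1b) (hH1c : S_H1c) (hH1d : S_H1d) : S_H1 := by
  classical
  let f : Gam → Set ℤ × (ℤ × ℤ × ℤ × ℤ) := fun γ =>
    ({k | zc (γ k) = zc (γ (k - 1))}, (zc (γ 0), zc (γ (-1)), zc (γ (-2)), zc (γ (-3))))
  have hz : ∀ γ : Gam, Valid γ → ∀ k : ℤ,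
      ((fun k => zc (γ k)) k = 1 ∨ (fun k => zc (γ k)) k = 3 ∨ (fun k => zc (γ k)) k = 5) ∧
      (fun k => zc (γ k)) (k - 1) ≠ (fun k => zc (γ k)) (k - 4) ∧
      ((fun k => zc (γ k)) k = (fun k => zc (γ k)) (k - 1) ∨
        (fun k => zc (γ k)) k = (fun k => zc (γ k)) (k - 4)) := fun γ hγ k => hH1a γ hγ k
  have hmaps : Set.MapsTo f {γ : Gam | Valid γ}
      ({R : Set ℤ | ∀ k, k ∈ R → k + 3 ∈ R} ×ˢ (Set.univ : Set (ℤ × ℤ × ℤ × ℤ))) := by
    intro γ hγ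
    refine Set.mem_prod.mpr ⟨?_, Set.mem_univ _⟩
    intro k hk
    exact H1_up (fun k => zc (γ k)) (hz γ hγ) k hk
  have hinj : Set.InjOn f {γ : Gam | Valid γ} := by
    intro γ hγ γ' hγ' he
    have he1 : {k | zc (γ k) = zc (γ (k - 1))} = {k | zc (γ' k) = zc (γ' (k - 1))} :=
      congrArg Prod.fst he
    have he2 : (zc (γ 0), zc (γ (-1)), zc (γ (-2)), zc (γ (-3))) =
        (zc (γ' 0), zc (γ' (-1)), zc (γ' (-2)), zc (γ' (-3))) := congrArg Prod.snd he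
    simp only [Prod.mk.injEq] at he2
    obtain ⟨h0, h1, h2, h3⟩ := he2
    apply hH1b γ γ' hγ hγ'
    refine hH1c (fun k => zc (γ k)) (fun k => zc (γ' k)) (hz γ hγ) (hz γ' hγ') ?_ h0 h1 h2 h3
    intro k
    have := Set.ext_iff.mp he1 k
    simpa using this
  exact hmaps.countable_of_injOn hinj (hH1d.prod Set.countable_univ)

end Pool.Agent.SM
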