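import Pool.Agent.Lib.MP_288534_co.Stm

/-! # [SM H1a] -/

set_option autoImplicit false

namespace Pool.Agent.SM

theorem H1a_vals : ∀ c : Bool × Fin 3, (zc c = 1 ∨ zc c = 3 ∨ zc c = 5) ∧
    (oc c = 1 ∨ oc c = 3 ∨ oc c = 5) ∧ oc c ≠ zc c := by
  decide

theorem pf_H1a : S_H1a := by
  intro γ hγ k
  obtain ⟨h1, h2, h3⟩ := hγ k
  obtain ⟨a1, a2, a3⟩ := H1a_vals (γ k)
  obtain ⟨b1, b2, b3⟩ := H1a_vals (γ (k - 1))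
  obtain ⟨c1, c2, c3⟩ := H1a_vals (γ (k - 4))
  refine ⟨a1, h3, ?_⟩
  omega

end Pool.Agent.SM
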