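import Pool.Agent.Lib.MP_288534_co.Stm

/-! # [SM H1b] -/

set_option autoImplicit false

namespace Pool.Agent.SM

theorem H1b_vals : ∀ c : Bool × Fin 3, (zc c = 1 ∨ zc c = 3 ∨ zc c = 5) ∧
    (oc c = 1 ∨ oc c = 3 ∨ oc c = 5) ∧ oc c ≠ zc c := by
  decide

theorem H1b_inj : ∀ c c' : Bool × Fin 3, zc c = zc c' → oc c = oc c' → c = c' := by
  decide

theorem pf_H1b : S_H1b := by
  intro γ γ' hγ hγ' h
  funext k
  obtain ⟨h1, h2, h3⟩ := hγ k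
  obtain ⟨h1', h2', h3'⟩ := hγ' k
  have e1 := h (k - 1)
  have e4 := h (k - 4)
  obtain ⟨-, a2, -⟩ := H1b_vals (γ k)
  obtain ⟨-, a2', -⟩ := H1b_vals (γ' k)
  obtain ⟨b1, -, -⟩ := H1b_vals (γ (k - 1))
  obtain ⟨c1, -, -⟩ := H1b_vals (γ (k - 4))
  refine H1b_inj _ _ (h k) ?_
  omega

end Pool.Agent.SM
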