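import Pool.Agent.Lib.MP_288534_co.Stm

/-! # [SM H1c] -/

set_option autoImplicit false

namespace Pool.Agent.SM

theorem pf_H1c : S_H1c := by
  intro z z' h h' hr e0 e1 e2 e3
  -- windows
  have key : ∀ n : ℕ, ∀ k : ℤ, (-3 - n ≤ k ∧ k ≤ n) → z k = z' k := by
    intro n
    induction n with
    | zero =>
      intro k hk
      have hk' : k = 0 ∨ k = -1 ∨ k = -2 ∨ k = -3 := by
        obtain ⟨a, b⟩ := hk
        push_cast at a b
        omega
      rcases hk' with rfl | rfl | rfl | rfl
      · exact e0
      · exact e1
      · exact e2
      · exact e3
    | succ n ih =>
      intro k hk
      obtain ⟨a, b⟩ := hk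
      push_cast at a b
      by_cases hk1 : k = (n : ℤ) + 1
      · have i1 := ih (k - 1) (by constructor <;> omega)
        have i4 := ih (k - 4) (by constructor <;> omega)
        have q := (h k).2.2
        have q' := (h' k).2.2
        have r := hr k
        by_cases c : z k = z (k - 1)
        · have := r.1 c
          omega
        · have c' : ¬ z' k = z' (k - 1) := fun t => c (r.2 t)
          have d := q.resolve_left c
          have d' := q'.resolve_left c'
          omega
      · by_cases hk2 : k = -3 - ((n : ℤ) + 1)
        · -- backward: k = j - 4 with j = k + 4
          have i1 := ih (k + 1) (by constructor <;> omega)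
          have i2 := ih (k + 2) (by constructor <;> omega)
          have i3 := ih (k + 3) (by constructor <;> omega)
          have i4 := ih (k + 4) (by constructor <;> omega)
          have s1 : k + 4 - 1 = k + 3 := by ring
          have s2 : k + 4 - 4 = k := by ring
          have s3 : k + 1 - 1 = k := by ring
          have s4 : k + 5 - 1 = k + 4 := by ring
          have s5 : k + 5 - 4 = k + 1 := by ring
          have A := h (k + 4)
          have A' := h' (k + 4)
          have B := h (k + 1)
          have B' := h' (k + 1)
          have C := h (k + 5)
          have C' := h' (k + 5)
          have r4 := hr (k + 4)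
          have r1 := hr (k + 1)
          rw [s1, s2] at A A'
          rw [s1] at r4
          rw [s3] at B B' r1
          rw [s4, s5] at C C'
          have v := (h k).1
          have v' := (h' k).1
          have v3 := (h (k + 3)).1
          by_cases c : z (k + 4) = z (k + 3)
          · by_cases d : z (k + 1) = z k
            · have d' := r1.1 d
              omega
            · have d' : ¬ z' (k + 1) = z' k := fun t => d (r1.2 t)
              have c' := r4.1 c
              omega
          · have c' : ¬ z' (k + 4) = z' (k + 3) := fun t => c (r4.2 t)
            have d := A.2.2.resolve_left c
            have d' := A'.2.2.resolve_left c'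
            omega
        · exact ih k (by constructor <;> omega)
  intro k
  exact key k.natAbs k (by constructor <;> omega)

end Pool.Agent.SM
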