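import Pool.Agent.Lib.MP_288534_co.Stm

/-! # [SM H1d] -/

set_option autoImplicit false

namespace Pool.Agent.SM

theorem H1d_up : {U : Set ℤ | ∀ q, q ∈ U → q + 1 ∈ U}.Countable := by
  have hc : (({∅, Set.univ} : Set (Set ℤ)) ∪ Set.range (fun m : ℤ => Set.Ici m)).Countable :=
    ((Set.toFinite _).countable).union (Set.countable_range _)
  refine hc.mono ?_
  intro U hU
  have hstep : ∀ q, q ∈ U → ∀ n : ℕ, q + n ∈ U := by
    intro q hq n
    induction n with
    | zero => simpa using hq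
    | succ n ih =>
      have := hU _ ih
      push_cast
      rwa [← add_assoc]
  have hup : ∀ q ∈ U, ∀ r, q ≤ r → r ∈ U := by
    intro q hq r hr
    have := hstep q hq (r - q).toNat
    have e : q + ((r - q).toNat : ℤ) = r := by omega
    rwa [e] at this
  by_cases h0 : U = ∅
  · left; left; exact h0
  by_cases h1 : BddBelow U
  · right
    have hne : U.Nonempty := Set.nonempty_iff_ne_empty.2 h0
    obtain ⟨b, hb⟩ := h1
    obtain ⟨m, hm, hmin⟩ := Int.exists_least_of_bdd (P := fun z => z ∈ U)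
      ⟨b, fun z hz => hb hz⟩ hne
    refine ⟨m, ?_⟩
    ext r
    simp only [Set.mem_Ici]
    exact ⟨fun h => hup m hm r h, fun h => hmin r h⟩
  · left; right
    show U = Set.univ
    rw [Set.eq_univ_iff_forall]
    intro r
    by_contra hr
    apply h1
    refine ⟨r, fun q hq => ?_⟩
    by_contra hlt
    exact hr (hup q hq r (le_of_lt (not_le.1 hlt)))

theorem pf_H1d : S_H1d := by
  have hP : {f : Fin 3 → Set ℤ | ∀ a, f a ∈ {U : Set ℤ | ∀ q, q ∈ U → q + 1 ∈ U}}.Countable :=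
    Set.countable_pi (fun _ => H1d_up)
  refine Set.MapsTo.countable_of_injOn (f := fun (R : Set ℤ) (i : Fin 3) =>
    {q : ℤ | 3 * q + (i.val : ℤ) ∈ R}) (t := _) ?_ ?_ hP
  · intro R hR a q hq
    have := hR _ hq
    show 3 * (q + 1) + (a.val : ℤ) ∈ R
    have e : 3 * (q + 1) + (a.val : ℤ) = 3 * q + (a.val : ℤ) + 3 := by ring
    rw [e]; exact this
  · intro R _ R' _ h
    ext k
    have e : 3 * (k / 3) + ((k % 3).toNat : ℤ) = k := by omega
    have hlt : (k % 3).toNat < 3 := by omega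
    have h1 := congrFun h ⟨(k % 3).toNat, hlt⟩
    have h2 : k / 3 ∈ {q : ℤ | 3 * q + ((k % 3).toNat : ℤ) ∈ R} ↔
        k / 3 ∈ {q : ℤ | 3 * q + ((k % 3).toNat : ℤ) ∈ R'} := by
      have h1' : {q : ℤ | 3 * q + ((k % 3).toNat : ℤ) ∈ R} =
        {q : ℤ | 3 * q + ((k % 3).toNat : ℤ) ∈ R'} := h1
      rw [h1']
    simpa only [Set.mem_ofPred_eq, e] using h2

end Pool.Agent.SM
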