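import Pool.Agent.Lib.MP_288534_co.Stm

/-! Piece H2b (helper88): the first repetitions. -/

set_option autoImplicit false

namespace Pool.Agent.SM

private theorem H2b_neg (m : ℕ) (k : ℤ) (h : k < 0) : zseq m k =
    (if k % 4 = 0 then 1 else if k % 4 = 1 then 3 else if k % 4 = 2 then 1 else 5) := by
  unfold zseq
  rw [if_pos h]

private theorem H2b_mid (m : ℕ) (k : ℤ) (h : 0 ≤ k) (h1 : k < 9 * m) : zseq m k =
    (if k % 9 = 0 then 5 else if k % 9 = 1 then 3 else if k % 9 = 2 then 1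
     else if k % 9 = 3 then 1 else if k % 9 = 4 then 5 else if k % 9 = 5 then 3
     else if k % 9 = 6 then 3 else if k % 9 = 7 then 1 else 5) := by
  unfold zseq
  rw [if_neg (by omega), if_pos h1]

private theorem H2b_up (m : ℕ) (k : ℤ) (h : 9 * (m : ℤ) ≤ k) : zseq m k =
    (if (k - 9 * m) % 6 = 0 then 5 else if (k - 9 * m) % 6 = 1 then 5
     else if (k - 9 * m) % 6 = 2 then 1 else if (k - 9 * m) % 6 = 3 then 1
     else if (k - 9 * m) % 6 = 4 then 1 else 5) := by
  unfold zseq
  rw [if_neg (by omega), if_neg (by omega)]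

private theorem H2b_m1 (m : ℕ) : zseq m (-1) = 5 := by
  rw [H2b_neg m (-1) (by norm_num)]
  norm_num

private theorem H2b_m2 (m : ℕ) : zseq m (-2) = 1 := by
  rw [H2b_neg m (-2) (by norm_num)]
  norm_num

private theorem H2b_0 (m : ℕ) : zseq m 0 = 5 := by
  rcases Nat.eq_zero_or_pos m with h | h
  · subst h
    rw [H2b_up 0 0 (by norm_num)]
    norm_num
  · rw [H2b_mid m 0 le_rfl (by omega)]
    norm_num

private theorem H2b_9m (m : ℕ) : zseq m (9 * m) = 5 := by
  rw [H2b_up m _ le_rfl, if_pos (by omega)]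

private theorem H2b_9m1 (m : ℕ) : zseq m (9 * m + 1) = 5 := by
  rw [H2b_up m _ (by omega), if_neg (by omega), if_pos (by omega)]

private theorem H2b_9mm1 (m : ℕ) : zseq m (9 * m - 1) = 5 := by
  rcases Nat.eq_zero_or_pos m with h | h
  · subst h
    have : (9 * ((0 : ℕ) : ℤ) - 1) = -1 := by norm_num
    rw [this]
    exact H2b_m1 0
  · rw [H2b_mid m _ (by omega) (by omega)]
    have h8 : (9 * (m : ℤ) - 1) % 9 = 8 := by omega
    rw [h8]
    norm_num

private theorem H2b_tri (m : ℕ) (k : ℤ) (hk : k < 9 * m + 1) :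
    ¬ (zseq m k = zseq m (k - 1) ∧ zseq m (k - 1) = zseq m (k - 2)) := by
  rintro ⟨e1, e2⟩
  by_cases hneg : k < 0
  · rw [H2b_neg m k hneg, H2b_neg m (k - 1) (by omega)] at e1
    have h4 : k % 4 = 0 ∨ k % 4 = 1 ∨ k % 4 = 2 ∨ k % 4 = 3 := by omega
    rcases h4 with h | h | h | h
    · have h' : (k - 1) % 4 = 3 := by omega
      rw [h, h'] at e1; norm_num at e1
    · have h' : (k - 1) % 4 = 0 := by omega
      rw [h, h'] at e1; norm_num at e1
    · have h' : (k - 1) % 4 = 1 := by omega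
      rw [h, h'] at e1; norm_num at e1
    · have h' : (k - 1) % 4 = 2 := by omega
      rw [h, h'] at e1; norm_num at e1
  by_cases h0 : k = 0
  · subst h0
    have a1 : (0 : ℤ) - 1 = -1 := by norm_num
    have a2 : (0 : ℤ) - 2 = -2 := by norm_num
    rw [a1, a2, H2b_m1, H2b_m2] at e2
    norm_num at e2
  by_cases h1 : k = 1
  · subst h1
    have a1 : (1 : ℤ) - 1 = 0 := by norm_num
    have a2 : (1 : ℤ) - 2 = -1 := by norm_num
    rw [a1, H2b_0, H2b_mid m 1 (by omega) (by omega)] at e1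
    norm_num at e1
  by_cases h9 : k = 9 * m
  · rw [h9, H2b_9mm1, H2b_mid m _ (by omega) (by omega)] at e2
    have h8 : (9 * (m : ℤ) - 2) % 9 = 7 := by omega
    rw [h8] at e2
    norm_num at e2
  · rw [H2b_mid m k (by omega) (by omega), H2b_mid m (k - 1) (by omega) (by omega)] at e1
    rw [H2b_mid m (k - 1) (by omega) (by omega), H2b_mid m (k - 2) (by omega) (by omega)] at e2
    have h4 : k % 9 = 0 ∨ k % 9 = 1 ∨ k % 9 = 2 ∨ k % 9 = 3 ∨ k % 9 = 4 ∨ k % 9 = 5 ∨
        k % 9 = 6 ∨ k % 9 = 7 ∨ k % 9 = 8 := by omega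
    rcases h4 with h | h | h | h | h | h | h | h | h
    · have h' : (k - 1) % 9 = 8 := by omega
      have h'' : (k - 2) % 9 = 7 := by omega
      rw [h', h''] at e2; norm_num at e2
    · have h' : (k - 1) % 9 = 0 := by omega
      rw [h, h'] at e1; norm_num at e1
    · have h' : (k - 1) % 9 = 1 := by omega
      rw [h, h'] at e1; norm_num at e1
    · have h' : (k - 1) % 9 = 2 := by omega
      have h'' : (k - 2) % 9 = 1 := by omega
      rw [h', h''] at e2; norm_num at e2
    · have h' : (k - 1) % 9 = 3 := by omega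
      rw [h, h'] at e1; norm_num at e1
    · have h' : (k - 1) % 9 = 4 := by omega
      rw [h, h'] at e1; norm_num at e1
    · have h' : (k - 1) % 9 = 5 := by omega
      have h'' : (k - 2) % 9 = 4 := by omega
      rw [h', h''] at e2; norm_num at e2
    · have h' : (k - 1) % 9 = 6 := by omega
      rw [h, h'] at e1; norm_num at e1
    · have h' : (k - 1) % 9 = 7 := by omega
      rw [h, h'] at e1; norm_num at e1


theorem pf_H2b : S_H2b := by
  intro m
  refine ⟨?_, ?_, ⟨?_, ?_⟩, ?_⟩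
  · rw [H2b_0, H2b_m1]
  · intro k hk
    rw [H2b_neg m k hk, H2b_neg m (k - 1) (by omega)]
    have h4 : k % 4 = 0 ∨ k % 4 = 1 ∨ k % 4 = 2 ∨ k % 4 = 3 := by omega
    rcases h4 with h | h | h | h
    · have h' : (k - 1) % 4 = 3 := by omega
      rw [h, h']; norm_num
    · have h' : (k - 1) % 4 = 0 := by omega
      rw [h, h']; norm_num
    · have h' : (k - 1) % 4 = 1 := by omega
      rw [h, h']; norm_num
    · have h' : (k - 1) % 4 = 2 := by omega
      rw [h, h']; norm_num
  · rw [H2b_9m1, H2b_9m]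
  · rw [H2b_9m, H2b_9mm1]
  · intro k hk
    exact H2b_tri m k (by exact_mod_cast hk)

end Pool.Agent.SM
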