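import Pool.Agent.Lib.MP_288534_co.Stm

/-!
# MP_288534_co : piece [SM H2c], inequivalence of the sequences
-/

set_option autoImplicit false

namespace Pool.Agent.SM

private theorem H2c_vals (m : ℕ) (k : ℤ) : zseq m k = 1 ∨ zseq m k = 3 ∨ zseq m k = 5 := by
  unfold zseq
  repeat' split
  all_goals simp

private theorem H2c_inj (s : Bool) (a b w : ℤ) (ha : a = 1 ∨ a = 3 ∨ a = 5)
    (hb : b = 1 ∨ b = 3 ∨ b = 5) (h : (sg s * a + w) % 6 = (sg s * b + w) % 6) : a = b := by
  cases s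
  · simp only [sg, Bool.false_eq_true, if_false] at h
    omega
  · simp only [sg, if_true] at h
    omega

theorem pf_H2c (_hH2a : S_H2a) (hH2b : S_H2b) : S_H2c := by
  intro m m' j w s h
  obtain ⟨a1, a2, ⟨a3, a3'⟩, a4⟩ := hH2b m
  obtain ⟨b1, b2, ⟨b3, b3'⟩, b4⟩ := hH2b m'
  -- repetitions correspond
  have key : ∀ k l : ℤ, zseq m' (k + j) = zseq m' (l + j) ↔ zseq m k = zseq m l := by
    intro k l
    rw [h k, h l]
    exact ⟨H2c_inj s _ _ w (H2c_vals m k) (H2c_vals m l), fun e => by rw [e]⟩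
  have hj : j = 0 := by
    have h1 : ¬ j < 0 := by
      intro hlt
      apply b2 j hlt
      have := (key 0 (-1)).2 a1
      rw [zero_add, neg_add_eq_sub] at this
      exact this
    have h2 : ¬ (-j) < 0 := by
      intro hlt
      apply a2 (-j) hlt
      apply (key (-j) (-j - 1)).1
      rw [neg_add_cancel, show -j - 1 + j = -1 by ring]
      exact b1
    omega
  subst hj
  simp only [add_zero] at key
  have h1 : ¬ (9 * m + 1 < 9 * m' + 1) := by
    intro hlt
    apply b4 _ hlt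
    push_cast
    rw [show 9 * (m : ℤ) + 1 - 1 = 9 * m by ring, show 9 * (m : ℤ) + 1 - 2 = 9 * m - 1 by ring]
    exact ⟨(key _ _).2 a3, (key _ _).2 a3'⟩
  have h2 : ¬ (9 * m' + 1 < 9 * m + 1) := by
    intro hlt
    apply a4 _ hlt
    push_cast
    rw [show 9 * (m' : ℤ) + 1 - 1 = 9 * m' by ring, show 9 * (m' : ℤ) + 1 - 2 = 9 * m' - 1 by ring]
    exact ⟨(key _ _).1 b3, (key _ _).1 b3'⟩
  omega

end Pool.Agent.SM
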