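import Pool.Agent.Lib.MP_288534_co.Stm

set_option autoImplicit false

namespace Pool.Agent.SM

theorem pf_K1 : S_K1 := by
  intro n a
  have hmem : ∀ c, c ∈ lats a ↔ (c ≠ a ∧ ¬ (a.val = 2 ∧ c.val = 0)) := by
    intro c
    unfold lats
    rw [List.mem_filter]
    simp
    tauto
  refine ⟨?_, ?_, ?_, hmem⟩
  · rw [hmem]
    exact fun h => h.1 rfl
  · exact (List.nodup_finRange _).filter _
  · by_cases h : a.val = 1
    · refine List.ne_nil_of_mem ((hmem (az n)).2 ⟨?_, ?_⟩)
      · intro e
        rw [← e] at h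
        simp at h
      · rintro ⟨h2, -⟩
        omega
    · refine List.ne_nil_of_mem ((hmem (ay n)).2 ⟨?_, ?_⟩)
      · intro e
        apply h
        rw [← e]
      · rintro ⟨-, h2⟩
        simp at h2

end Pool.Agent.SM
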