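import Pool.Agent.Lib.MP_288534_co.Stm

set_option autoImplicit false

namespace Pool.Agent.SM

theorem pf_K2 (hK1 : S_K1) : S_K2 := by
  intro n κ j hj
  obtain ⟨h1, h2, h3, h4⟩ := hK1 n κ.a
  have hlen : κ.len = κ.run + (lats κ.a).length + 1 := by
    unfold Key.len Key.dirs
    simp [Nat.add_assoc]
  have hpos : 0 < (lats κ.a).length := List.length_pos_of_ne_nil h3
  have hct : ∀ c, (κ.dirs.take j).count c = ((List.replicate κ.run κ.a).take j).count c +
      ((lats κ.a).take (j - κ.run)).count c +
      (([κ.a] : List (Dx n)).take (j - κ.run - (lats κ.a).length)).count c := by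
    intro c
    unfold Key.dirs
    rw [List.take_append, List.take_append, List.count_append, List.count_append]
    simp [Nat.sub_sub]
  have hrep : ∀ c, ((List.replicate κ.run κ.a).take j).count c =
      if κ.a = c then min j κ.run else 0 := by
    intro c
    rw [List.take_replicate, List.count_replicate]
    by_cases h : κ.a = c <;> simp [h]
  have hlat : ∀ c, ((lats κ.a).take (j - κ.run)).count c ≤ 1 := by
    intro c
    exact (List.Sublist.count_le _ (List.take_sublist _ _)).trans
      (List.nodup_iff_count_le_one.1 h2 c)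
  have hlat0 : ∀ c, c ∉ lats κ.a → ((lats κ.a).take (j - κ.run)).count c = 0 := by
    intro c hc
    exact List.count_eq_zero.2 fun h => hc (List.mem_of_mem_take h)
  have hsing : ∀ c, c ≠ κ.a →
      (([κ.a] : List (Dx n)).take (j - κ.run - (lats κ.a).length)).count c = 0 := by
    intro c hc
    refine List.count_eq_zero.2 fun h => hc ?_
    have := List.mem_of_mem_take h
    simpa using this
  have hsing0 : j - κ.run - (lats κ.a).length = 0 →
      (([κ.a] : List (Dx n)).take (j - κ.run - (lats κ.a).length)).count κ.a = 0 := by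
    intro h
    rw [h]
    simp
  refine ⟨?_, ?_, ?_, ?_, ?_, ?_⟩
  · intro c hc
    rw [hct, hrep, if_neg (fun e => hc e.symm), hsing c hc]
    have := hlat c
    omega
  · intro c hc hcl
    rw [hct, hrep, if_neg (fun e => hc e.symm), hsing c hc, hlat0 c hcl]
  · intro hjr
    rw [hct, hrep, if_pos rfl, hlat0 _ h1, hsing0 (by omega)]
    omega
  · intro hrj hjl
    rw [hct, hrep, if_pos rfl, hlat0 _ h1, hsing0 (by omega)]
    omega
  · intro hjl
    have e : j - κ.run - (lats κ.a).length = 1 := by omega
    rw [hct, hrep, if_pos rfl, hlat0 _ h1, e]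
    have : (([κ.a] : List (Dx n)).take 1).count κ.a = 1 := by simp
    rw [this]
    omega
  · omega

end Pool.Agent.SM
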