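import Pool.Agent.Lib.MP_288534_co.Stm

set_option autoImplicit false

namespace Pool.Agent.SM

private theorem K3_idx_le {n : ℕ} (κ : Key n) : κ.idx ≤ 2 * n + 5 := by
  unfold Key.idx
  have := κ.a.isLt
  split <;> omega

private theorem K3_sg (s : Bool) : sg s = 1 ∨ sg s = -1 := by
  cases s <;> simp [sg]

theorem pf_K3 (_hK1 : S_K1) (hK2 : S_K2) : S_K3 := by
  intro n κ j hj
  obtain ⟨-, -, -, hl⟩ := _hK1 n κ.a
  obtain ⟨c1, c2, c3, c4, c5, c6⟩ := hK2 n κ j hj
  have hidx := K3_idx_le κ
  have hrun : κ.run = κ.idx + 2 := rfl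
  have hKK : KK n = 8 * (n + 3) := rfl
  -- the main axis
  have hqa : ∀ j, κ.q j κ.a = - sg κ.s * (KK n - 1 - κ.run + ((κ.dirs.take j).count κ.a : ℤ)) := by
    intro j
    unfold Key.q Key.leaf
    rw [if_pos rfl]
    ring
  have habs : ∀ x : ℤ, 0 ≤ x → |- sg κ.s * x| = x := by
    intro x hx
    rw [abs_mul, abs_neg]
    have : |sg κ.s| = 1 := by
      rcases K3_sg κ.s with h | h <;> simp [h]
    rw [this, one_mul, abs_of_nonneg hx]
  have hcnt : (κ.dirs.take j).count κ.a ≤ κ.run + 1 := by
    rcases Nat.lt_or_ge κ.run j with h | h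
    · rcases Nat.lt_or_ge j κ.len with h' | h'
      · rw [c4 h.le h']; omega
      · rw [c5 (le_antisymm hj h')]
    · rw [c3 h]; omega
  have hcnt' : j < κ.len → (κ.dirs.take j).count κ.a ≤ κ.run := by
    intro h'
    rcases Nat.lt_or_ge κ.run j with h | h
    · rw [c4 h.le h']
    · rw [c3 h]; exact h
  -- the other axes
  have hother : ∀ c, c ≠ κ.a → |κ.q j c| ≤ KK n - 1 := by
    intro c hc
    by_cases h20 : κ.a.val = 2 ∧ c.val = 0
    · have h0 : (κ.dirs.take j).count c = 0 := by
        apply c2 c hc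
        rw [hl]
        exact fun h => h.2 h20
      have : κ.q j c = 0 := by
        unfold Key.q Key.leaf
        rw [if_neg hc, if_pos h20, h0]
        simp
      rw [this, abs_zero, hKK]
      omega
    · have hq : κ.q j c = sg κ.s + (if c.val = 0 then κ.off else 0) -
          sg κ.s * ((κ.dirs.take j).count c : ℤ) := by
        unfold Key.q Key.leaf
        rw [if_neg hc, if_neg h20]
      have ho : 0 ≤ (if c.val = 0 then κ.off else 0) ∧
          (if c.val = 0 then κ.off else 0) ≤ 8 * (n : ℤ) + 20 := by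
        unfold Key.off
        split
        · split
          · omega
          · omega
        · omega
      have h1 := c1 c hc
      have h01 : (κ.dirs.take j).count c = 0 ∨ (κ.dirs.take j).count c = 1 := by omega
      rw [abs_le, hq, hKK]
      generalize (if c.val = 0 then κ.off else 0) = o at ho
      rcases K3_sg κ.s with h | h <;> rcases h01 with h' | h' <;> rw [h, h'] <;>
        constructor <;> push_cast <;> omega
  have hmain : |κ.q j κ.a| ≤ KK n := by
    rw [hqa, habs _ (by rw [hKK]; omega)]
    omega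
  refine ⟨?_, hother, ?_, ?_⟩
  · intro c
    by_cases hc : c = κ.a
    · rw [hc]; exact hmain
    · exact (hother c hc).trans (by omega)
  · intro h
    have := hcnt' h
    rw [hqa, habs _ (by rw [hKK]; omega)]
    omega
  · obtain ⟨-, -, -, -, d5, -⟩ := hK2 n κ κ.len le_rfl
    rw [hqa, d5 rfl]
    push_cast
    ring

end Pool.Agent.SM
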