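import Pool.Agent.Lib.MP_288534_co.Stm

set_option autoImplicit false

namespace Pool.Agent.SM

private theorem K4_val {n : ℕ} (hK2 : S_K2) (κ : Key n) (j : ℕ) (h3 : 3 ≤ κ.a.val)
    (hj : j ≤ κ.len) : 4 * (κ.idx : ℤ) - 1 ≤ κ.q j (ax n) ∧ κ.q j (ax n) ≤ 4 * (κ.idx : ℤ) + 1 := by
  obtain ⟨c1, -, -, -, -, -⟩ := hK2 n κ j hj
  have hc : ax n ≠ κ.a := by
    intro e
    rw [← e] at h3
    simp at h3
  have h1 := c1 (ax n) hc
  have h01 : (κ.dirs.take j).count (ax n) = 0 ∨ (κ.dirs.take j).count (ax n) = 1 := by omega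
  have h20 : ¬ (κ.a.val = 2 ∧ (ax n).val = 0) := by
    rintro ⟨h, -⟩
    omega
  have hq : κ.q j (ax n) = sg κ.s + 4 * (κ.idx : ℤ) -
      sg κ.s * ((κ.dirs.take j).count (ax n) : ℤ) := by
    unfold Key.q Key.leaf Key.off
    rw [if_neg hc, if_neg h20, if_pos rfl, if_pos h3]
  have hs : sg κ.s = 1 ∨ sg κ.s = -1 := by
    cases κ.s <;> simp [sg]
  rw [hq]
  rcases hs with h | h <;> rcases h01 with h' | h' <;> rw [h, h'] <;>
    constructor <;> push_cast <;> omega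

private theorem K4_idx {n : ℕ} (κ κ' : Key n) (h3 : 3 ≤ κ.a.val) (h3' : 3 ≤ κ'.a.val)
    (h : κ.idx = κ'.idx) : κ = κ' := by
  obtain ⟨a, s, B, hB⟩ := κ
  obtain ⟨a', s', B', hB'⟩ := κ'
  unfold Key.idx at h
  simp only at h h3 h3'
  have e1 : B = 0 := hB (by omega)
  have e2 : B' = 0 := hB' (by omega)
  subst e1 e2
  have ha : a = a' := by
    apply Fin.ext
    cases s <;> cases s' <;> simp at h <;> omega
  subst ha
  have hs : s = s' := by
    cases s <;> cases s' <;> simp at h ⊢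
  subst hs
  rfl

theorem pf_K4 (_hK1 : S_K1) (hK2 : S_K2) : S_K4 := by
  intro n κ κ' j j' h3 h3' hne hj hj'
  have h1 := K4_val hK2 κ j h3 hj
  have h2 := K4_val hK2 κ' j' h3' hj'
  have hidx : κ.idx ≠ κ'.idx := fun h => hne (K4_idx κ κ' h3 h3' h)
  rw [le_abs]
  omega

end Pool.Agent.SM
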