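import Pool.Agent.Lib.MP_288534_co.Stm

set_option autoImplicit false

namespace Pool.Agent.SM

theorem K5_sg_sq (s : Bool) : sg s * sg s = 1 := by
  cases s <;> simp [sg]

theorem K5_count_mono {n : ℕ} (κ : Key n) (i j : ℕ) (h : i ≤ j) (c : Dx n) :
    (κ.dirs.take i).count c ≤ (κ.dirs.take j).count c := by
  apply List.Sublist.count_le
  have : κ.dirs.take i = (κ.dirs.take j).take i := by
    rw [List.take_take, min_eq_left h]
  rw [this]
  exact List.take_sublist _ _

theorem K5_diff {n : ℕ} (κ : Key n) (i j : ℕ) (c : Dx n) :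
    κ.q i c - κ.q j c =
      sg κ.s * (((κ.dirs.take j).count c : ℤ) - ((κ.dirs.take i).count c : ℤ)) := by
  unfold Key.q
  ring

theorem pf_K5 : S_K5 := by
  intro n κ i j hij c
  rw [K5_diff, ← mul_assoc, K5_sg_sq, one_mul]
  have := K5_count_mono κ i j hij c
  omega

end Pool.Agent.SM
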