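import Pool.Agent.Lib.MP_288534_co.Stm

set_option autoImplicit false

namespace Pool.Agent.SM

private theorem K6_count_mono {n : ℕ} (κ : Key n) (i j : ℕ) (h : i ≤ j) (c : Dx n) :
    (κ.dirs.take i).count c ≤ (κ.dirs.take j).count c := by
  apply List.Sublist.count_le
  have : κ.dirs.take i = (κ.dirs.take j).take i := by
    rw [List.take_take, min_eq_left h]
  rw [this]
  exact List.take_sublist _ _

private theorem K6_sum_count {n : ℕ} (l : List (Dx n)) :
    ∑ c, ((l.count c : ℕ) : ℤ) = l.length := by
  induction l with
  | nil => simp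
  | cons a l ih =>
    have : ∀ c, (((a :: l).count c : ℕ) : ℤ) = (l.count c : ℤ) + (if a = c then 1 else 0) := by
      intro c
      rw [List.count_cons]
      push_cast
      congr 1
      by_cases h : a = c <;> simp [h]
    simp only [this]
    rw [Finset.sum_add_distrib, ih]
    simp

theorem pf_K6 : S_K6 := by
  intro n κ i j hij hj
  have h1 : ∀ c, |κ.q i c - κ.q j c| =
      ((κ.dirs.take j).count c : ℤ) - ((κ.dirs.take i).count c : ℤ) := by
    intro c
    have e : κ.q i c - κ.q j c =
        sg κ.s * (((κ.dirs.take j).count c : ℤ) - ((κ.dirs.take i).count c : ℤ)) := by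
      unfold Key.q
      ring
    have hm := K6_count_mono κ i j hij c
    have hs : |sg κ.s| = 1 := by
      cases κ.s <;> simp [sg]
    rw [e, abs_mul, hs, one_mul, abs_of_nonneg]
    omega
  simp only [h1]
  rw [Finset.sum_sub_distrib, K6_sum_count, K6_sum_count, List.length_take, List.length_take]
  unfold Key.len at hj
  rw [min_eq_left hj, min_eq_left (hij.trans hj)]

end Pool.Agent.SM
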