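import Pool.Agent.Lib.MP_288534_co.Stm

set_option autoImplicit false

namespace Pool.Agent.SM

theorem pf_K7 : S_K7 := by
  intro n κ j hj c
  unfold Key.q
  rw [← List.take_append_getElem hj, List.count_append, List.count_singleton]
  push_cast
  by_cases h : c = κ.dirs[j]
  · rw [if_pos h]
    simp [h]
    ring
  · rw [if_neg h]
    have h' : ¬ (κ.dirs[j] = c) := fun e => h e.symm
    simp [h']

end Pool.Agent.SM
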