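import Pool.Agent.Lib.MP_288534_co.Stm

namespace Pool.Agent.SM

/-- membership in the macro polycube by values -/
private theorem K8a_mem {n : ℕ} (c : Zc n) (x y z : ℤ) (hx : c (ax n) = x) (hy : c (ay n) = y)
    (hz : c (az n) = z) (hP : InP x y z) (h : ∀ i : Dx n, 3 ≤ i.val → c i = 0) : c ∈ PP n := by
  refine ⟨?_, h⟩
  rw [hx, hy, hz]
  exact hP

private theorem K8a_not {n : ℕ} (c : Zc n) (x y z : ℤ) (hx : c (ax n) = x) (hy : c (ay n) = y)
    (hz : c (az n) = z) (hP : ¬ InP x y z) : c ∉ PP n := by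
  rintro ⟨h1, -⟩
  rw [hx, hy, hz] at h1
  exact hP h1

theorem pf_K8a : S_K8a := by
  intro n κ
  obtain ⟨a, s, B, hB⟩ := κ
  have h2 : B.val = 0 ∨ B.val = 1 ∨ B.val = 2 := by omega
  have hc : a.val = 0 ∨ a.val = 1 ∨ a.val = 2 ∨ 3 ≤ a.val := by omega
  rcases hc with h | h | h | h
  · cases s
    · refine ⟨K8a_mem _ 5 0 1 ?_ ?_ ?_ ?_ ?_, K8a_not _ (-1) 0 1 ?_ ?_ ?_ ?_,
        K8a_mem _ 0 0 1 ?_ ?_ ?_ ?_ ?_, K8a_not _ 6 0 1 ?_ ?_ ?_ ?_⟩
      all_goals first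
        | (simp [Key.base, Key.v, Fin.ext_iff, h, sg, -Fin.val_eq_zero_iff]; done)
        | (simp [InP]; done)
        | (intro i hi'
           have h0 : i.val ≠ 0 := by omega
           have h1 : i.val ≠ 1 := by omega
           have h2 : i.val ≠ 2 := by omega
           simp [Key.base, Key.v, Fin.ext_iff, h, h0, h1, h2, sg, -Fin.val_eq_zero_iff])
    · refine ⟨K8a_mem _ 0 0 0 ?_ ?_ ?_ ?_ ?_, K8a_not _ 6 0 0 ?_ ?_ ?_ ?_,
        K8a_mem _ 5 0 0 ?_ ?_ ?_ ?_ ?_, K8a_not _ (-1) 0 0 ?_ ?_ ?_ ?_⟩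
      all_goals first
        | (simp [Key.base, Key.v, Fin.ext_iff, h, sg, -Fin.val_eq_zero_iff]; done)
        | (simp [InP]; done)
        | (intro i hi'
           have h0 : i.val ≠ 0 := by omega
           have h1 : i.val ≠ 1 := by omega
           have h2 : i.val ≠ 2 := by omega
           simp [Key.base, Key.v, Fin.ext_iff, h, h0, h1, h2, sg, -Fin.val_eq_zero_iff])
  · cases s
    · refine ⟨K8a_mem _ 2 4 1 ?_ ?_ ?_ ?_ ?_, K8a_not _ 2 (-1) 1 ?_ ?_ ?_ ?_,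
        K8a_mem _ 2 0 1 ?_ ?_ ?_ ?_ ?_, K8a_not _ 2 5 1 ?_ ?_ ?_ ?_⟩
      all_goals first
        | (simp [Key.base, Key.v, Fin.ext_iff, h, sg, -Fin.val_eq_zero_iff]; done)
        | (simp [InP]; done)
        | (intro i hi'
           have h0 : i.val ≠ 0 := by omega
           have h1 : i.val ≠ 1 := by omega
           have h2 : i.val ≠ 2 := by omega
           simp [Key.base, Key.v, Fin.ext_iff, h, h0, h1, h2, sg, -Fin.val_eq_zero_iff])
    · refine ⟨K8a_mem _ 2 0 0 ?_ ?_ ?_ ?_ ?_, K8a_not _ 2 5 0 ?_ ?_ ?_ ?_,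
        K8a_mem _ 2 4 0 ?_ ?_ ?_ ?_ ?_, K8a_not _ 2 (-1) 0 ?_ ?_ ?_ ?_⟩
      all_goals first
        | (simp [Key.base, Key.v, Fin.ext_iff, h, sg, -Fin.val_eq_zero_iff]; done)
        | (simp [InP]; done)
        | (intro i hi'
           have h0 : i.val ≠ 0 := by omega
           have h1 : i.val ≠ 1 := by omega
           have h2 : i.val ≠ 2 := by omega
           simp [Key.base, Key.v, Fin.ext_iff, h, h0, h1, h2, sg, -Fin.val_eq_zero_iff])
  · cases s
    · refine ⟨K8a_mem _ (2 * (B.val : ℤ)) 2 1 ?_ ?_ ?_ ?_ ?_,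
        K8a_not _ (2 * (B.val : ℤ)) 4 (-1) ?_ ?_ ?_ ?_,
        K8a_mem _ (2 * (B.val : ℤ)) 4 0 ?_ ?_ ?_ ?_ ?_,
        K8a_not _ (2 * (B.val : ℤ)) 2 2 ?_ ?_ ?_ ?_⟩
      all_goals first
        | (simp [Key.base, Key.v, Fin.ext_iff, h, sg, -Fin.val_eq_zero_iff]; done)
        | (unfold InP; omega)
        | (intro i hi'
           have h0 : i.val ≠ 0 := by omega
           have h1 : i.val ≠ 1 := by omega
           have h2 : i.val ≠ 2 := by omega
           simp [Key.base, Key.v, Fin.ext_iff, h, h0, h1, h2, sg, -Fin.val_eq_zero_iff])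
    · refine ⟨K8a_mem _ (2 * (B.val : ℤ)) 3 0 ?_ ?_ ?_ ?_ ?_,
        K8a_not _ (2 * (B.val : ℤ)) 1 2 ?_ ?_ ?_ ?_,
        K8a_mem _ (2 * (B.val : ℤ)) 1 1 ?_ ?_ ?_ ?_ ?_,
        K8a_not _ (2 * (B.val : ℤ)) 3 (-1) ?_ ?_ ?_ ?_⟩
      all_goals first
        | (simp [Key.base, Key.v, Fin.ext_iff, h, sg, -Fin.val_eq_zero_iff]; done)
        | (unfold InP; omega)
        | (intro i hi'
           have h0 : i.val ≠ 0 := by omega
           have h1 : i.val ≠ 1 := by omega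
           have h2 : i.val ≠ 2 := by omega
           simp [Key.base, Key.v, Fin.ext_iff, h, h0, h1, h2, sg, -Fin.val_eq_zero_iff])
  · have g0 : a.val ≠ 0 := by omega
    have g1 : a.val ≠ 1 := by omega
    have g2 : a.val ≠ 2 := by omega
    have g0' : ¬ (0 : ℕ) = a.val := by omega
    have g1' : ¬ (1 : ℕ) = a.val := by omega
    have g2' : ¬ (2 : ℕ) = a.val := by omega
    refine ⟨K8a_mem _ 2 1 0 ?_ ?_ ?_ ?_ ?_, ?_, K8a_mem _ 2 1 0 ?_ ?_ ?_ ?_ ?_, ?_⟩
    · simp [Key.base, g0, g1, g2, -Fin.val_eq_zero_iff]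
    · simp [Key.base, g0, g1, g2, -Fin.val_eq_zero_iff]
    · simp [Key.base, g0, g1, g2, h, -Fin.val_eq_zero_iff]
    · simp [InP]
    · intro i hi'
      have h0 : i.val ≠ 0 := by omega
      have h1 : i.val ≠ 1 := by omega
      have h2 : i.val ≠ 2 := by omega
      simp [Key.base, h0, h1, h2, -Fin.val_eq_zero_iff]
    · rintro ⟨-, h3⟩
      have := h3 a h
      simp [Key.base, Key.v, g0, g1, g2, -Fin.val_eq_zero_iff] at this
      cases s <;> simp [sg] at this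
    · simp [Key.base, Key.v, Fin.ext_iff, g0, g1, g2, g0', -Fin.val_eq_zero_iff]
    · simp [Key.base, Key.v, Fin.ext_iff, g0, g1, g2, g1', -Fin.val_eq_zero_iff]
    · simp [Key.base, Key.v, Fin.ext_iff, g0, g1, g2, g2', h, -Fin.val_eq_zero_iff]
    · simp [InP]
    · intro i hi'
      have h0 : i.val ≠ 0 := by omega
      have h1 : i.val ≠ 1 := by omega
      have h2 : i.val ≠ 2 := by omega
      simp [Key.base, Key.v, h0, h1, h2, g0, g1, g2, -Fin.val_eq_zero_iff]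
    · rintro ⟨-, h3⟩
      have := h3 a h
      simp [Key.base, g0, g1, g2, -Fin.val_eq_zero_iff] at this
      cases s <;> simp [sg] at this

end Pool.Agent.SM
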