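import Pool.Agent.Lib.MP_288534_co.Stm

set_option autoImplicit false

namespace Pool.Agent.SM

private theorem K8c_base {n : ℕ} (κ : Key n) :
    (κ.a.val = 0 ∧ κ.base (ax n) = 0 ∧ κ.base (ay n) = 0 ∧ κ.base (az n) = 0) ∨
    (κ.a.val = 0 ∧ κ.base (ax n) = 5 ∧ κ.base (ay n) = 0 ∧ κ.base (az n) = 1) ∨
    (κ.a.val = 1 ∧ κ.base (ax n) = 2 ∧ κ.base (ay n) = 0 ∧ κ.base (az n) = 0) ∨
    (κ.a.val = 1 ∧ κ.base (ax n) = 2 ∧ κ.base (ay n) = 4 ∧ κ.base (az n) = 1) ∨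
    (κ.a.val = 2 ∧ κ.base (ax n) = 2 * (κ.B.val : ℤ) ∧ κ.base (ay n) = 3 ∧ κ.base (az n) = 0) ∨
    (κ.a.val = 2 ∧ κ.base (ax n) = 2 * (κ.B.val : ℤ) ∧ κ.base (ay n) = 2 ∧ κ.base (az n) = 1) ∨
    (3 ≤ κ.a.val ∧ κ.base (ax n) = 2 ∧ κ.base (ay n) = 1 ∧ κ.base (az n) = 0) := by
  obtain ⟨a, s, B, hB⟩ := κ
  obtain ⟨a, ha⟩ := a
  rcases (by omega : a = 0 ∨ a = 1 ∨ a = 2 ∨ 3 ≤ a) with h | h | h | h
  · subst h; cases s <;> simp [Key.base]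
  · subst h; cases s <;> simp [Key.base]
  · subst h; cases s <;> simp [Key.base]
  · have h0 : a ≠ 0 := by omega
    have h1 : a ≠ 1 := by omega
    have h2 : a ≠ 2 := by omega
    simp [Key.base, h, h0, h1, h2]

private theorem K8c_low {n : ℕ} (κ : Key n) (b : Zc n)
    (hb : ∀ c, b c = κ.base c + κ.v c - (if c = κ.a then sg κ.s else 0)) :
    (κ.a.val = 0 ∧ b (ax n) = 5 ∧ b (ay n) = 0 ∧ b (az n) = 0) ∨
    (κ.a.val = 0 ∧ b (ax n) = 0 ∧ b (ay n) = 0 ∧ b (az n) = 1) ∨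
    (κ.a.val = 1 ∧ b (ax n) = 2 ∧ b (ay n) = 4 ∧ b (az n) = 0) ∨
    (κ.a.val = 1 ∧ b (ax n) = 2 ∧ b (ay n) = 0 ∧ b (az n) = 1) ∨
    (κ.a.val = 2 ∧ b (ay n) = 1 ∧ b (az n) = 1) ∨
    (κ.a.val = 2 ∧ b (ay n) = 4 ∧ b (az n) = 0) ∨
    (3 ≤ κ.a.val ∧ b (ax n) = 2 ∧ b (ay n) = 1 ∧ b (az n) = 0) := by
  obtain ⟨a, s, B, hB⟩ := κ
  obtain ⟨a, ha⟩ := a
  have h0 := hb (ax n)
  have h1 := hb (ay n)
  have h2 := hb (az n)
  rcases (by omega : a = 0 ∨ a = 1 ∨ a = 2 ∨ 3 ≤ a) with h | h | h | h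
  · subst h; cases s <;> simp [Key.base, Key.v, sg] at h0 h1 h2 <;> simp [h0, h1, h2]
  · subst h; cases s <;> simp [Key.base, Key.v, sg] at h0 h1 h2 <;> simp [h0, h1, h2]
  · subst h; cases s <;> simp [Key.base, Key.v, sg] at h0 h1 h2 <;> simp [h0, h1, h2]
  · have g0 : a ≠ 0 := by omega
    have g1 : a ≠ 1 := by omega
    have g2 : a ≠ 2 := by omega
    have g0' : ¬ (0 = a) := by omega
    have g1' : ¬ (1 = a) := by omega
    have g2' : ¬ (2 = a) := by omega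
    simp [Key.base, Key.v, h, g0, g1, g2, g0', g1', g2'] at h0 h1 h2
    simp [h0, h1, h2, h, g0, g1, g2]

theorem pf_K8c : S_K8c := by
  intro n κ κ'
  refine ⟨fun h => ?_, ?_, ?_, ?_⟩
  · rcases K8c_base κ' with h' | h' | h' | h' | h' | h' | h' <;>
    rcases K8c_low κ κ'.base h with h'' | h'' | h'' | h'' | h'' | h'' | h'' <;> omega
  · rcases K8c_base κ with h' | h' | h' | h' | h' | h' | h' <;> omega
  · rcases K8c_base κ with h' | h' | h' | h' | h' | h' | h' <;> omega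
  · rcases K8c_base κ with h' | h' | h' | h' | h' | h' | h' <;> omega

end Pool.Agent.SM
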