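import Pool.Agent.Lib.MP_288534_co.Stm

set_option autoImplicit false

namespace Pool.Agent.SM

theorem pf_K9 (hD1 : S_D1) (hD2 : S_D2) (hK3 : S_K3) (hK4 : S_K4) (hK5 : S_K5)
    (hK8a : S_K8a) (hK8c : S_K8c) : S_K9 := by
  intro n κ
  have hsg : sg κ.s = 1 ∨ sg κ.s = -1 := by
    unfold sg
    cases κ.s <;> simp
  have hMM : MM n = 2 * KK n + 1 := rfl
  have hKK : 0 < KK n := by
    unfold KK
    omega
  obtain ⟨k1, k2, k3, k4⟩ := hK3 n κ κ.len le_rfl
  have hmega : InMega (fun c => κ.base c + κ.v c - (if c = κ.a then sg κ.s else 0))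
      (fun c => κ.tail κ.len c - (if c = κ.a then sg κ.s else 0)) := by
    intro c
    by_cases hc : c = κ.a
    · subst hc
      simp only [if_true]
      have e : κ.tail κ.len κ.a - sg κ.s - MM n * (κ.base κ.a + κ.v κ.a - sg κ.s) =
          sg κ.s * KK n := by
        simp only [Key.tail, Key.tun]
        rw [k4, hMM]
        ring
      rw [e]
      rcases hsg with h | h
      · rw [h, one_mul, abs_of_pos hKK]
      · rw [h, neg_one_mul, abs_neg, abs_of_pos hKK]
    · simp only [hc, if_false]
      have e : κ.tail κ.len c - 0 - MM n * (κ.base c + κ.v c - 0) = κ.q κ.len c := by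
        simp only [Key.tail, Key.tun]
        ring
      rw [e]
      exact k1 c
  refine ⟨⟨_, (hK8a n κ).2.2.1, hmega⟩, ?_⟩
  rintro ⟨κ', j', hj', hp⟩
  have h1 := (hD2 n κ' j' hj').1
  rw [← hp] at h1
  have h2 := (hD1 n _).unique h1 hmega
  have h3 : ∀ c, κ'.base c = κ.base c + κ.v c - (if c = κ.a then sg κ.s else 0) :=
    fun c => congrFun h2 c
  obtain ⟨h4, h5⟩ := (hK8c n κ κ').1 h3
  by_cases hκ : κ = κ'
  · subst hκ
    have h6 := h3 κ.a
    have h7 := congrFun hp κ.a
    simp only [if_true, Key.tail, Key.tun] at h6 h7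
    rw [k4] at h7
    have h8 : κ.v κ.a = sg κ.s := by linarith
    rw [h8, hMM] at h7
    have h9 : κ.q j' κ.a = sg κ.s * KK n := by linear_combination -h7
    rcases Nat.lt_or_ge j' κ.len with h | h
    · have h10 := (hK3 n κ j' hj').2.2.1 h
      rw [h9] at h10
      rcases hsg with hs | hs
      · rw [hs, one_mul, abs_of_pos hKK] at h10
        omega
      · rw [hs, neg_one_mul, abs_neg, abs_of_pos hKK] at h10
        omega
    · have h10 : j' = κ.len := le_antisymm hj' h
      rw [h10, k4] at h9
      rcases hsg with hs | hs <;> rw [hs] at h9 <;> omega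
  · have h6 := hK4 n κ κ' κ.len j' h4 h5 hκ le_rfl hj'
    have hne : ax n ≠ κ.a := by
      intro h
      rw [← h] at h4
      simp at h4
    have h7 := h3 (ax n)
    have h8 := congrFun hp (ax n)
    simp only [hne, if_false, Key.tail, Key.tun] at h7 h8
    have h9 : κ.q κ.len (ax n) - κ'.q j' (ax n) = 0 := by
      rw [h7] at h8
      linear_combination h8
    rw [h9] at h6
    simp at h6

end Pool.Agent.SM
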