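import Pool.Agent.Lib.MP_288534_co.Stm

/-!
# MP_288534_co : [SM P1]
-/

set_option autoImplicit false

namespace Pool.Agent.SM

private theorem P1_InP_bd {x y z : ℤ} (h : InP x y z) : 0 ≤ x ∧ x ≤ 5 ∧ 0 ≤ y ∧ y ≤ 4 := by
  unfold InP at h
  omega

private theorem P1_sg (s : Bool) : sg s = 1 ∨ sg s = -1 := by
  cases s <;> simp [sg]

private theorem P1_pl_ext {n : ℕ} {g g' : Pl n} (h1 : g.s = g'.s) (h2 : g.V = g'.V) : g = g' := by
  cases g
  cases g'
  simp_all

theorem pf_P1 (hP1b : S_P1b) : S_P1 := by
  intro n γ hγ c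
  obtain ⟨k, hk, huniq⟩ := hP1b γ hγ (c (ax n)) (c (ay n)) (c (az n))
  -- data of an element of the chain containing `c`
  have key : ∀ g : Pl n, g ∈ Ch (n := n) γ → c ∈ g.mact '' PP n →
      g.s = (γ k).1 ∧
      g.V = fun i => if i.val = 0 then
          c i - sg (γ k).1 * ((sg (γ k).1 * (c (ax n) - 2 * ((γ k).2.val : ℤ))) % 6)
        else if i.val = 1 then c i - (c (ay n) + 2 * k) % 5
        else if i.val = 2 then 2 * k else c i := by
    rintro g ⟨k', hz, hs, hx6, hy5⟩ ⟨x, ⟨hxP, hx0⟩, hxc⟩
    have hb := P1_InP_bd hxP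
    have e0 : sg g.s * x (ax n) + g.V (ax n) = c (ax n) := by
      have := congrFun hxc (ax n)
      simpa [Pl.mact] using this
    have e1 : x (ay n) + g.V (ay n) = c (ay n) := by
      have := congrFun hxc (ay n)
      simpa [Pl.mact] using this
    have e2 : x (az n) + g.V (az n) = c (az n) := by
      have := congrFun hxc (az n)
      simpa [Pl.mact] using this
    have ei : ∀ i : Dx n, 3 ≤ i.val → g.V i = c i := by
      intro i hi
      have := congrFun hxc i
      have h0 : i.val ≠ 0 := by omega
      simp only [Pl.mact, h0, if_false, hx0 i hi, zero_add] at this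
      exact this
    have f0 : x (ax n) = (sg (γ k').1 * (c (ax n) - 2 * ((γ k').2.val : ℤ))) % 6 := by
      rw [← hs]
      rcases P1_sg g.s with h | h <;> rw [h] at e0 ⊢ <;> omega
    have f1 : x (ay n) = (c (ay n) + 2 * k') % 5 := by omega
    have f2 : x (az n) = c (az n) - 2 * k' := by omega
    have hk' : k' = k := by
      apply huniq
      show InP _ _ _
      rw [← f0, ← f1, ← f2]
      exact hxP
    subst hk'
    refine ⟨hs, ?_⟩
    funext i
    rcases i with ⟨i, hi⟩
    by_cases h0 : i = 0
    · subst h0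
      simp only [if_true]
      rw [← f0, ← hs]
      have : c ⟨0, hi⟩ = c (ax n) := rfl
      rw [this]
      have : g.V ⟨0, hi⟩ = g.V (ax n) := rfl
      rw [this]
      omega
    by_cases h1 : i = 1
    · subst h1
      simp only [one_ne_zero, if_false, if_true]
      rw [← f1]
      have : c ⟨1, hi⟩ = c (ay n) := rfl
      rw [this]
      have : g.V ⟨1, hi⟩ = g.V (ay n) := rfl
      rw [this]
      omega
    by_cases h2 : i = 2
    · subst h2
      simp only [h0, h1, if_false, if_true]
      exact hz
    · simp only [h0, h1, h2, if_false]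
      exact ei ⟨i, hi⟩ (by show 3 ≤ i; omega)
  -- existence
  refine ⟨⟨(γ k).1, fun i => if i.val = 0 then
          c i - sg (γ k).1 * ((sg (γ k).1 * (c (ax n) - 2 * ((γ k).2.val : ℤ))) % 6)
        else if i.val = 1 then c i - (c (ay n) + 2 * k) % 5
        else if i.val = 2 then 2 * k else c i⟩, ⟨⟨k, ?_, rfl, ?_, ?_⟩, ?_⟩, ?_⟩
  · simp
  · simp only [ax, if_true]
    rcases P1_sg (γ k).1 with h | h <;> rw [h] <;> omega
  · simp only [ay, az, one_ne_zero, if_false, if_true]
    have : ((2 : ℕ) = 0) = False := by simp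
    simp only [this, if_false]
    have : ((2 : ℕ) = 1) = False := by simp
    simp only [this, if_false]
    omega
  · refine ⟨fun i => if i.val = 0 then
          ((sg (γ k).1 * (c (ax n) - 2 * ((γ k).2.val : ℤ))) % 6)
        else if i.val = 1 then (c (ay n) + 2 * k) % 5
        else if i.val = 2 then c i - 2 * k else 0, ⟨?_, ?_⟩, ?_⟩
    · exact hk
    · intro i hi
      have h0 : i.val ≠ 0 := by omega
      have h1 : i.val ≠ 1 := by omega
      have h2 : i.val ≠ 2 := by omega
      simp only [h0, h1, h2, if_false]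
    · funext i
      simp only [Pl.mact]
      split_ifs <;> ring
  · rintro g ⟨hg1, hg2⟩
    obtain ⟨hs, hV⟩ := key g hg1 hg2
    exact P1_pl_ext hs hV

end Pool.Agent.SM
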