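import Pool.Agent.Lib.MP_288534_co.Stm

/-! # [SM P1b] -/

set_option autoImplicit false

namespace Pool.Agent.SM

private theorem P1b_facts (c : Bool × Fin 3) (X x : ℤ)
    (hx : x = (sg c.1 * (X - 2 * (c.2.val : ℤ))) % 6) :
    (x = 0 ∨ x = 1 ∨ x = 2 ∨ x = 3 ∨ x = 4 ∨ x = 5) ∧ x % 2 = X % 2 ∧
      (x = 1 → X % 6 = zc c) ∧ (X % 6 = zc c → x = 1) ∧
      (x = 5 → X % 6 = oc c) ∧ (X % 6 = oc c → x = 5) := by
  obtain ⟨s, t⟩ := c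
  unfold zc oc
  unfold sg at hx ⊢
  refine ⟨by omega, ?_, ?_, ?_, ?_, ?_⟩ <;> rcases s with _ | _ <;> fin_cases t <;>
    simp at hx ⊢ <;> omega

private theorem P1b_simp (c : Bool × Fin 3) (X y z : ℤ) (hy : 0 ≤ y) (hy' : y ≤ 4) :
    InP ((sg c.1 * (X - 2 * (c.2.val : ℤ))) % 6) y z ↔
      ((X % 2 = 0 ∧ 0 ≤ z ∧ z ≤ 1) ∨
       (X % 2 = 1 ∧ ((y = 0 ∧ 0 ≤ z ∧ z ≤ 8) ∨ (X % 6 = zc c ∧ y = 0 ∧ z = 9) ∨
        (X % 6 = zc c ∧ y = 1 ∧ z = 3) ∨ (X % 6 = oc c ∧ y = 3 ∧ z = 1)))) := by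
  obtain ⟨h0, h1, h2, h3, h4, h5⟩ := P1b_facts c X _ rfl
  generalize (sg c.1 * (X - 2 * (c.2.val : ℤ))) % 6 = x at *
  have k2 : X % 6 = zc c ↔ x = 1 := ⟨h3, h2⟩
  have k4 : X % 6 = oc c ↔ x = 5 := ⟨h5, h4⟩
  rw [k2, k4, ← h1]
  clear k2 k4 h1 h2 h3 h4 h5
  unfold InP
  rcases h0 with rfl | rfl | rfl | rfl | rfl | rfl <;> norm_num <;> omega

private theorem P1b_rng (c : Bool × Fin 3) :
    (zc c = 1 ∨ zc c = 3 ∨ zc c = 5) ∧ (oc c = 1 ∨ oc c = 3 ∨ oc c = 5) := by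
  obtain ⟨s, t⟩ := c
  unfold zc oc sg
  rcases s with _ | _ <;> fin_cases t <;> simp

private theorem P1b_core (zz oo : ℤ → ℤ) (r Y Z K : ℤ) (hK : K = Z / 2)
    (hz : ∀ k, zz k = 1 ∨ zz k = 3 ∨ zz k = 5) (ho : ∀ k, oo k = 1 ∨ oo k = 3 ∨ oo k = 5)
    (hr : r = 1 ∨ r = 3 ∨ r = 5)
    (h1 : oo K ≠ zz (K - 1)) (h2 : oo K ≠ zz (K - 4)) (h3 : zz (K - 1) ≠ zz (K - 4)) :
    ∃! k : ℤ, ((Y + 2 * k) % 5 = 0 ∧ 0 ≤ Z - 2 * k ∧ Z - 2 * k ≤ 8) ∨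
      (r = zz k ∧ (Y + 2 * k) % 5 = 0 ∧ Z - 2 * k = 9) ∨
      (r = zz k ∧ (Y + 2 * k) % 5 = 1 ∧ Z - 2 * k = 3) ∨
      (r = oo k ∧ (Y + 2 * k) % 5 = 3 ∧ Z - 2 * k = 1) := by
  have a1 := ho K
  have a2 := hz (K - 1)
  have a3 := hz (K - 4)
  have hl2 : ∀ l, ((Y + 2 * l) % 5 = 0 ∧ 0 ≤ Z - 2 * l ∧ Z - 2 * l ≤ 8) ∨
      (r = zz l ∧ (Y + 2 * l) % 5 = 0 ∧ Z - 2 * l = 9) ∨
      (r = zz l ∧ (Y + 2 * l) % 5 = 1 ∧ Z - 2 * l = 3) ∨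
      (r = oo l ∧ (Y + 2 * l) % 5 = 3 ∧ Z - 2 * l = 1) →
      l = K ∨ l = K - 1 ∨ l = K - 2 ∨ l = K - 3 ∨ l = K - 4 := by
    intro l hl
    have : 0 ≤ Z - 2 * l ∧ Z - 2 * l ≤ 9 := by
      rcases hl with hl | hl | hl | hl <;> omega
    omega
  by_cases c0 : (Y + 2 * K) % 5 = 0
  · refine ⟨K, by omega, fun l hl => ?_⟩
    rcases hl2 l hl with rfl | rfl | rfl | rfl | rfl <;> omega
  by_cases c2 : (Y + 2 * K) % 5 = 2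
  · refine ⟨K - 1, by omega, fun l hl => ?_⟩
    rcases hl2 l hl with rfl | rfl | rfl | rfl | rfl <;> omega
  by_cases c4 : (Y + 2 * K) % 5 = 4
  · refine ⟨K - 2, by omega, fun l hl => ?_⟩
    rcases hl2 l hl with rfl | rfl | rfl | rfl | rfl <;> omega
  by_cases c1 : (Y + 2 * K) % 5 = 1
  · refine ⟨K - 3, by omega, fun l hl => ?_⟩
    rcases hl2 l hl with rfl | rfl | rfl | rfl | rfl <;> omega
  have c3 : (Y + 2 * K) % 5 = 3 := by omega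
  clear c0 c1 c2 c4
  by_cases e0 : Z % 2 = 0
  · refine ⟨K - 4, by omega, fun l hl => ?_⟩
    rcases hl2 l hl with rfl | rfl | rfl | rfl | rfl <;> omega
  by_cases r1 : r = oo K
  · refine ⟨K, by omega, fun l hl => ?_⟩
    rcases hl2 l hl with rfl | rfl | rfl | rfl | rfl <;> omega
  by_cases r2 : r = zz (K - 1)
  · refine ⟨K - 1, by omega, fun l hl => ?_⟩
    rcases hl2 l hl with rfl | rfl | rfl | rfl | rfl <;> omega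
  have r3 : r = zz (K - 4) := by omega
  refine ⟨K - 4, by omega, fun l hl => ?_⟩
  rcases hl2 l hl with rfl | rfl | rfl | rfl | rfl <;> omega

theorem pf_P1b : S_P1b := by
  intro γ hγ X Y Z
  have hs : ∀ k : ℤ, InP ((sg (γ k).1 * (X - 2 * ((γ k).2.val : ℤ))) % 6) ((Y + 2 * k) % 5)
      (Z - 2 * k) ↔ _ := fun k => P1b_simp (γ k) X _ _ (by omega) (by omega)
  simp only [hs]
  by_cases hX : X % 2 = 0
  · refine ⟨Z / 2, Or.inl ⟨hX, by omega, by omega⟩, ?_⟩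
    intro l hl
    rcases hl with hl | hl
    · omega
    · omega
  · have hX1 : X % 2 = 1 := by omega
    obtain ⟨v1, v2, v3⟩ := hγ (Z / 2)
    obtain ⟨k, hk, hk'⟩ := P1b_core (fun k => zc (γ k)) (fun k => oc (γ k)) (X % 6) Y Z (Z / 2) rfl
      (fun k => (P1b_rng (γ k)).1) (fun k => (P1b_rng (γ k)).2) (by omega) v1 v2 v3
    refine ⟨k, Or.inr ⟨hX1, hk⟩, ?_⟩
    intro l hl
    rcases hl with hl | hl
    · omega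
    · exact hk' l hl.2

end Pool.Agent.SM
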