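import Pool.Agent.Lib.MP_288534_co.Stm

/-!
# [SM P2b] every tunnel of a tile of the chain is filled by a tail of a tile of the chain
-/

set_option autoImplicit false

namespace Pool.Agent.SM

private theorem P2b_sg_sq (s : Bool) : sg s * sg s = 1 := by cases s <;> simp [sg]

private theorem P2b_q0 {n : ℕ} (κ : Key n) (h : κ.a.val = 2) (j : ℕ) : κ.q j (ax n) = 0 := by
  have hne : ax n ≠ κ.a := by
    intro h'
    have := congrArg Fin.val h'
    simp only [h] at this
    omega
  have h1 : (κ.dirs.take j).count (ax n) = 0 := by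
    apply List.count_eq_zero_of_not_mem
    intro hm
    have hm' := List.mem_of_mem_take hm
    simp only [Key.dirs, List.mem_append, List.mem_replicate, List.mem_singleton, lats,
      List.mem_filter, decide_eq_true_eq] at hm'
    rcases hm' with (⟨-, h2⟩ | ⟨-, -, h2⟩) | h2
    · exact hne h2
    · exact h2 ⟨h, trivial⟩
    · exact hne h2
  simp only [Key.q, Key.leaf, h1, if_neg hne]
  simp [h]

theorem pf_P2b : S_P2b := by
  intro n γ g κ hg
  obtain ⟨k, hk, hs, h6, h5⟩ := hg
  by_cases ha : κ.a.val = 2
  · -- the axis `z`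
    set s' : Bool := (γ (k - sg κ.s)).1 with hs'
    set t' : Fin 3 := (γ (k - sg κ.s)).2 with ht'
    obtain ⟨m, hm⟩ : ∃ m : ℤ, g.V (ax n) = 2 * m := by
      obtain ⟨c, hc⟩ := h6
      exact ⟨3 * c + ((γ k).2.val : ℤ), by linarith⟩
    set E : ℤ := sg g.s * (2 * (κ.B.val : ℤ)) + g.V (ax n) with hE
    obtain ⟨E2, hE2⟩ : ∃ E2 : ℤ, E = 2 * E2 := ⟨sg g.s * (κ.B.val : ℤ) + m, by
      rw [hE, hm]; ring⟩
    -- `B'`
    set r : ℤ := (sg s' * (E2 - (t'.val : ℤ))) % 3 with hr
    have hr0 : 0 ≤ r := Int.emod_nonneg _ (by norm_num)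
    have hr3 : r < 3 := Int.emod_lt_of_pos _ (by norm_num)
    have hrd : sg s' * (E2 - (t'.val : ℤ)) - r = 3 * ((sg s' * (E2 - (t'.val : ℤ))) / 3) := by
      rw [hr]
      have := Int.emod_add_mul_ediv (sg s' * (E2 - (t'.val : ℤ))) 3
      linarith
    let B' : Fin 3 := ⟨r.toNat, by omega⟩
    have hB' : ((B'.val : ℕ) : ℤ) = r := by
      show ((r.toNat : ℕ) : ℤ) = r
      exact Int.toNat_of_nonneg hr0
    let κ' : Key n := ⟨κ.a, κ.s, B', fun h => absurd ha h⟩
    refine ⟨⟨s', fun i => if i.val = 0 then E - sg s' * (2 * r) else g.V i - κ.v i⟩,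
      ⟨k - sg κ.s, ?_, rfl, ?_, ?_⟩, κ', rfl, rfl, ?_⟩
    · have : κ.v (az n) = 2 * sg κ.s := by
        simp [Key.v, ha]
      show (if (az n).val = 0 then E - sg s' * (2 * r) else g.V (az n) - κ.v (az n)) = _
      rw [if_neg (by simp), this, hk]
      ring
    · show (6 : ℤ) ∣ (if (ax n).val = 0 then E - sg s' * (2 * r) else g.V (ax n) - κ.v (ax n)) -
        2 * ((t'.val : ℕ) : ℤ)
      rw [if_pos (by simp)]
      refine ⟨sg s' * ((sg s' * (E2 - (t'.val : ℤ))) / 3), ?_⟩
      have h2 := P2b_sg_sq s'
      have h3 : r = sg s' * (E2 - (t'.val : ℤ)) - 3 * ((sg s' * (E2 - (t'.val : ℤ))) / 3) := by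
        linarith
      rw [hE2]
      generalize (sg s' * (E2 - (t'.val : ℤ))) / 3 = w at h3 ⊢
      rw [h3]
      linear_combination (- (2 * (E2 - (t'.val : ℤ)))) * h2
    · have h1 : κ.v (az n) = 2 * sg κ.s := by simp [Key.v, ha]
      have h2 : κ.v (ay n) = - 2 * sg κ.s := by simp [Key.v, ha]
      show (5 : ℤ) ∣ (if (ay n).val = 0 then E - sg s' * (2 * r) else g.V (ay n) - κ.v (ay n)) +
        (if (az n).val = 0 then E - sg s' * (2 * r) else g.V (az n) - κ.v (az n))
      rw [if_neg (by simp), if_neg (by simp), h1, h2]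
      convert h5 using 1
      ring
    · intro j
      funext i
      by_cases hi : i.val = 0
      · have hi' : i = ax n := Fin.ext hi
        subst hi'
        have hv : κ'.v (ax n) = 0 := by
          show κ.v (ax n) = 0
          simp [Key.v, ha]
        have hb : κ.base (ax n) = 2 * (κ.B.val : ℤ) := by
          simp only [Key.base]
          simp [ha]
        have hb' : κ'.base (ax n) = 2 * r := by
          rw [← hB']
          show Key.base _ _ = _
          simp only [Key.base]
          simp [κ', ha]
        have hq : κ.q j (ax n) = 0 := P2b_q0 κ ha j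
        have hq' : κ'.q j (ax n) = 0 := P2b_q0 κ' ha j
        simp only [Pl.act, Key.tail, Key.tun, hv, hb, hb', hq, hq', if_true]
        rw [hE]
        ring
      · have hb : κ'.base i = κ.base i := by
          simp only [Key.base, if_neg hi]
          rfl
        have hq : κ'.q j i = κ.q j i := rfl
        have hv : κ'.v i = κ.v i := rfl
        simp only [Pl.act, Key.tail, Key.tun, hb, hq, hv, if_neg hi]
        ring
  · -- the other axes
    refine ⟨⟨g.s, fun i => g.V i - (if i.val = 0 then sg g.s * κ.v i else κ.v i)⟩,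
      ⟨k, ?_, hs, ?_, ?_⟩, κ, rfl, rfl, ?_⟩
    · have : κ.v (az n) = 0 := by
        simp only [Key.v]
        by_cases h0 : κ.a.val = 0
        · simp [h0]
        · by_cases h1 : κ.a.val = 1
          · simp [h1]
          · rw [if_neg h0, if_neg h1, if_neg ha, if_neg]
            intro h
            exact ha (by rw [← h])
      show g.V (az n) - (if (az n).val = 0 then sg g.s * κ.v (az n) else κ.v (az n)) = _
      rw [if_neg (by simp), this, hk, sub_zero]
    · have : (6 : ℤ) ∣ sg g.s * κ.v (ax n) := by
        apply Dvd.dvd.mul_left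
        simp only [Key.v]
        by_cases h0 : κ.a.val = 0
        · simp [h0]
        · by_cases h1 : κ.a.val = 1
          · simp [h1]
          · rw [if_neg h0, if_neg h1, if_neg ha, if_neg]
            · simp
            intro h
            exact h0 (by rw [← h])
      show (6 : ℤ) ∣ g.V (ax n) - (if (ax n).val = 0 then sg g.s * κ.v (ax n) else κ.v (ax n)) -
        2 * ((γ k).2.val : ℤ)
      rw [if_pos (by simp)]
      have e : g.V (ax n) - sg g.s * κ.v (ax n) - 2 * ((γ k).2.val : ℤ) =
          (g.V (ax n) - 2 * ((γ k).2.val : ℤ)) - sg g.s * κ.v (ax n) := by ring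
      rw [e]
      exact dvd_sub h6 this
    · have h1 : κ.v (az n) = 0 := by
        simp only [Key.v]
        by_cases h0 : κ.a.val = 0
        · simp [h0]
        · by_cases h1 : κ.a.val = 1
          · simp [h1]
          · rw [if_neg h0, if_neg h1, if_neg ha, if_neg]
            intro h
            exact ha (by rw [← h])
      have h2 : (5 : ℤ) ∣ κ.v (ay n) := by
        simp only [Key.v]
        by_cases h0 : κ.a.val = 0
        · simp [h0]
        · by_cases h1 : κ.a.val = 1
          · simp [h1]
          · rw [if_neg h0, if_neg h1, if_neg ha, if_neg]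
            · simp
            intro h
            exact h1 (by rw [← h])
      show (5 : ℤ) ∣ (g.V (ay n) - (if (ay n).val = 0 then sg g.s * κ.v (ay n) else κ.v (ay n))) +
        (g.V (az n) - (if (az n).val = 0 then sg g.s * κ.v (az n) else κ.v (az n)))
      rw [if_neg (by simp), if_neg (by simp), h1]
      have e : g.V (ay n) - κ.v (ay n) + (g.V (az n) - 0) =
          (g.V (ay n) + g.V (az n)) - κ.v (ay n) := by ring
      rw [e]
      exact dvd_sub h5 h2
    · intro j
      funext i
      by_cases hi : i.val = 0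
      · simp only [Pl.act, Key.tail, if_pos hi]
        ring
      · simp only [Pl.act, Key.tail, if_neg hi]
        ring

end Pool.Agent.SM
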