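import Pool.Agent.Lib.MP_288534_co.Stm

/-!
# [SM P2c] a tail position determines the tile of the chain
-/

set_option autoImplicit false

namespace Pool.Agent.SM

theorem pf_P2c : S_P2c := by
  intro n γ g1 g2 κ1 κ2 hg1 hg2 ha hs h
  obtain ⟨k1, hk1, hs1, h61, h51⟩ := hg1
  obtain ⟨k2, hk2, hs2, h62, h52⟩ := hg2
  obtain ⟨a, s, B1, hB1⟩ := κ1
  obtain ⟨a', s', B2, hB2⟩ := κ2
  simp only at ha hs
  subst ha hs
  have hMM : MM n ≠ 0 := by
    unfold MM KK
    omega
  have hV : ∀ i : Dx n, i.val ≠ 0 → g1.V i = g2.V i := by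
    intro i hi
    have e := congrFun h i
    have e2 : Key.tail (⟨a, s, B1, hB1⟩ : Key n) 0 i = Key.tail (⟨a, s, B2, hB2⟩ : Key n) 0 i := by
      simp only [Key.tail, Key.tun, Key.base, if_neg hi]
      rfl
    simp only [Pl.act, if_neg hi] at e
    rw [e2] at e
    exact mul_left_cancel₀ hMM (by linarith)
  have hkk : k1 = k2 := by
    have := hV (az n) (by simp)
    omega
  subst hkk
  have hss : g1.s = g2.s := by rw [hs1, hs2]
  have hV0 : g1.V (ax n) = g2.V (ax n) := by
    have e := congrFun h (ax n)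
    by_cases h2 : a.val = 2
    · have e1 : ∀ (B : Fin 3) (hB : a.val ≠ 2 → B = 0),
          Key.tail (⟨a, s, B, hB⟩ : Key n) 0 (ax n) =
            MM n * (2 * (B.val : ℤ)) + Key.q (⟨a, s, 0, fun _ => rfl⟩ : Key n) 0 (ax n) := by
        intro B hB
        have hb : Key.base (⟨a, s, B, hB⟩ : Key n) (ax n) = 2 * (B.val : ℤ) := by
          simp [Key.base, h2]
        have hv : Key.v (⟨a, s, B, hB⟩ : Key n) (ax n) = 0 := by simp [Key.v, h2]
        simp only [Key.tail, Key.tun, hb, hv, mul_zero, add_zero]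
        rfl
      simp only [Pl.act, e1, hss] at e
      simp only [if_true] at e
      have e3 : MM n * (sg g2.s * (2 * (B1.val : ℤ)) + g1.V (ax n)) =
          MM n * (sg g2.s * (2 * (B2.val : ℤ)) + g2.V (ax n)) := by linarith
      have e4 := mul_left_cancel₀ hMM e3
      have hb1 := B1.isLt
      have hb2 := B2.isLt
      have hsg : sg g2.s = 1 ∨ sg g2.s = -1 := by cases g2.s <;> simp [sg]
      rcases hsg with hsg | hsg <;> rw [hsg] at e4 <;> omega
    · have hB1' := hB1 h2
      have hB2' := hB2 h2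
      subst hB1' hB2'
      simp only [Pl.act, hss] at e
      exact mul_left_cancel₀ hMM (by linarith)
  cases g1 with
  | mk s1 V1 =>
    cases g2 with
    | mk s2 V2 =>
      simp only at hss hV hV0
      subst hss
      congr 1
      funext i
      by_cases hi : i.val = 0
      · have : i = ax n := Fin.ext hi
        rw [this]
        exact hV0
      · exact hV i hi

end Pool.Agent.SM
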