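import Pool.Agent.Lib.MP_288534_co.Stm

/-!
# MP_288534_co : the chain covers every cell
-/

set_option autoImplicit false

namespace Pool.Agent.SM

/-- The length of a path depends only on the axis and the sign. -/
private theorem P3a_len {n : ℕ} (κ κ' : Key n) (ha : κ.a = κ'.a) (hs : κ.s = κ'.s) :
    κ.len = κ'.len := by
  unfold Key.len Key.dirs Key.run Key.idx
  rw [ha, hs]

theorem pf_P3a (hP1 : S_P1) (hP2b : S_P2b) (hP3c : S_P3c) (hD1 : S_D1) (_hD2 : S_D2)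
    (hD3 : S_D3) : S_P3a := by
  intro n γ hγ p
  obtain ⟨c, hc, -⟩ := hD1 n p
  obtain ⟨g, ⟨hg, x, hx, hxc⟩, -⟩ := hP1 n γ hγ c
  obtain ⟨p', rfl⟩ := (hP3c n g x p).2.2.1 p
  have hx' : InMega x p' := by
    rw [← hxc] at hc
    exact (hP3c n g x p').1.1 hc
  by_cases ht : p' ∈ Tuns n
  · obtain ⟨κ', j, hj, rfl⟩ := ht
    obtain ⟨g', hg', κ, ha, hs, h⟩ := hP2b n γ g κ' hg
    refine ⟨g', hg', κ.tail j, Or.inr ⟨κ, j, ?_, rfl⟩, h j⟩
    rw [P3a_len κ κ' ha hs]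
    exact hj
  · exact ⟨g, hg, p', ((hD3 n x p' hx').1 hx).2 ht, rfl⟩

end Pool.Agent.SM
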