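import Pool.Agent.Lib.MP_288534_co.Stm

/-!
# MP_288534_co : piece P3b
-/

set_option autoImplicit false

namespace Pool.Agent.SM

theorem P3b_len {n : ℕ} {κ κ' : Key n} (ha : κ'.a = κ.a) (hs : κ'.s = κ.s) : κ'.len = κ.len := by
  have hi : κ'.idx = κ.idx := by simp only [Key.idx, ha, hs]
  simp only [Key.len, Key.dirs, Key.run, hi, ha]

theorem P3b_uniq (hP1 : S_P1) (hP3c : S_P3c) (hD1 : S_D1) {n : ℕ} {γ : Gam} (hγ : Valid γ)
    {g g' : Pl n} (hg : g ∈ Ch (n := n) γ) (hg' : g' ∈ Ch (n := n) γ) {c c' x x' : Zc n}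
    (hc : c ∈ PP n) (hc' : c' ∈ PP n) (hx : InMega c x) (hx' : InMega c' x')
    (h : g.act x = g'.act x') : g = g' := by
  have h1 := ((hP3c n g c x).1).2 hx
  have h2 := ((hP3c n g' c' x').1).2 hx'
  rw [← h] at h2
  have h3 : g.mact c = g'.mact c' := (hD1 n (g.act x)).unique h1 h2
  exact (hP1 n γ hγ (g.mact c)).unique ⟨hg, c, hc, rfl⟩ ⟨hg', c', hc', h3.symm⟩

theorem pf_P3b (hP1 : S_P1) (hP2a : S_P2a) (hP2c : S_P2c) (hP3c : S_P3c) (hP3d : S_P3d)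
    (hD1 : S_D1) (hD2 : S_D2) (hK8a : S_K8a) : S_P3b := by
  intro n γ hγ g g' p hg hg' hp hp'
  obtain ⟨x, hx, hxp⟩ := hp
  obtain ⟨x', hx', hxp'⟩ := hp'
  have hxx : g.act x = g'.act x' := hxp.trans hxp'.symm
  -- a solid cell is not equal to a tail cell
  have key : ∀ (g g' : Pl n) (x x' : Zc n), g ∈ Ch (n := n) γ → g' ∈ Ch (n := n) γ →
      x ∈ Sol n \ Tuns n → x' ∈ Tails n → g.act x = g'.act x' → False := by
    intro g g' x x' hg hg' hx hx' h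
    obtain ⟨⟨c, hc, hcx⟩, hxt⟩ := hx
    obtain ⟨κ, j, hj, rfl⟩ := hx'
    obtain ⟨g1, hg1, κ1, ha, hs, he⟩ := hP2a n γ g' κ hg'
    rw [he j] at h
    have hj1 : j ≤ κ1.len := by rw [P3b_len ha hs]; exact hj
    have hgg : g = g1 := P3b_uniq hP1 hP3c hD1 hγ hg hg1 hc (hK8a n κ1).1 hcx
      (hD2 n κ1 j hj1).1 h
    subst hgg
    have hxe : x = κ1.tun j := (hP3c n g c x).2.1 h
    exact hxt ⟨κ1, j, hj1, hxe⟩
  rcases hx with hx | hx
  · rcases hx' with hx' | hx'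
    · obtain ⟨c, hc, hcx⟩ := hx.1
      obtain ⟨c', hc', hcx'⟩ := hx'.1
      exact P3b_uniq hP1 hP3c hD1 hγ hg hg' hc hc' hcx hcx' hxx
    · exact (key g g' x x' hg hg' hx hx' hxx).elim
  · rcases hx' with hx' | hx'
    · exact (key g' g x' x hg' hg hx' hx hxx.symm).elim
    · obtain ⟨κ, j, hj, rfl⟩ := hx
      obtain ⟨κ', j', hj', rfl⟩ := hx'
      obtain ⟨g1, hg1, κ1, ha1, hs1, he1⟩ := hP2a n γ g κ hg
      obtain ⟨g2, hg2, κ2, ha2, hs2, he2⟩ := hP2a n γ g' κ' hg'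
      have hj1 : j ≤ κ1.len := by rw [P3b_len ha1 hs1]; exact hj
      have hj2 : j' ≤ κ2.len := by rw [P3b_len ha2 hs2]; exact hj'
      have h12 : g1.act (κ1.tun j) = g2.act (κ2.tun j') := by
        rw [← he1 j, ← he2 j']; exact hxx
      have hgg : g1 = g2 := P3b_uniq hP1 hP3c hD1 hγ hg1 hg2 (hK8a n κ1).1 (hK8a n κ2).1
        (hD2 n κ1 j hj1).1 (hD2 n κ2 j' hj2).1 h12
      subst hgg
      have htt : κ1.tun j = κ2.tun j' := (hP3c n g1 κ1.base (κ1.tun j)).2.1 h12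
      obtain ⟨hκ, hjj⟩ := hP3d n κ1 κ2 j j' hj1 hj2 htt
      subst hκ
      refine hP2c n γ g g' κ κ' hg hg' (ha1.symm.trans ha2) (hs1.symm.trans hs2) ?_
      rw [he1 0, he2 0]

end Pool.Agent.SM
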