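import Pool.Agent.Lib.MP_288534_co.Stm

set_option autoImplicit false

namespace Pool.Agent.SM

private theorem P3c_sg (s : Bool) : sg s = 1 ∨ sg s = -1 := by
  cases s <;> simp [sg]

private theorem P3c_sgsq (s : Bool) : sg s * sg s = 1 := by
  cases s <;> simp [sg]

theorem pf_P3c : S_P3c := by
  intro n g c p
  refine ⟨?_, ?_, ?_, ?_⟩
  · have key : ∀ i, |g.act p i - MM n * g.mact c i| = |p i - MM n * c i| := by
      intro i
      by_cases hi : i.val = 0
      · have h1 : g.act p i - MM n * g.mact c i = sg g.s * (p i - MM n * c i) := by
          simp only [Pl.act, Pl.mact, if_pos hi]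
          ring
        rw [h1, abs_mul]
        rcases P3c_sg g.s with h | h <;> rw [h] <;> simp
      · have h1 : g.act p i - MM n * g.mact c i = p i - MM n * c i := by
          simp only [Pl.act, Pl.mact, if_neg hi]
          ring
        rw [h1]
    constructor
    · intro h i
      rw [← key i]
      exact h i
    · intro h i
      rw [key i]
      exact h i
  · intro a b hab
    funext i
    have h1 : g.act a i = g.act b i := congrFun hab i
    by_cases hi : i.val = 0
    · simp only [Pl.act, if_pos hi] at h1
      rcases P3c_sg g.s with h | h <;> rw [h] at h1 <;> omega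
    · simp only [Pl.act, if_neg hi] at h1
      omega
  · intro b
    refine ⟨fun i => if i.val = 0 then sg g.s * (b i - MM n * g.V i) else b i - MM n * g.V i, ?_⟩
    funext i
    by_cases hi : i.val = 0
    · simp only [Pl.act, if_pos hi]
      rw [← mul_assoc, P3c_sgsq]
      ring
    · simp only [Pl.act, if_neg hi]
      ring
  · intro a b hab
    funext i
    have h1 : g.mact a i = g.mact b i := congrFun hab i
    by_cases hi : i.val = 0
    · simp only [Pl.mact, if_pos hi] at h1
      rcases P3c_sg g.s with h | h <;> rw [h] at h1 <;> omega
    · simp only [Pl.mact, if_neg hi] at h1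
      omega

end Pool.Agent.SM
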