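import Pool.Agent.Lib.MP_288534_co.Stm

/-!
# [SM P4] Chains of valid sequences are tilings
-/

set_option autoImplicit false

namespace Pool.Agent.SM

theorem pf_P4 (hP3a : S_P3a) (hP3b : S_P3b) (hR1 : S_R1) (hR6 : S_R6) (hR11a : S_R11a)
    (hR11b : S_R11b) (hR12 : S_R12) : S_P4 := by
  intro n γ hγ
  refine ⟨?_, ?_, ?_⟩
  · rintro G ⟨g, -, h, -, rfl⟩
    exact ⟨h, rfl⟩
  · rw [Set.eq_univ_iff_forall]
    intro x
    obtain ⟨p, hp⟩ := hR1 n x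
    obtain ⟨g, hg, hpg⟩ := hP3a n γ hγ p
    obtain ⟨h, hh⟩ := hR11a n g
    refine Set.mem_sUnion.mpr ⟨h '' TT n, ⟨g, hg, h, hh, rfl⟩, ?_⟩
    unfold TT
    rw [hR11b n g h (SS n) hh]
    exact ⟨p, hpg, hp⟩
  · rintro G ⟨g, hg, h, hh, rfl⟩ G' ⟨g', hg', h', hh', rfl⟩ hne
    unfold TT
    rw [hR11b n g h (SS n) hh, hR11b n g' h' (SS n) hh', hR6 n, Set.disjoint_left]
    intro p hp hp'
    have hgg := hP3b n γ hγ g g' p hg hg' hp hp'
    subst hgg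
    apply hne
    have := (hR12 n).2.1 g h h' hh hh'
    have e : (⇑h : Es n → Es n) = ⇑h' := funext this
    rw [e]

end Pool.Agent.SM
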