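import Pool.Agent.Lib.MP_288534_co.Stm

/-! # [SM R1] -/

set_option autoImplicit false

namespace Pool.Agent.SM

theorem pf_R1 : S_R1 := by
  intro n x
  exact ⟨fun i => round (x i), fun i => abs_sub_round (x i)⟩

end Pool.Agent.SM
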