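import Pool.Agent.Lib.MP_288534_co.Stm

/-!
# MP_288534_co : piece R10a, every cell isometry induces an isometry
-/

set_option autoImplicit false

namespace Pool.Agent.SM

theorem R10a_sq {n : ℕ} (g : CIso n) (i : Dx n) : (g.ε i : ℝ) * (g.ε i : ℝ) = 1 := by
  rcases g.hε i with h | h <;> rw [h] <;> norm_num

/-- the bijection -/
noncomputable def R10a_equiv {n : ℕ} (g : CIso n) : Es n ≃ Es n where
  toFun x := WithLp.toLp 2 (fun i => (g.ε i : ℝ) * x (g.π i) + (g.b i : ℝ))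
  invFun y := WithLp.toLp 2
    (fun j => (g.ε (g.π.symm j) : ℝ) * (y (g.π.symm j) - (g.b (g.π.symm j) : ℝ)))
  left_inv x := by
    ext j
    show (g.ε (g.π.symm j) : ℝ) * (((g.ε (g.π.symm j) : ℝ) * x (g.π (g.π.symm j)) +
      (g.b (g.π.symm j) : ℝ)) - (g.b (g.π.symm j) : ℝ)) = x j
    rw [add_sub_cancel_right, ← mul_assoc, R10a_sq, one_mul, Equiv.apply_symm_apply]
  right_inv y := by
    ext i
    show (g.ε i : ℝ) * ((g.ε (g.π.symm (g.π i)) : ℝ) * (y (g.π.symm (g.π i)) -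
      (g.b (g.π.symm (g.π i)) : ℝ))) + (g.b i : ℝ) = y i
    rw [Equiv.symm_apply_apply, ← mul_assoc, R10a_sq, one_mul, sub_add_cancel]

theorem R10a_isometry {n : ℕ} (g : CIso n) : Isometry (R10a_equiv g) := by
  refine Isometry.of_dist_eq fun x y => ?_
  rw [EuclideanSpace.dist_eq, EuclideanSpace.dist_eq]
  congr 1
  rw [← Equiv.sum_comp g.π (fun i => dist (x i) (y i) ^ 2)]
  refine Finset.sum_congr rfl fun i _ => ?_
  show dist ((g.ε i : ℝ) * x (g.π i) + (g.b i : ℝ)) ((g.ε i : ℝ) * y (g.π i) + (g.b i : ℝ)) ^ 2 = _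
  rw [Real.dist_eq, Real.dist_eq, sq_abs, sq_abs]
  have h := R10a_sq g i
  have e : (g.ε i : ℝ) * x (g.π i) + (g.b i : ℝ) - ((g.ε i : ℝ) * y (g.π i) + (g.b i : ℝ)) =
      (g.ε i : ℝ) * (x (g.π i) - y (g.π i)) := by ring
  rw [e, mul_pow, pow_two (g.ε i : ℝ), h, one_mul]

theorem pf_R10a : S_R10a := by
  intro n g
  exact ⟨⟨R10a_equiv g, R10a_isometry g⟩, fun x i => rfl⟩

end Pool.Agent.SM
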