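import Pool.Agent.Lib.MP_288534_co.Stm

set_option autoImplicit false

namespace Pool.Agent.SM

private theorem R10b_mem (n : ℕ) (g : CIso n) (h : Es n ≃ᵢ Es n) (hg : Induces g h)
    (x : Es n) (p : Zc n) : h x ∈ cube (g.act p) ↔ x ∈ cube p := by
  have key : ∀ i, |h x i - (g.act p i : ℝ)| = |x (g.π i) - (p (g.π i) : ℝ)| := by
    intro i
    rw [hg x i]
    have e : (g.ε i : ℝ) * x (g.π i) + (g.b i : ℝ) - (g.act p i : ℝ)
        = (g.ε i : ℝ) * (x (g.π i) - (p (g.π i) : ℝ)) := by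
      simp only [CIso.act]
      push_cast
      ring
    rw [e, abs_mul]
    rcases g.hε i with h1 | h1 <;> simp [h1]
  constructor
  · intro hx i
    have := hx (g.π.symm i)
    rw [key, Equiv.apply_symm_apply] at this
    exact this
  · intro hx i
    rw [key]
    exact hx (g.π i)

theorem pf_R10b : S_R10b := by
  intro n g h A hg
  ext y
  constructor
  · rintro ⟨x, ⟨p, hp, hx⟩, rfl⟩
    exact ⟨g.act p, ⟨p, hp, rfl⟩, (R10b_mem n g h hg x p).2 hx⟩
  · rintro ⟨_, ⟨p, hp, rfl⟩, hy⟩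
    obtain ⟨x, rfl⟩ := h.surjective y
    exact ⟨x, ⟨p, hp, (R10b_mem n g h hg x p).1 hy⟩, rfl⟩

end Pool.Agent.SM
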