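import Pool.Agent.Lib.MP_288534_co.Stm

/-! Piece R11a (helper88): every placement is given by an isometry. -/

set_option autoImplicit false

namespace Pool.Agent.SM

theorem pf_R11a (hR10a : S_R10a) : S_R11a := by
  intro n g
  obtain ⟨h, hh⟩ := hR10a n g.toC
  refine ⟨h, fun x i => ?_⟩
  have h1 := hh x i
  change h x i = (((if i.val = 0 then sg g.s else 1 : ℤ)) : ℝ) * x i + ((MM n * g.V i : ℤ) : ℝ)
    at h1
  rw [h1]
  by_cases hi : i.val = 0
  · rw [if_pos hi, if_pos hi]
    push_cast
    ring
  · rw [if_neg hi, if_neg hi]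
    push_cast
    ring

end Pool.Agent.SM
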