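import Pool.Agent.Lib.MP_288534_co.Stm

/-!
# MP_288534_co : piece R11b
-/

set_option autoImplicit false

namespace Pool.Agent.SM

theorem pf_R11b (hR10b : S_R10b) : S_R11b := by
  intro n g h A hg
  have hI : Induces g.toC h := by
    intro x i
    rw [hg x i]
    by_cases hi : i.val = 0
    · simp only [Pl.toC, hi, if_true, Equiv.refl_apply]
      push_cast
      rfl
    · simp only [Pl.toC, hi, if_false, Equiv.refl_apply]
      push_cast
      rw [one_mul]
  have hact : g.toC.act = g.act := by
    funext p i
    by_cases hi : i.val = 0
    · simp only [CIso.act, Pl.act, Pl.toC, hi, if_true, Equiv.refl_apply]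
    · simp only [CIso.act, Pl.act, Pl.toC, hi, if_false, Equiv.refl_apply, one_mul]
  rw [hR10b n g.toC h A hI, hact]

end Pool.Agent.SM
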