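import Pool.Agent.Lib.MP_288534_co.Stm

/-!
# MP_288534_co : [SM R12]
-/

set_option autoImplicit false

namespace Pool.Agent.SM

private theorem R12_MM_ne (n : ℕ) : (MM n : ℝ) ≠ 0 := by
  have h : MM n ≠ 0 := by
    unfold MM KK
    omega
  exact_mod_cast h

private theorem R12_sg_inj {a b : Bool} (h : (sg a : ℝ) = sg b) : a = b := by
  have h' : sg a = sg b := by exact_mod_cast h
  cases a <;> cases b <;> simp_all [sg]

private theorem R12_sg_mul (a b : Bool) : sg (a == b) = sg a * sg b := by
  cases a <;> cases b <;> simp [sg]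

theorem pf_R12 : S_R12 := by
  intro n
  refine ⟨?_, ?_, ?_⟩
  · intro g g' h hg hg'
    have hV : g.V = g'.V := by
      funext i
      have h1 := hg 0 i
      have h2 := hg' 0 i
      have e : (MM n : ℝ) * (g.V i : ℝ) = (MM n : ℝ) * (g'.V i : ℝ) := by
        rw [h1] at h2
        simpa using h2
      have := mul_left_cancel₀ (R12_MM_ne n) e
      exact_mod_cast this
    have hs : g.s = g'.s := by
      apply R12_sg_inj
      have h1 := hg (EuclideanSpace.single (ax n) (1 : ℝ)) (ax n)
      have h2 := hg' (EuclideanSpace.single (ax n) (1 : ℝ)) (ax n)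
      rw [h1, hV] at h2
      simpa using h2
    cases g
    cases g'
    simp_all
  · intro g h h' hg hg' x
    ext i
    rw [hg x i, hg' x i]
  · intro g P h k hg hP x i
    have e : (k.trans h) x = h (k x) := rfl
    rw [e, hg (k x) i, hP x i]
    by_cases hi : i.val = 0
    · simp only [Pl.comp, hi, if_true, R12_sg_mul]
      push_cast
      ring
    · simp only [Pl.comp, hi, if_false]
      push_cast
      ring

end Pool.Agent.SM
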