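import Pool.Agent.Lib.MP_288534_co.Stm

set_option autoImplicit false

namespace Pool.Agent.SM

theorem pf_R2 : S_R2 := by
  intro n p p' x h1 h2
  funext i
  have a1 := h1 i
  have a2 := h2 i
  rw [abs_lt] at a1
  rw [abs_le] at a2
  have h3 : ((p i : ℝ)) < p' i + 1 := by linarith [a1.1, a1.2, a2.1, a2.2]
  have h4 : ((p' i : ℝ)) < p i + 1 := by linarith [a1.1, a1.2, a2.1, a2.2]
  have h5 : p i < p' i + 1 := by exact_mod_cast h3
  have h6 : p' i < p i + 1 := by exact_mod_cast h4
  omega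

end Pool.Agent.SM
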