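import Pool.Agent.Lib.MP_288534_co.Stm

set_option autoImplicit false

namespace Pool.Agent.SM

private theorem R3_cube_closed {n : ℕ} (p : Zc n) : IsClosed (cube p) := by
  have : cube p = ⋂ i, {x : Es n | |x i - p i| ≤ 1 / 2} := by
    ext x
    simp [cube]
  rw [this]
  refine isClosed_iInter fun i => isClosed_le ?_ continuous_const
  fun_prop

theorem pf_R3 : S_R3 := by
  intro n A
  classical
  have h1 : real A = ⋃ p : Zc n, (if p ∈ A then cube p else ∅) := by
    ext x
    constructor
    · rintro ⟨p, hp, hx⟩
      exact Set.mem_iUnion.2 ⟨p, by rw [if_pos hp]; exact hx⟩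
    · intro hx
      obtain ⟨p, hx⟩ := Set.mem_iUnion.1 hx
      by_cases hp : p ∈ A
      · rw [if_pos hp] at hx
        exact ⟨p, hp, hx⟩
      · rw [if_neg hp] at hx
        exact hx.elim
  rw [h1]
  refine LocallyFinite.isClosed_iUnion ?_ ?_
  · intro x
    refine ⟨{y | ∀ i, |y i - x i| < 1 / 2}, ?_, ?_⟩
    · refine IsOpen.mem_nhds ?_ ?_
      · have : {y : Es n | ∀ i, |y i - x i| < 1 / 2} = ⋂ i, {y : Es n | |y i - x i| < 1 / 2} := by
          ext y
          simp
        rw [this]
        refine isOpen_iInter_of_finite fun i => isOpen_lt ?_ continuous_const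
        fun_prop
      · intro i
        norm_num
    · refine (Set.finite_Icc (fun i => ⌊x i⌋ - 2 : Zc n) (fun i => ⌊x i⌋ + 2)).subset ?_
      rintro p ⟨y, hy, hyx⟩
      replace hy : y ∈ (if p ∈ A then cube p else ∅) := hy
      by_cases hp : p ∈ A
      · rw [if_pos hp] at hy
        refine ⟨fun i => ?_, fun i => ?_⟩
        · have a1 := abs_le.mp (hy i)
          have a2 := abs_lt.mp (hyx i)
          have a3 := Int.floor_le (x i)
          have a4 : ((⌊x i⌋ - 2 : ℤ) : ℝ) < (p i : ℝ) := by
            push_cast
            linarith [a1.2, a2.1]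
          have a5 : (⌊x i⌋ - 2 : ℤ) < p i := by exact_mod_cast a4
          exact a5.le
        · have a1 := abs_le.mp (hy i)
          have a2 := abs_lt.mp (hyx i)
          have a3 := Int.lt_floor_add_one (x i)
          have a4 : (p i : ℝ) < ((⌊x i⌋ + 2 : ℤ) : ℝ) := by
            push_cast
            linarith [a1.1, a2.2]
          have a5 : p i < (⌊x i⌋ + 2 : ℤ) := by exact_mod_cast a4
          exact a5.le
      · rw [if_neg hp] at hy
        exact hy.elim
  · intro p
    by_cases hp : p ∈ A
    · rw [if_pos hp]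
      exact R3_cube_closed p
    · rw [if_neg hp]
      exact isClosed_empty

end Pool.Agent.SM
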