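import Pool.Agent.Lib.MP_288534_co.Stm

set_option autoImplicit false

open scoped Topology
open Filter

namespace Pool.Agent.SM

private theorem R4_cont {n : ℕ} (i : Dx n) : Continuous (fun x : Es n => x i) := by
  fun_prop

private theorem R4_open {n : ℕ} (p : Zc n) : IsOpen (ocube p) := by
  have h : ocube p = ⋂ i : Dx n, {x : Es n | |x i - p i| < 1 / 2} := by
    ext x
    simp [ocube]
  rw [h]
  refine isOpen_iInter_of_finite (fun i => ?_)
  exact isOpen_lt (((R4_cont i).sub continuous_const).abs) continuous_const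

private theorem R4_closed {n : ℕ} (p : Zc n) : IsClosed (cube p) := by
  have h : cube p = ⋂ i : Dx n, {x : Es n | |x i - p i| ≤ 1 / 2} := by
    ext x
    simp [cube]
  rw [h]
  refine isClosed_iInter (fun i => ?_)
  exact isClosed_le (((R4_cont i).sub continuous_const).abs) continuous_const

private theorem R4_compact {n : ℕ} (p : Zc n) : IsCompact (cube p) := by
  have h : cube p = (fun f : Dx n → ℝ => (WithLp.toLp 2 f : Es n)) ''
      Set.Icc (fun i => (p i : ℝ) - 1 / 2) (fun i => (p i : ℝ) + 1 / 2) := by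
    ext x
    constructor
    · intro hx
      refine ⟨fun i => x i, ⟨fun i => ?_, fun i => ?_⟩, ?_⟩
      · have := abs_le.mp (hx i)
        show (p i : ℝ) - 1 / 2 ≤ x i
        linarith [this.1]
      · have := abs_le.mp (hx i)
        show x i ≤ (p i : ℝ) + 1 / 2
        linarith [this.2]
      · ext i
        rfl
    · rintro ⟨f, ⟨h1, h2⟩, rfl⟩ i
      have a1 : (p i : ℝ) - 1 / 2 ≤ f i := h1 i
      have a2 : f i ≤ (p i : ℝ) + 1 / 2 := h2 i
      show |f i - p i| ≤ 1 / 2
      rw [abs_le]
      constructor <;> linarith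
  rw [h]
  refine isCompact_Icc.image ?_
  exact PiLp.continuous_toLp 2 _

private theorem R4_convex {n : ℕ} (p : Zc n) : Convex ℝ (cube p) := by
  intro x hx y hy a b ha hb hab i
  have h1 := abs_le.mp (hx i)
  have h2 := abs_le.mp (hy i)
  have e : (a • x + b • y : Es n) i - p i = a * (x i - p i) + b * (y i - p i) := by
    have : (a • x + b • y : Es n) i = a * x i + b * y i := rfl
    rw [this]
    have hp : (p i : ℝ) = (a + b) * p i := by rw [hab, one_mul]
    nlinarith
  rw [e]
  calc |a * (x i - p i) + b * (y i - p i)| ≤ |a * (x i - p i)| + |b * (y i - p i)| := abs_add_le _ _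
    _ = a * |x i - p i| + b * |y i - p i| := by
      rw [abs_mul, abs_mul, abs_of_nonneg ha, abs_of_nonneg hb]
    _ ≤ a * (1 / 2) + b * (1 / 2) :=
      add_le_add (mul_le_mul_of_nonneg_left (hx i) ha) (mul_le_mul_of_nonneg_left (hy i) hb)
    _ = 1 / 2 := by rw [← add_mul, hab, one_mul]

private theorem R4_sub {n : ℕ} (p : Zc n) : ocube p ⊆ cube p := fun _ hx i => (hx i).le

theorem pf_R4 : S_R4 := by
  intro n p
  refine ⟨R4_open p, ?_, R4_sub p, R4_compact p, R4_convex p, ?_⟩
  · refine ⟨WithLp.toLp 2 (fun i => (p i : ℝ)), fun i => ?_⟩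
    show |(p i : ℝ) - p i| < 1 / 2
    norm_num
  · refine Set.Subset.antisymm (closure_minimal (R4_sub p) (R4_closed p)) ?_
    intro x hx
    set m : Es n := WithLp.toLp 2 (fun i => (p i : ℝ)) with hm
    have hmi : ∀ i, m i = p i := fun i => rfl
    have hlim : Tendsto (fun k : ℕ => x - (1 / ((k : ℝ) + 1)) • (x - m)) atTop (𝓝 x) := by
      have h1 := (tendsto_one_div_add_atTop_nhds_zero_nat (𝕜 := ℝ)).smul_const (x - m)
      have h2 := (tendsto_const_nhds (x := x) (f := (atTop : Filter ℕ))).sub h1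
      simpa using h2
    refine mem_closure_of_tendsto hlim (Eventually.of_forall (fun k i => ?_))
    have e : (x - (1 / ((k : ℝ) + 1)) • (x - m) : Es n) i - p i =
        (1 - 1 / ((k : ℝ) + 1)) * (x i - p i) := by
      have : (x - (1 / ((k : ℝ) + 1)) • (x - m) : Es n) i =
        x i - (1 / ((k : ℝ) + 1)) * (x i - m i) := rfl
      rw [this, hmi]
      ring
    have hk : (0 : ℝ) < 1 / ((k : ℝ) + 1) := by positivity
    have hk1 : 1 / ((k : ℝ) + 1) ≤ 1 := by
      rw [div_le_one (by positivity)]
      have : (0 : ℝ) ≤ k := Nat.cast_nonneg k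
      linarith
    rw [e, abs_mul, abs_of_nonneg (by linarith)]
    calc (1 - 1 / ((k : ℝ) + 1)) * |x i - p i| ≤ (1 - 1 / ((k : ℝ) + 1)) * (1 / 2) :=
          mul_le_mul_of_nonneg_left (hx i) (by linarith)
      _ < 1 / 2 := by nlinarith

end Pool.Agent.SM
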