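import Pool.Agent.Lib.MP_288534_co.Stm

set_option autoImplicit false

namespace Pool.Agent.SM

theorem R6_sub (hR4 : S_R4) {n : ℕ} {A : Set (Zc n)} {p : Zc n} (hp : p ∈ A) :
    ocube p ⊆ interior (real A) :=
  interior_maximal (fun _ hx => ⟨p, hp, (hR4 n p).2.2.1 hx⟩) (hR4 n p).1

theorem pf_R6 (hR1 : S_R1) (hR2 : S_R2) (hR4 : S_R4) : S_R6 := by
  intro n A B
  constructor
  · intro h
    rw [Set.disjoint_left]
    intro p hpA hpB
    obtain ⟨x, hx⟩ := (hR4 n p).2.1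
    exact Set.disjoint_left.1 h (R6_sub hR4 hpA hx) (R6_sub hR4 hpB hx)
  · intro h
    rw [Set.disjoint_left]
    intro x hxA hxB
    obtain ⟨p, hp⟩ := hR1 n x
    rw [← (hR4 n p).2.2.2.2.2] at hp
    obtain ⟨y, ⟨hyA, hyB⟩, hy⟩ := mem_closure_iff.1 hp _
      (isOpen_interior.inter isOpen_interior) ⟨hxA, hxB⟩
    obtain ⟨p', hp', hy'⟩ := interior_subset hyA
    obtain ⟨p'', hp'', hy''⟩ := interior_subset hyB
    have e1 := hR2 n p p' y hy hy'
    have e2 := hR2 n p p'' y hy hy''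
    subst e1
    subst e2
    exact Set.disjoint_left.1 h hp' hp''

end Pool.Agent.SM
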