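import Pool.Agent.Lib.MP_288534_co.Stm

set_option autoImplicit false

namespace Pool.Agent.SM

theorem pf_R7 (hR4 : S_R4) : S_R7 := by
  intro n A hA
  have h : real A = ⋃ p ∈ A, cube p := by
    ext x
    simp only [real, Set.mem_ofPred_eq, Set.mem_iUnion, exists_prop]
  rw [h]
  exact hA.isCompact_biUnion (fun p _ => (hR4 n p).2.2.2.1)

end Pool.Agent.SM
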