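import Pool.Agent.Lib.MP_288534_co.Stm

set_option autoImplicit false

namespace Pool.Agent.SM

theorem pf_R8 (hR1 : S_R1) (hR2 : S_R2) (hR3 : S_R3) (hR4 : S_R4) : S_R8 := by
  intro n A
  apply Set.Subset.antisymm
  · rintro x ⟨p, hp, hx⟩
    obtain ⟨-, -, -, -, -, hcl⟩ := hR4 n p
    rw [← hcl] at hx
    refine closure_mono ?_ hx
    rintro y hy ⟨p', hp', hy'⟩
    have : p = p' := hR2 n p p' y hy hy'
    exact hp (this ▸ hp')
  · refine closure_minimal ?_ (hR3 n Aᶜ)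
    intro x hx
    obtain ⟨p, hp⟩ := hR1 n x
    refine ⟨p, fun hA => hx ⟨p, hA, hp⟩, hp⟩

end Pool.Agent.SM
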