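import Pool.Agent.Lib.MP_288534_co.Stm

set_option autoImplicit false

namespace Pool.Agent.SM

/-- restriction of a homeomorphism of the space -/
private theorem Z1_res {X : Type*} [TopologicalSpace X] (Φ : X ≃ₜ X) (A B : Set X)
    (h : Φ '' A = B) : Nonempty (↥A ≃ₜ ↥B) :=
  ⟨(Φ.image A).trans (Homeomorph.setCongr h)⟩

theorem pf_Z1 (hB3 : S_B3) (hB4 : S_B4) (hB9 : S_B9) (hB10 : S_B10) : S_Z1 := by
  intro n
  obtain ⟨Φ, hΦ⟩ := hB10 n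
  obtain ⟨Ψ, hΨ⟩ := hB9 n
  obtain ⟨e1⟩ := Z1_res Φ _ _ hΦ
  obtain ⟨e2⟩ := Z1_res Ψ _ _ hΨ
  obtain ⟨e3⟩ := hB4 n
  obtain ⟨e4⟩ := hB3 n
  exact ⟨(e1.trans e2).trans (e3.trans e4)⟩

end Pool.Agent.SM
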