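import Pool.Agent.Lib.MP_288534_co.Stm

set_option autoImplicit false

namespace Pool.Agent.SM

theorem pf_Z2 (hR5 : S_R5) (hR7 : S_R7) (hD0 : S_D0) : S_Z2 := by
  intro n
  exact ⟨hR7 n (SS n) (hD0 n).2, hR5 n (SS n)⟩

end Pool.Agent.SM
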