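import Pool.Agent.Lib.MP_288534_co.Stm

set_option autoImplicit false

namespace Pool.Agent.SM

theorem pf_Z3 (hZ1 : S_Z1) (hZ2 : S_Z2) (hG4 : S_G4) (hG5 : S_G5) : S_Z3 := by
  intro d hd
  obtain ⟨n, rfl⟩ : ∃ n, d = n + 3 := ⟨d - 3, by omega⟩
  refine ⟨TT n, hZ2 n, hZ1 n, ?_⟩
  haveI := hG4 n
  haveI := hG5 n
  exact Cardinal.mk_eq_aleph0 _

end Pool.Agent.SM
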