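import Pool.Agent.Lib.MP_288534_co.Stm

set_option autoImplicit false

namespace Pool.Agent.SM

theorem pf_A1 : S_A1 := by
  intro m w σ hσ hort hnorm hpos
  have hσ2 : σ * σ = 1 := by rcases hσ with h | h <;> simp [h]
  have hz : ∀ i j, i ≠ j → ∀ k, w i k * w j k = 0 := by
    intro i j hij k
    have hnn : ∀ k ∈ (Finset.univ : Finset (Fin m)), 0 ≤ w i k * w j k := by
      intro k _
      have h1 := mul_nonneg (hpos i k) (hpos j k)
      have h2 : σ * w i k * (σ * w j k) = w i k * w j k := by
        linear_combination (w i k * w j k) * hσ2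
      linarith
    exact (Finset.sum_eq_zero_iff_of_nonneg hnn).1 (hort i j hij) k (Finset.mem_univ k)
  have hex : ∀ i, ∃ k, w i k ≠ 0 := by
    intro i
    by_contra hc
    push Not at hc
    have := hnorm i
    simp [hc] at this
  choose f hf using hex
  have hinj : Function.Injective f := by
    intro i j hij
    by_contra hne
    rcases mul_eq_zero.1 (hz i j hne (f i)) with h | h
    · exact hf i h
    · rw [hij] at h
      exact hf j h
  have hbij := Finite.injective_iff_bijective.1 hinj
  have hoff : ∀ i k, k ≠ f i → w i k = 0 := by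
    intro i k hk
    obtain ⟨j, rfl⟩ := hbij.2 k
    have hij : i ≠ j := fun h => hk (h ▸ rfl)
    exact (mul_eq_zero.1 (hz i j hij (f j))).resolve_right (hf j)
  refine ⟨Equiv.ofBijective f hbij, fun i k => ?_⟩
  rw [Equiv.ofBijective_apply]
  by_cases hk : k = f i
  · subst hk
    rw [if_pos rfl]
    have h1 := hnorm i
    rw [Finset.sum_eq_single (f i) (fun k _ hk => by rw [hoff i k hk]; norm_num)
      (fun h => absurd (Finset.mem_univ _) h)] at h1
    have h2 := hpos i (f i)
    have h3 : (w i (f i) - 1) * (w i (f i) + 1) = 0 := by linear_combination h1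
    rcases mul_eq_zero.1 h3 with h4 | h4
    · have h5 : w i (f i) = 1 := by linarith
      rw [h5] at h2 ⊢
      rcases hσ with h | h
      · exact h.symm
      · rw [h] at h2
        norm_num at h2
    · have h5 : w i (f i) = -1 := by linarith
      rw [h5] at h2 ⊢
      rcases hσ with h | h
      · rw [h] at h2
        norm_num at h2
      · exact h.symm
  · rw [if_neg hk]
    exact hoff i k hk

end Pool.Agent.SM
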