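import Pool.Agent.Lib.MP_288534_co.Stm

set_option autoImplicit false

open scoped Topology

namespace Pool.Agent.SM

theorem pf_B3a : S_B3a := by
  intro n x0 x1 y0 y1 z0 z1 hx hy hz
  have hcx : ∀ i : Dx n, Continuous (fun x : Es n => x i) := fun i => by fun_prop
  have hlin : ∀ i : Dx n, IsLinearMap ℝ (fun x : Es n => x i) := fun i =>
    ⟨fun x y => rfl, fun c x => rfl⟩
  have hrw : bx n x0 x1 y0 y1 z0 z1 =
      {x : Es n | (x0 : ℝ) - 1 / 2 ≤ x (ax n)} ∩ {x | x (ax n) ≤ x1 + 1 / 2} ∩
      ({x | (y0 : ℝ) - 1 / 2 ≤ x (ay n)} ∩ {x | x (ay n) ≤ y1 + 1 / 2}) ∩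
      ({x | (z0 : ℝ) - 1 / 2 ≤ x (az n)} ∩ {x | x (az n) ≤ z1 + 1 / 2}) ∩
      ⋂ i : {i : Dx n // 3 ≤ i.val}, ({x | -(1 / 2 : ℝ) ≤ x i.1} ∩ {x | x i.1 ≤ 1 / 2}) := by
    ext x
    simp only [bx, Set.mem_ofPred_eq, Set.mem_inter_iff, Set.mem_iInter, Subtype.forall, abs_le]
    tauto
  refine ⟨?_, ?_, ?_⟩
  · set R : ℝ := |(x0 : ℝ)| + |(x1 : ℝ)| + |(y0 : ℝ)| + |(y1 : ℝ)| + |(z0 : ℝ)| + |(z1 : ℝ)| + 1
      with hR
    have hK : IsCompact ((WithLp.toLp 2 : (Dx n → ℝ) → Es n) ''
        (Set.univ.pi fun _ => Set.Icc (-R) R)) := by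
      refine IsCompact.image (isCompact_univ_pi fun _ => isCompact_Icc) ?_
      exact PiLp.continuous_toLp 2 _
    refine hK.of_isClosed_subset ?_ ?_
    · rw [hrw]
      refine IsClosed.inter (IsClosed.inter (IsClosed.inter ?_ ?_) ?_) ?_
      · exact (isClosed_le continuous_const (hcx _)).inter (isClosed_le (hcx _) continuous_const)
      · exact (isClosed_le continuous_const (hcx _)).inter (isClosed_le (hcx _) continuous_const)
      · exact (isClosed_le continuous_const (hcx _)).inter (isClosed_le (hcx _) continuous_const)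
      · exact isClosed_iInter fun i =>
          (isClosed_le continuous_const (hcx _)).inter (isClosed_le (hcx _) continuous_const)
    · rintro x ⟨a1, a2, a3, a4, a5, a6, a7⟩
      refine ⟨fun i => x i, fun i _ => ?_, rfl⟩
      have b1 := abs_nonneg (x0 : ℝ)
      have b2 := abs_nonneg (x1 : ℝ)
      have b3 := abs_nonneg (y0 : ℝ)
      have b4 := abs_nonneg (y1 : ℝ)
      have b5 := abs_nonneg (z0 : ℝ)
      have b6 := abs_nonneg (z1 : ℝ)
      have c1 := neg_abs_le (x0 : ℝ)
      have c2 := le_abs_self (x1 : ℝ)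
      have c3 := neg_abs_le (y0 : ℝ)
      have c4 := le_abs_self (y1 : ℝ)
      have c5 := neg_abs_le (z0 : ℝ)
      have c6 := le_abs_self (z1 : ℝ)
      by_cases h0 : i = ax n
      · subst h0; constructor <;> linarith
      by_cases h1 : i = ay n
      · subst h1; constructor <;> linarith
      by_cases h2 : i = az n
      · subst h2; constructor <;> linarith
      have h3 : 3 ≤ i.val := by
        have e0 : i.val ≠ 0 := fun h => h0 (Fin.ext h)
        have e1 : i.val ≠ 1 := fun h => h1 (Fin.ext h)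
        have e2 : i.val ≠ 2 := fun h => h2 (Fin.ext h)
        omega
      have := abs_le.1 (a7 i h3)
      constructor <;> linarith [this.1, this.2]
  · rw [hrw]
    refine Convex.inter (Convex.inter (Convex.inter ?_ ?_) ?_) ?_
    · exact (convex_halfSpace_ge (hlin _) _).inter (convex_halfSpace_le (hlin _) _)
    · exact (convex_halfSpace_ge (hlin _) _).inter (convex_halfSpace_le (hlin _) _)
    · exact (convex_halfSpace_ge (hlin _) _).inter (convex_halfSpace_le (hlin _) _)
    · exact convex_iInter fun i =>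
        (convex_halfSpace_ge (hlin _) _).inter (convex_halfSpace_le (hlin _) _)
  · let p : Dx n → ℝ := fun i => if i.val = 0 then (x0 : ℝ) else if i.val = 1 then (y0 : ℝ)
      else if i.val = 2 then (z0 : ℝ) else 0
    have hopen : IsOpen {x : Es n | ∀ i, |x i - p i| < 1 / 2} := by
      have : {x : Es n | ∀ i, |x i - p i| < 1 / 2} = ⋂ i, {x : Es n | |x i - p i| < 1 / 2} := by
        ext x; simp
      rw [this]
      refine isOpen_iInter_of_finite fun i => ?_
      exact isOpen_lt (((hcx i).sub continuous_const).abs) continuous_const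
    have hsub : {x : Es n | ∀ i, |x i - p i| < 1 / 2} ⊆ bx n x0 x1 y0 y1 z0 z1 := by
      intro x hx'
      have hx'' : ∀ i, |x i - p i| < 1 / 2 := hx'
      have e0 := hx'' (ax n)
      have e1 := hx'' (ay n)
      have e2 := hx'' (az n)
      have q0 : p (ax n) = x0 := by simp [p]
      have q1 : p (ay n) = y0 := by
        simp [p]
      have q2 : p (az n) = z0 := by
        simp [p]
      rw [q0, abs_lt] at e0
      rw [q1, abs_lt] at e1
      rw [q2, abs_lt] at e2
      have f0 : (x0 : ℝ) ≤ x1 := by exact_mod_cast hx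
      have f1 : (y0 : ℝ) ≤ y1 := by exact_mod_cast hy
      have f2 : (z0 : ℝ) ≤ z1 := by exact_mod_cast hz
      refine ⟨by linarith [e0.1], by linarith [e0.2], by linarith [e1.1], by linarith [e1.2],
        by linarith [e2.1], by linarith [e2.2], fun i hi => ?_⟩
      have := hx'' i
      have hp : p i = 0 := by
        simp only [p]
        rw [if_neg (by omega), if_neg (by omega), if_neg (by omega)]
      rw [hp, sub_zero] at this
      exact this.le
    refine ⟨WithLp.toLp 2 p, interior_maximal hsub hopen ?_⟩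
    intro i
    show |p i - p i| < 1 / 2
    simp

end Pool.Agent.SM
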