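import Pool.Agent.Lib.MP_288534_co.Stm

set_option autoImplicit false

namespace Pool.Agent.SM

theorem pf_C3 (hD2 : S_D2) (hD3 : S_D3) (hD5 : S_D5) (hK3 : S_K3) (hK6 : S_K6)
    (hK8a : S_K8a) : S_C3 := by
  have _ := hD2
  intro n κ j p hj hadj hp
  have hle : ∀ i, |κ.tun j i - p i| ≤ 1 := by
    intro i
    have h := Finset.single_le_sum (f := fun i => |κ.tun j i - p i|)
      (fun i _ => abs_nonneg _) (Finset.mem_univ i)
    exact h.trans hadj.le
  have hq : ∀ c, |κ.q j c| ≤ KK n - 1 := by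
    intro c
    obtain ⟨-, h2, h3, -⟩ := hK3 n κ j hj.le
    by_cases hc : c = κ.a
    · rw [hc]; exact h3 hj
    · exact h2 c hc
  have hm : InMega κ.base p := by
    intro i
    have h1 := hle i
    have h2 := hq i
    simp only [Key.tun] at h1
    rw [abs_le] at h1 h2 ⊢
    constructor <;> linarith [h1.1, h1.2, h2.1, h2.2]
  have hT : p ∈ Tuns n := by
    by_contra hT
    exact hp (((hD3 n κ.base p hm).1 (hK8a n κ).1).2 hT)
  obtain ⟨j', hj', rfl⟩ := hD5 n κ j p hj.le hm (by rw [abs_sub_comm]; exact hle _) hT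
  have hs : ∀ i i' : ℕ, ∑ c, |κ.tun i c - κ.tun i' c| = ∑ c, |κ.q i c - κ.q i' c| := by
    intro i i'
    refine Finset.sum_congr rfl fun c _ => ?_
    simp only [Key.tun]
    congr 1
    ring
  have hadj' : ∑ c, |κ.tun j c - κ.tun j' c| = 1 := hadj
  rcases le_total j j' with h | h
  · left
    rw [hs, hK6 n κ j j' h hj'] at hadj'
    have : j' = j + 1 := by omega
    rw [this]
  · right
    have h2 : ∑ c, |κ.tun j c - κ.tun j' c| = ∑ c, |κ.q j' c - κ.q j c| := by
      rw [hs]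
      exact Finset.sum_congr rfl fun c _ => abs_sub_comm _ _
    rw [h2, hK6 n κ j' j h hj.le] at hadj'
    have : j' = j - 1 ∧ 1 ≤ j := by omega
    exact ⟨this.2, by rw [this.1]⟩

end Pool.Agent.SM
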