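import Pool.Agent.Lib.MP_288534_co.Stm

/-!
# [SM F10] Every tiling containing the tile is a chain
-/

set_option autoImplicit false

namespace Pool.Agent.SM

theorem pf_F10 (hF7 : S_F7) (hF8 : S_F8) (hF9 : S_F9) (hP3a : S_P3a) (hR1 : S_R1) (_hR2 : S_R2)
    (hR4 : S_R4) (hR11a : S_R11a) (hR11b : S_R11b) : S_F10 := by
  intro n W hW hT
  obtain ⟨γ, -, hγ⟩ := hF7 n W hW hT
  have hin := hF8 n W γ hW hγ
  have hval := hF9 n W γ hW hin
  refine ⟨γ, hval, ?_⟩
  apply Set.Subset.antisymm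
  · intro G hG
    obtain ⟨h0, hh0⟩ := hW.1 G hG
    -- a cell of the tile
    obtain ⟨g1, -, p0, hp0, -⟩ := hP3a n γ hval (fun _ => 0)
    obtain ⟨y, hy⟩ := (hR4 n p0).2.1
    have hopen : IsOpen (h0 '' ocube p0) :=
      h0.toHomeomorph.isOpenMap _ (hR4 n p0).1
    have hsub : h0 '' ocube p0 ⊆ G := by
      rw [hh0]
      apply Set.image_mono
      intro z hz
      exact ⟨p0, hp0, (hR4 n p0).2.2.1 hz⟩
    have hx : h0 y ∈ interior G :=
      interior_maximal hsub hopen ⟨y, hy, rfl⟩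
    obtain ⟨p, hp⟩ := hR1 n (h0 y)
    have hcl : h0 y ∈ closure (ocube p) := by
      rw [(hR4 n p).2.2.2.2.2]
      exact hp
    obtain ⟨z, hz1, hz2⟩ := mem_closure_iff.mp hcl (interior G) isOpen_interior hx
    obtain ⟨g, hg, hpg⟩ := hP3a n γ hval p
    obtain ⟨h, hh⟩ := hR11a n g
    have hz3 : z ∈ interior (h '' TT n) := by
      refine interior_maximal ?_ (hR4 n p).1 hz2
      intro w hw
      unfold TT
      rw [hR11b n g h (SS n) hh]
      exact ⟨p, hpg, (hR4 n p).2.2.1 hw⟩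
    have hGeq : G = h '' TT n := by
      by_contra hne
      have := hW.2.2 G hG (h '' TT n) (hin g hg h hh) hne
      exact Set.disjoint_left.mp this hz1 hz3
    exact ⟨g, hg, h, hh, hGeq⟩
  · rintro G ⟨g, hg, h, hh, rfl⟩
    exact hin g hg h hh

end Pool.Agent.SM
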