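import Pool.Agent.Lib.MP_288534_co.Stm

set_option autoImplicit false

namespace Pool.Agent.SM

theorem pf_F9c (hF9a : S_F9a) (hR6 : S_R6) (hR11a : S_R11a) (hR11b : S_R11b) (hR12 : S_R12) :
    S_F9c := by
  intro n W g1 g2 p hW h1 h2 hp1 hp2
  obtain ⟨k1, hk1⟩ := hR11a n g1
  obtain ⟨k2, hk2⟩ := hR11a n g2
  have e1 : (⇑k1) '' TT n = real (g1.act '' SS n) := hR11b n g1 k1 (SS n) hk1
  have e2 : (⇑k2) '' TT n = real (g2.act '' SS n) := hR11b n g2 k2 (SS n) hk2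
  have m1 : (⇑k1) '' TT n ∈ W := h1 k1 hk1
  have m2 : (⇑k2) '' TT n ∈ W := h2 k2 hk2
  have eq : (⇑k1) '' TT n = (⇑k2) '' TT n := by
    by_contra hne
    have hd := hW.2.2 _ m1 _ m2 hne
    rw [e1, e2, hR6 n] at hd
    exact (Set.disjoint_left.mp hd) hp1 hp2
  have hfix : ∀ x, (k1.trans k2.symm) x = x := by
    refine hF9a n W hW (k1.trans k2.symm) ?_
    have : (⇑(k1.trans k2.symm)) '' TT n = (⇑k2.symm) '' ((⇑k1) '' TT n) := by
      rw [Set.image_image]; rfl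
    rw [this, eq, Set.image_image]
    simp
  have hxx : ∀ x, k1 x = k2 x := by
    intro x
    have := hfix x
    have h3 : k2.symm (k1 x) = x := this
    have h4 := congrArg k2 h3
    rwa [k2.apply_symm_apply] at h4
  refine (hR12 n).1 g1 g2 k2 ?_ hk2
  intro x i
  rw [← hxx x]
  exact hk1 x i

end Pool.Agent.SM
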