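import Pool.Agent.Lib.MP_288534_co.Stm

/-! # [SM H2a] -/

set_option autoImplicit false

namespace Pool.Agent.SM

/-- values in the negative region -/
def H2a_vN (r : ℤ) : ℤ := if r = 0 then 1 else if r = 1 then 3 else if r = 2 then 1 else 5
/-- values in the middle region -/
def H2a_vM (r : ℤ) : ℤ := if r = 0 then 5 else if r = 1 then 3 else if r = 2 then 1
     else if r = 3 then 1 else if r = 4 then 5 else if r = 5 then 3
     else if r = 6 then 3 else if r = 7 then 1 else 5
/-- values in the last region -/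
def H2a_vT (r : ℤ) : ℤ := if r = 0 then 5 else if r = 1 then 5
     else if r = 2 then 1 else if r = 3 then 1
     else if r = 4 then 1 else 5

theorem H2a_N (m : ℕ) (k r : ℤ) (h : k < 0) (hr : k % 4 = r) : zseq m k = H2a_vN r := by
  subst hr
  simp only [zseq, H2a_vN, if_pos h]

theorem H2a_M (m : ℕ) (k r : ℤ) (h : 0 ≤ k) (h' : k < 9 * m) (hr : k % 9 = r) :
    zseq m k = H2a_vM r := by
  subst hr
  simp only [zseq, H2a_vM, if_neg (not_lt.2 h), if_pos h']

theorem H2a_T (m : ℕ) (k r : ℤ) (h : 0 ≤ k) (h' : 9 * (m : ℤ) ≤ k) (hr : (k - 9 * m) % 6 = r) :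
    zseq m k = H2a_vT r := by
  subst hr
  simp only [zseq, H2a_vT, if_neg (not_lt.2 h), if_neg (not_lt.2 h')]

theorem H2a_val (m : ℕ) (k : ℤ) : zseq m k = 1 ∨ zseq m k = 3 ∨ zseq m k = 5 := by
  unfold zseq
  split_ifs <;> simp

theorem H2a_main (m : ℕ) (k : ℤ) : zseq m (k - 1) ≠ zseq m (k - 4) ∧
    (zseq m k = zseq m (k - 1) ∨ zseq m k = zseq m (k - 4)) := by
  by_cases hA : k < 0
  · obtain ⟨r, hr⟩ : ∃ r, r = k % 4 := ⟨_, rfl⟩
    rw [H2a_N m k r hA hr.symm, H2a_N m (k - 1) ((r + 3) % 4) (by omega) (by omega),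
      H2a_N m (k - 4) r (by omega) (by omega)]
    have h1 : 0 ≤ r := by omega
    have h2 : r < 4 := by omega
    clear hr hA
    interval_cases r <;> decide
  by_cases hB : k < 4
  · by_cases hm : m = 0
    · subst hm
      have h1 : 0 ≤ k := by omega
      interval_cases k <;> decide
    · have h1 : 0 ≤ k := by omega
      rw [H2a_M m k k h1 (by omega) (by omega), H2a_N m (k - 4) k (by omega) (by omega)]
      by_cases h0 : k = 0
      · subst h0
        rw [H2a_N m (0 - 1) 3 (by omega) (by omega)]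
        decide
      · rw [H2a_M m (k - 1) (k - 1) (by omega) (by omega) (by omega)]
        have h2 : 1 ≤ k := by omega
        clear h1 h0 hA hm
        interval_cases k <;> decide
  by_cases hC : k < 9 * m
  · obtain ⟨r, hr⟩ : ∃ r, r = k % 9 := ⟨_, rfl⟩
    rw [H2a_M m k r (by omega) hC hr.symm, H2a_M m (k - 1) ((r + 8) % 9) (by omega) (by omega)
      (by omega), H2a_M m (k - 4) ((r + 5) % 9) (by omega) (by omega) (by omega)]
    have h1 : 0 ≤ r := by omega
    have h2 : r < 9 := by omega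
    clear hr hA hB hC
    interval_cases r <;> decide
  by_cases hD : k < 9 * m + 4
  · obtain ⟨j, hj⟩ : ∃ j, j = k - 9 * (m : ℤ) := ⟨_, rfl⟩
    have hk : k = 9 * m + j := by omega
    have h1 : 0 ≤ j := by omega
    have h2 : j < 4 := by omega
    rw [H2a_T m k j (by omega) (by omega) (by omega),
      H2a_M m (k - 4) (5 + j) (by omega) (by omega) (by omega)]
    by_cases h0 : j = 0
    · subst h0
      rw [H2a_M m (k - 1) 8 (by omega) (by omega) (by omega)]
      decide
    · rw [H2a_T m (k - 1) (j - 1) (by omega) (by omega) (by omega)]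
      have h3 : 1 ≤ j := by omega
      clear hj hk hA hB hC hD h1 h0
      interval_cases j <;> decide
  · obtain ⟨r, hr⟩ : ∃ r, r = (k - 9 * (m : ℤ)) % 6 := ⟨_, rfl⟩
    rw [H2a_T m k r (by omega) (by omega) hr.symm, H2a_T m (k - 1) ((r + 5) % 6) (by omega)
      (by omega) (by omega), H2a_T m (k - 4) ((r + 2) % 6) (by omega) (by omega) (by omega)]
    have h1 : 0 ≤ r := by omega
    have h2 : r < 6 := by omega
    clear hr hA hB hC hD
    interval_cases r <;> decide

theorem H2a_col : ∀ z o : ℤ, (z = 1 ∨ z = 3 ∨ z = 5) → (o = 1 ∨ o = 3 ∨ o = 5) → z ≠ o →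
    zc (colOf z o) = z ∧ oc (colOf z o) = o := by
  intro z o hz ho h
  rcases hz with rfl | rfl | rfl <;> rcases ho with rfl | rfl | rfl <;>
    first | exact absurd rfl h | decide

theorem H2a_fam (m : ℕ) (k : ℤ) : zc (fam m k) = zseq m k ∧
    oc (fam m k) = 9 - zseq m (k - 1) - zseq m (k - 4) := by
  have h1 := H2a_val m k
  have h2 := H2a_val m (k - 1)
  have h3 := H2a_val m (k - 4)
  have h4 := H2a_main m k
  refine H2a_col _ _ h1 ?_ ?_
  · omega
  · omega

theorem pf_H2a : S_H2a := by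
  intro m
  refine ⟨?_, fun k => (H2a_fam m k).1⟩
  intro k
  rw [(H2a_fam m k).2, (H2a_fam m (k - 1)).1, (H2a_fam m (k - 4)).1]
  have h2 := H2a_val m (k - 1)
  have h3 := H2a_val m (k - 4)
  have h4 := H2a_main m k
  refine ⟨?_, ?_, h4.1⟩ <;> omega

end Pool.Agent.SM
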