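import Pool.Agent.Lib.MP_288534_co.Stm

set_option autoImplicit false

namespace Pool.Agent.SM

theorem K8b_ext {n : ℕ} (κ κ' : Key n) (h1 : κ.a.val = κ'.a.val) (h2 : sg κ.s = sg κ'.s)
    (h3 : κ.B.val = κ'.B.val) : κ = κ' := by
  obtain ⟨a, s, B, hB⟩ := κ
  obtain ⟨a', s', B', hB'⟩ := κ'
  have e1 : a = a' := Fin.ext h1
  have e2 : s = s' := by
    simp only [sg] at h2
    rcases s with _ | _ <;> rcases s' with _ | _ <;> simp_all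
  have e3 : B = B' := Fin.ext h3
  subst e1 e2 e3
  rfl

/-- the list of the bases, and of `v` on the axes `0, 1, 2` -/
theorem K8b_list {n : ℕ} (κ : Key n) (b0 b1 b2 v0 v1 v2 : ℤ) (h0 : b0 = κ.base (ax n))
    (h1 : b1 = κ.base (ay n)) (h2 : b2 = κ.base (az n)) (g0 : v0 = κ.v (ax n))
    (g1 : v1 = κ.v (ay n)) (g2 : v2 = κ.v (az n)) :
    (κ.a.val = 0 ∧ κ.B.val = 0 ∧ sg κ.s = 1 ∧ b0 = 0 ∧ b1 = 0 ∧ b2 = 0 ∧ v0 = 6 ∧ v1 = 0 ∧ v2 = 0) ∨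
    (κ.a.val = 0 ∧ κ.B.val = 0 ∧ sg κ.s = -1 ∧ b0 = 5 ∧ b1 = 0 ∧ b2 = 1 ∧ v0 = -6 ∧ v1 = 0 ∧
      v2 = 0) ∨
    (κ.a.val = 1 ∧ κ.B.val = 0 ∧ sg κ.s = 1 ∧ b0 = 2 ∧ b1 = 0 ∧ b2 = 0 ∧ v0 = 0 ∧ v1 = 5 ∧ v2 = 0) ∨
    (κ.a.val = 1 ∧ κ.B.val = 0 ∧ sg κ.s = -1 ∧ b0 = 2 ∧ b1 = 4 ∧ b2 = 1 ∧ v0 = 0 ∧ v1 = -5 ∧
      v2 = 0) ∨
    (κ.a.val = 2 ∧ sg κ.s = 1 ∧ b0 = 2 * (κ.B.val : ℤ) ∧ b1 = 3 ∧ b2 = 0 ∧ v0 = 0 ∧ v1 = -2 ∧
      v2 = 2) ∨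
    (κ.a.val = 2 ∧ sg κ.s = -1 ∧ b0 = 2 * (κ.B.val : ℤ) ∧ b1 = 2 ∧ b2 = 1 ∧ v0 = 0 ∧ v1 = 2 ∧
      v2 = -2) ∨
    (3 ≤ κ.a.val ∧ κ.B.val = 0 ∧ (sg κ.s = 1 ∨ sg κ.s = -1) ∧ b0 = 2 ∧ b1 = 1 ∧ b2 = 0 ∧ v0 = 0 ∧
      v1 = 0 ∧ v2 = 0) := by
  have hB : κ.a.val ≠ 2 → κ.B.val = 0 := by
    intro h
    rw [κ.hB h]
    rfl
  simp only [Key.base, Key.v, if_true, one_ne_zero, if_false,
      OfNat.ofNat_ne_zero, OfNat.ofNat_ne_one, Fin.ext_iff, sg] at h0 h1 h2 g0 g1 g2 ⊢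
  have c : κ.a.val = 0 ∨ κ.a.val = 1 ∨ κ.a.val = 2 ∨ 3 ≤ κ.a.val := by omega
  rcases c with c | c | c | c
  · rw [c] at h0 h1 h2 g0 g1 g2 ⊢
    have := hB (by omega)
    rcases hs : κ.s with _ | _ <;> rw [hs] at h0 h1 h2 g0 g1 g2 <;>
      simp at h0 h1 h2 g0 g1 g2 ⊢ <;> omega
  · rw [c] at h0 h1 h2 g0 g1 g2 ⊢
    have := hB (by omega)
    rcases hs : κ.s with _ | _ <;> rw [hs] at h0 h1 h2 g0 g1 g2 <;>
      simp at h0 h1 h2 g0 g1 g2 ⊢ <;> omega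
  · rw [c] at h0 h1 h2 g0 g1 g2 ⊢
    rcases hs : κ.s with _ | _ <;> rw [hs] at h0 h1 h2 g0 g1 g2 <;>
      simp at h0 h1 h2 g0 g1 g2 ⊢ <;> omega
  · have := hB (by omega)
    have n0 : ¬ κ.a.val = 0 := by omega
    have n1 : ¬ κ.a.val = 1 := by omega
    have n2 : ¬ κ.a.val = 2 := by omega
    have m0 : ¬ 0 = κ.a.val := by omega
    have m1 : ¬ 1 = κ.a.val := by omega
    have m2 : ¬ 2 = κ.a.val := by omega
    simp only [n0, n1, n2, m0, m1, m2, c, if_false, if_true] at h0 h1 h2 g0 g1 g2 ⊢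
    rcases hs : κ.s with _ | _ <;> simp <;> omega

theorem pf_K8b : S_K8b := by
  intro n κ κ'
  have L := K8b_list κ _ _ _ _ _ _ rfl rfl rfl rfl rfl rfl
  have L' := K8b_list κ' _ _ _ _ _ _ rfl rfl rfl rfl rfl rfl
  refine ⟨?_, ?_⟩
  · intro h
    have h0 := congrFun h (ax n)
    have h1 := congrFun h (ay n)
    have h2 := congrFun h (az n)
    have key : (κ.a.val = κ'.a.val ∧ sg κ.s = sg κ'.s ∧ κ.B.val = κ'.B.val) ∨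
        (3 ≤ κ.a.val ∧ 3 ≤ κ'.a.val) := by
      rcases L with L | L | L | L | L | L | L <;>
        rcases L' with L' | L' | L' | L' | L' | L' | L' <;> omega
    rcases key with ⟨k1, k2, k3⟩ | k
    · exact Or.inl (K8b_ext κ κ' k1 k2 k3)
    · exact Or.inr k
  · intro h
    have h0 := h (ax n)
    have h1 := h (ay n)
    have h2 := h (az n)
    have key : (κ.a.val = κ'.a.val ∧ sg κ.s = sg κ'.s ∧ κ.B.val = κ'.B.val) ∨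
        (3 ≤ κ.a.val ∧ 3 ≤ κ'.a.val ∧ κ.B.val = 0 ∧ κ'.B.val = 0 ∧
          (sg κ.s = 1 ∨ sg κ.s = -1)) := by
      rcases L with L | L | L | L | L | L | L <;>
        rcases L' with L' | L' | L' | L' | L' | L' | L' <;> omega
    rcases key with ⟨k1, k2, k3⟩ | ⟨k1, k2, k3, k4, k5⟩
    · exact K8b_ext κ κ' k1 k2 k3
    · have h3 := h κ.a
      have n0 : ¬ κ.a.val = 0 := by omega
      have n1 : ¬ κ.a.val = 1 := by omega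
      have n2 : ¬ κ.a.val = 2 := by omega
      have n0' : ¬ κ'.a.val = 0 := by omega
      have n1' : ¬ κ'.a.val = 1 := by omega
      have n2' : ¬ κ'.a.val = 2 := by omega
      simp only [Key.base, Key.v, n0, n1, n2, n0', n1', n2', if_false, if_true, zero_add] at h3
      by_cases e : κ.a = κ'.a
      · rw [if_pos e] at h3
        exact K8b_ext κ κ' (by rw [e]) h3 (by omega)
      · rw [if_neg e] at h3
        omega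

end Pool.Agent.SM
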