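import Pool.Agent.Lib.MP_288534_co.Stm

/-!
# [SM P3d] Different tunnels are disjoint
-/

set_option autoImplicit false

namespace Pool.Agent.SM

theorem pf_P3d (hD1 : S_D1) (hD2 : S_D2) (hK4 : S_K4) (hK6 : S_K6) (hK8b : S_K8b) : S_P3d := by
  intro n κ κ' j j' hj hj' h
  have hb : κ.base = κ'.base := by
    have h1 := (hD2 n κ j hj).1
    have h2 := (hD2 n κ' j' hj').1
    rw [← h] at h2
    exact (hD1 n (κ.tun j)).unique h1 h2
  have hq : ∀ c, κ.q j c = κ'.q j' c := by
    intro c
    have := congrFun h c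
    simp only [Key.tun] at this
    rw [hb] at this
    linarith
  have hk : κ = κ' := by
    rcases (hK8b n κ κ').1 hb with h1 | ⟨h1, h2⟩
    · exact h1
    · by_contra hne
      have := hK4 n κ κ' j j' h1 h2 hne hj hj'
      rw [hq (ax n), sub_self, abs_zero] at this
      norm_num at this
  refine ⟨hk, ?_⟩
  subst hk
  have key : ∀ i i' : ℕ, i ≤ i' → i' ≤ κ.len → (∀ c, κ.q i c = κ.q i' c) → i = i' := by
    intro i i' h1 h2 h3
    have h4 := hK6 n κ i i' h1 h2
    have h5 : ∑ c, |κ.q i c - κ.q i' c| = 0 := by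
      apply Finset.sum_eq_zero
      intro c _
      rw [h3 c, sub_self, abs_zero]
    rw [h5] at h4
    omega
  rcases le_total j j' with h1 | h1
  · exact key j j' h1 hj' hq
  · exact (key j' j h1 hj (fun c => (hq c).symm)).symm

end Pool.Agent.SM
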