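import Pool.Agent.Lib.MP_288534_co.Stm

/-!
# [SM R5] Unions of cubes are regular closed.
-/

set_option autoImplicit false

namespace Pool.Agent.SM

theorem pf_R5 (hR3 : S_R3) (hR4 : S_R4) : S_R5 := by
  intro n A
  apply Set.Subset.antisymm
  · exact closure_minimal interior_subset (hR3 n A)
  · rintro x ⟨p, hp, hx⟩
    obtain ⟨ho, -, hsub, -, -, hcl⟩ := hR4 n p
    rw [← hcl] at hx
    refine closure_mono ?_ hx
    refine interior_maximal ?_ ho
    intro y hy
    exact ⟨p, hp, hsub hy⟩

end Pool.Agent.SM
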